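import Pool.Agent.H817.KE.Stm

/-!
Almost invariant sets of the group give pieces of the complement (written by helper553).
-/

set_option autoImplicit false

namespace Pool.Agent.H817.KE

open Set Filter Topology Module

theorem ta_fin {Γ E : Type} [Group Γ] [NormedAddCommGroup E] [NormedSpace ℝ E]
    (hol : Γ →* (E ≃ᵃ[ℝ] E)) (k0 : E) (A : Set E) (Q S : Set Γ) (hQ : Q.Finite)
    (hS : ∀ s : Γ, {g | ¬ (g ∈ S ↔ g * s ∈ S)}.Finite) (hSi : S.Infinite)
    (h : ∀ g, g ∉ Q → (hol g k0 ∈ A ↔ g ∈ S)) :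
    {g : Γ | hol g k0 ∈ A}.Infinite ∧
      ∀ s : Γ, {g : Γ | ¬ (hol g k0 ∈ A ↔ hol (g * s) k0 ∈ A)}.Finite := by
  constructor
  · intro hfin
    apply hSi
    apply (hfin.union hQ).subset
    intro g hg
    by_cases hgQ : g ∈ Q
    · exact Or.inr hgQ
    · exact Or.inl ((h g hgQ).2 hg)
  · intro s
    have h2 : ((fun g : Γ => g * s) ⁻¹' Q).Finite :=
      hQ.preimage (fun a _ b _ hab => mul_right_cancel hab)
    apply ((hQ.union h2).union (hS s)).subset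
    intro g hg
    by_cases hgQ : g ∈ Q
    · exact Or.inl (Or.inl hgQ)
    by_cases hgQ2 : g * s ∈ Q
    · exact Or.inl (Or.inr hgQ2)
    right
    intro hcon
    apply hg
    rw [h g hgQ, h (g * s) hgQ2]
    exact hcon

theorem t_A (h2 : S_T) : S_A := by
  classical
  intro Γ E _ _ _ _ hdim hol Ω hD S hS hSi hSci k0 hk0
  have hmul : ∀ (g h : Γ) (z : E), hol (g * h) z = hol g (hol h z) := by
    intro g h z
    rw [map_mul]; rfl
  have hone : ∀ z : E, hol 1 z = z := by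
    intro z
    rw [map_one]; rfl
  have hinvl : ∀ (g : Γ) (z : E), hol g⁻¹ (hol g z) = z := by
    intro g z
    rw [← hmul, inv_mul_cancel, hone]
  have hinvr : ∀ (g : Γ) (z : E), hol g (hol g⁻¹ z) = z := by
    intro g z
    rw [← hmul, mul_inv_cancel, hone]
  have hcont : ∀ g : Γ, Continuous (hol g) := fun g =>
    AffineEquiv.continuous_of_finiteDimensional (hol g)
  obtain ⟨K00, hK00Ω, hK00c, hcc0⟩ := hD.cc
  obtain ⟨K0, hK0⟩ : ∃ K0 : Set E, K0 = K00 ∪ {k0} := ⟨_, rfl⟩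
  have hK0Ω : K0 ⊆ Ω := by
    rw [hK0]
    exact union_subset hK00Ω (singleton_subset_iff.2 hk0)
  have hK0c : IsCompact K0 := by
    rw [hK0]
    exact hK00c.union isCompact_singleton
  have hk0K : k0 ∈ K0 := by
    rw [hK0]
    exact Or.inr rfl
  have hcc : ∀ z ∈ Ω, ∃ g : Γ, ∃ k ∈ K0, hol g k = z := by
    intro z hz
    obtain ⟨g, k, hk, hgk⟩ := hcc0 z hz
    exact ⟨g, k, by rw [hK0]; exact Or.inl hk, hgk⟩
  obtain ⟨V0, hV0c, hK0V0, hV0Ω⟩ := exists_compact_between hK0c hD.op hK0Ω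
  have hFfin : {g : Γ | ∃ z ∈ V0, hol g z ∈ V0}.Finite := hD.pd V0 hV0Ω hV0c
  set F : Set Γ := {g : Γ | ∃ z ∈ V0, hol g z ∈ V0} with hF
  set B : Set Γ := ⋃ s ∈ F, {g | ¬ (g ∈ S ↔ g * s ∈ S)} with hB
  have hBfin : B.Finite := hFfin.biUnion (fun s _ => hS s)
  -- choice of the group elements
  have hch : ∀ z : E, ∃ g : Γ, z ∈ Ω → ∃ k ∈ K0, hol g k = z := by
    intro z
    by_cases hz : z ∈ Ω
    · obtain ⟨g, hg⟩ := hcc z hz
      exact ⟨g, fun _ => hg⟩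
    · exact ⟨1, fun h => absurd h hz⟩
  choose γ hγ using hch
  let c : E → ℝ := fun z => if γ z ∈ S then 1 else 0
  have hc : ∀ z, c z = 1 ↔ γ z ∈ S := by
    intro z
    by_cases h : γ z ∈ S
    · simp [c, h]
    · simp [c, h]
  have hc' : ∀ z z', (c z = 1 ↔ c z' = 1) → c z' = c z := by
    intro z z' h
    rw [hc, hc] at h
    by_cases h' : γ z ∈ S
    · simp [c, h', h.1 h']
    · have h'' : γ z' ∉ S := fun hh => h' (h.2 hh)
      simp [c, h', h'']
  have hK0V0' : K0 ⊆ V0 := hK0V0.trans interior_subset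
  have key : ∀ (g : Γ), g ∉ B → ∀ v ∈ V0, (c (hol g v) = 1 ↔ g ∈ S) := by
    intro g hg v hv
    have hz : hol g v ∈ Ω := hD.inv g v (hV0Ω hv)
    obtain ⟨k, hk, hkz⟩ := hγ (hol g v) hz
    rw [hc]
    have hs : g⁻¹ * γ (hol g v) ∈ F := by
      refine ⟨k, hK0V0' hk, ?_⟩
      rw [hmul, hkz, hinvl]
      exact hv
    have h3 : (g ∈ S ↔ g * (g⁻¹ * γ (hol g v)) ∈ S) := by
      by_contra hcon
      apply hg
      rw [hB]
      simp only [mem_iUnion]
      exact ⟨_, hs, hcon⟩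
    rw [mul_inv_cancel_left] at h3
    exact h3.symm
  -- the compact set outside of which `c` is locally constant
  set K : Set E := ⋃ g ∈ B, (hol g) '' K0 with hK
  have hKc : IsCompact K := hBfin.isCompact_biUnion (fun g _ => hK0c.image (hcont g))
  have hKΩ : K ⊆ Ω := by
    intro z hz
    rw [hK] at hz
    simp only [mem_iUnion] at hz
    obtain ⟨g, _, k, hk, rfl⟩ := hz
    exact hD.inv g k (hK0Ω hk)
  have hloc : ∀ z ∈ Ω \ K, ∀ᶠ z' in 𝓝 z, c z' = c z := by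
    rintro z ⟨hzΩ, hzK⟩
    obtain ⟨k, hk, hkz⟩ := hγ z hzΩ
    have hgB : γ z ∉ B := by
      intro hgB
      apply hzK
      rw [hK]
      simp only [mem_iUnion]
      exact ⟨γ z, hgB, k, hk, hkz⟩
    have hV : V0 ∈ 𝓝 (hol (γ z)⁻¹ z) := by
      have : hol (γ z)⁻¹ z = k := by
        have h6 := hinvl (γ z) k
        rwa [hkz] at h6
      rw [this]
      exact mem_interior_iff_mem_nhds.1 (hK0V0 hk)
    have hev : ∀ᶠ z' in 𝓝 z, hol (γ z)⁻¹ z' ∈ V0 :=
      (hcont (γ z)⁻¹).continuousAt.eventually hV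
    filter_upwards [hev] with z' hz'
    apply hc'
    have e1 := key (γ z) hgB _ hz'
    rw [hinvr] at e1
    rw [e1, hc]
  obtain ⟨K', hK'Ω, hK'c, ct, hct1, hct2, c0, R, hct3⟩ := h2 hdim Ω hD.op hD.cn K hKΩ hKc c hloc
  have hsub2 : K' ∪ {k0} ⊆ Ω := union_subset hK'Ω (singleton_subset_iff.2 hk0)
  have hF2 : {g : Γ | ∃ z ∈ K' ∪ {k0}, hol g z ∈ K' ∪ {k0}}.Finite :=
    hD.pd (K' ∪ {k0}) hsub2 (hK'c.union isCompact_singleton)
  set F2 : Set Γ := {g : Γ | ∃ z ∈ K' ∪ {k0}, hol g z ∈ K' ∪ {k0}} with hF2def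
  have hfin : (B ∪ F2).Finite := hBfin.union hF2
  have hmain : ∀ g : Γ, g ∉ B ∪ F2 → (ct (hol g k0) = 1 ↔ g ∈ S) := by
    intro g hg
    have hgB : g ∉ B := fun h => hg (Or.inl h)
    have hgF : g ∉ F2 := fun h => hg (Or.inr h)
    have h3 : hol g k0 ∉ K' := fun h => hgF ⟨k0, Or.inr rfl, Or.inl h⟩
    have h4 : hol g k0 ∈ Ω := hD.inv g k0 hk0
    rw [hct2 (hol g k0) ⟨h4, h3⟩]
    exact key g hgB k0 (hK0V0' hk0K)
  have hSc : ∀ s : Γ, {g | ¬ (g ∈ Sᶜ ↔ g * s ∈ Sᶜ)}.Finite := by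
    intro s
    apply (hS s).subset
    intro g hg hcon
    apply hg
    rw [mem_compl_iff, mem_compl_iff, hcon]
  by_cases h : c0 = 1
  · refine ⟨{z | ct z = 1}ᶜ, ⟨?_, ?_⟩, ?_⟩
    · rw [isBounded_iff_forall_norm_le]
      refine ⟨R, fun z hz => ?_⟩
      by_contra hcon
      apply hz
      show ct z = 1
      rw [hct3 z (not_le.1 hcon), h]
    · intro z hz
      filter_upwards [hct1 z hz] with z' hz'
      rw [mem_compl_iff, mem_compl_iff, mem_setOf_eq, mem_setOf_eq, hz']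
    · refine ta_fin hol k0 _ (B ∪ F2) Sᶜ hfin hSc hSci fun g hg => ?_
      rw [mem_compl_iff, mem_compl_iff, mem_setOf_eq, hmain g hg]
  · refine ⟨{z | ct z = 1}, ⟨?_, ?_⟩, ?_⟩
    · rw [isBounded_iff_forall_norm_le]
      refine ⟨R, fun z hz => ?_⟩
      by_contra hcon
      apply h
      rw [← hct3 z (not_le.1 hcon)]
      exact hz
    · intro z hz
      filter_upwards [hct1 z hz] with z' hz'
      rw [hz']
    · exact ta_fin hol k0 _ (B ∪ F2) S hfin hS hSi fun g hg => hmain g hg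

end Pool.Agent.H817.KE
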