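import Pool.Agent.H817.KE.Stm

set_option autoImplicit false

namespace Pool.Agent.H817.KE

open Set Filter Topology Module

section

variable {E : Type} [NormedAddCommGroup E] [NormedSpace ℝ E] [FiniteDimensional ℝ E]

theorem bd_add (T : E ≃ᵃ[ℝ] E) (z v : E) : T (z + v) = T z + L T v := by
  have h1 := T.map_vadd z v
  rw [vadd_eq_add, vadd_eq_add] at h1
  rw [add_comm z v, h1, add_comm]
  rfl

/-- the functionals which are bounded on `Ω` -/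
def bd_N (Ω : Set E) : Submodule ℝ (E →L[ℝ] ℝ) where
  carrier := {ℓ | ∃ M : ℝ, ∀ z ∈ Ω, |ℓ z| ≤ M}
  add_mem' := by
    rintro a b ⟨M, hM⟩ ⟨M', hM'⟩
    refine ⟨M + M', fun z hz => ?_⟩
    rw [add_apply]
    exact (abs_add_le _ _).trans (add_le_add (hM z hz) (hM' z hz))
  zero_mem' := ⟨0, fun z _ => by simp⟩
  smul_mem' := by
    rintro c a ⟨M, hM⟩
    refine ⟨|c| * M, fun z hz => ?_⟩
    rw [smul_apply, smul_eq_mul, abs_mul]
    exact mul_le_mul_of_nonneg_left (hM z hz) (abs_nonneg c)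

/-- the evaluations -/
noncomputable def bd_ev (Ω : Set E) (v : E) : bd_N Ω →L[ℝ] ℝ :=
  (ContinuousLinearMap.apply ℝ ℝ v).comp (bd_N Ω).subtypeL

theorem bd_unif (Ω : Set E) : ∃ C : ℝ, 0 ≤ C ∧ ∀ ℓ : E →L[ℝ] ℝ, (∃ M : ℝ, ∀ z ∈ Ω, |ℓ z| ≤ M) →
    ∀ z ∈ Ω, ∀ z' ∈ Ω, |ℓ (z - z')| ≤ C * ‖ℓ‖ := by
  have h1 : FiniteDimensional ℝ (bd_N Ω) := inferInstance
  have h2 : CompleteSpace (bd_N Ω) :=
    (Submodule.complete_of_finiteDimensional (bd_N Ω)).completeSpace_coe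
  have hB : ∀ x : bd_N Ω, ∃ C : ℝ, ∀ i : Ω × Ω, ‖bd_ev Ω ((i.1 : E) - (i.2 : E)) x‖ ≤ C := by
    rintro ⟨ℓ, M, hM⟩
    refine ⟨M + M, fun i => ?_⟩
    change ‖ℓ ((i.1 : E) - (i.2 : E))‖ ≤ M + M
    rw [map_sub, Real.norm_eq_abs]
    exact (abs_sub _ _).trans (add_le_add (hM _ i.1.2) (hM _ i.2.2))
  obtain ⟨C, hC⟩ := banach_steinhaus (E := bd_N Ω) (F := ℝ) (σ₁₂ := RingHom.id ℝ)
    (g := fun i : Ω × Ω => bd_ev Ω ((i.1 : E) - (i.2 : E))) hB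
  refine ⟨max C 0, le_max_right _ _, ?_⟩
  intro ℓ hℓ z hz z' hz'
  have h3 := ContinuousLinearMap.le_opNorm (E := bd_N Ω) (F := ℝ) (σ₁₂ := RingHom.id ℝ)
    (bd_ev Ω (z - z')) (⟨ℓ, hℓ⟩ : bd_N Ω)
  have h4 := hC (⟨z, hz⟩, ⟨z', hz'⟩)
  change ‖ℓ (z - z')‖ ≤ _ * ‖ℓ‖ at h3
  rw [Real.norm_eq_abs] at h3
  refine h3.trans (mul_le_mul_of_nonneg_right ?_ (norm_nonneg _))
  exact h4.trans (le_max_left _ _)

end

theorem t_bd : S_bd := by
  intro Γ E _ _ _ _ hol Ω hK ℓ hℓ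
  by_contra hne
  obtain ⟨C, hC0, hC⟩ := bd_unif Ω
  obtain ⟨M, hM⟩ := hℓ
  obtain ⟨K, hKΩ, hKc, hKs⟩ := hK.cc
  obtain ⟨ε, hε, hεs⟩ := hKc.exists_cthickening_subset_open hK.op hKΩ
  -- two points
  obtain ⟨u, hu⟩ : ∃ u, ℓ u ≠ 0 := by
    by_contra h
    push Not at h
    exact hne (ContinuousLinearMap.ext h)
  obtain ⟨a, ha⟩ := hK.cn.nonempty
  obtain ⟨b, hb, hab⟩ : ∃ b ∈ Ω, 0 < |ℓ a - ℓ b| := by
    have h1 : Tendsto (fun t : ℝ => a + t • u) (𝓝[≠] 0) (𝓝 (a + (0 : ℝ) • u)) := by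
      apply Tendsto.mono_left _ nhdsWithin_le_nhds
      exact (Continuous.tendsto (by fun_prop) 0)
    rw [zero_smul, add_zero] at h1
    have h2 : ∀ᶠ t : ℝ in 𝓝[≠] 0, a + t • u ∈ Ω := h1 (hK.op.mem_nhds ha)
    have h3 : ∀ᶠ t : ℝ in 𝓝[≠] 0, t ≠ 0 := self_mem_nhdsWithin
    obtain ⟨t, ht1, ht2⟩ := (h2.and h3).exists
    refine ⟨a + t • u, ht1, ?_⟩
    rw [map_add, map_smul, smul_eq_mul, abs_pos]
    intro h4
    have h5 : t * ℓ u = 0 := by linarith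
    rcases mul_eq_zero.1 h5 with h6 | h6
    · exact ht2 h6
    · exact hu h6
  -- the supremum
  have hbdd : BddAbove (ℓ '' Ω) := by
    refine ⟨M, ?_⟩
    rintro _ ⟨z, hz, rfl⟩
    exact (abs_le.1 (hM z hz)).2
  have hnon : (ℓ '' Ω).Nonempty := ⟨ℓ a, a, ha, rfl⟩
  obtain ⟨s, hs⟩ : ∃ s : ℝ, s = sSup (ℓ '' Ω) := ⟨_, rfl⟩
  obtain ⟨η, hη, hηC⟩ : ∃ η : ℝ, 0 < η ∧ C * (η / ε) < |ℓ a - ℓ b| := by
    refine ⟨ε * (|ℓ a - ℓ b| / (2 * (C + 1))), by positivity, ?_⟩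
    have h1 : C * (ε * (|ℓ a - ℓ b| / (2 * (C + 1))) / ε) = |ℓ a - ℓ b| * (C / (2 * (C + 1))) := by
      field_simp
    rw [h1]
    have h2 : C / (2 * (C + 1)) < 1 := by
      rw [div_lt_one (by linarith)]
      linarith
    calc |ℓ a - ℓ b| * (C / (2 * (C + 1))) < |ℓ a - ℓ b| * 1 := mul_lt_mul_of_pos_left h2 hab
      _ = _ := mul_one _
  obtain ⟨_, ⟨z, hz, rfl⟩, hzs⟩ := exists_lt_of_lt_csSup hnon (show s - η < sSup (ℓ '' Ω) by
    rw [← hs]; linarith)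
  obtain ⟨g, k, hk, hgk⟩ := hKs z hz
  obtain ⟨l, hl⟩ : ∃ l : E →L[ℝ] ℝ, l = ℓ.comp (L (hol g)) := ⟨_, rfl⟩
  have hlN : ∃ M : ℝ, ∀ z ∈ Ω, |l z| ≤ M := by
    refine ⟨M + |ℓ (hol g 0)|, fun x hx => ?_⟩
    have h1 := bd_add (hol g) 0 x
    rw [zero_add] at h1
    have h2 : l x = ℓ (hol g x) - ℓ (hol g 0) := by
      rw [h1, map_add, hl, ContinuousLinearMap.comp_apply]
      ring
    rw [h2]
    exact (abs_sub _ _).trans (add_le_add (hM _ (hK.inv g x hx)) le_rfl)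
  have hsmall : ∀ v : E, ‖v‖ ≤ ε → l v ≤ η := by
    intro v hv
    have h1 : k + v ∈ Ω := by
      apply hεs
      apply Metric.closedBall_subset_cthickening hk
      rw [Metric.mem_closedBall, dist_eq_norm, add_sub_cancel_left]
      exact hv
    have h2 : ℓ (hol g (k + v)) ≤ s := by
      rw [hs]
      exact le_csSup hbdd ⟨_, hK.inv g _ h1, rfl⟩
    rw [bd_add, hgk, map_add] at h2
    rw [hl, ContinuousLinearMap.comp_apply]
    linarith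
  have hnorm : ‖l‖ ≤ η / ε := by
    apply ContinuousLinearMap.opNorm_le_bound _ (by positivity)
    intro x
    rcases eq_or_ne x 0 with rfl | hx
    · simp
    have hx0 : 0 < ‖x‖ := norm_pos_iff.2 hx
    have hv : ‖(ε / ‖x‖) • x‖ ≤ ε := by
      rw [norm_smul, Real.norm_eq_abs, abs_of_pos (by positivity), div_mul_cancel₀ _ hx0.ne']
    have h1 := hsmall _ hv
    have h2 := hsmall (-((ε / ‖x‖) • x)) (by rwa [norm_neg])
    rw [map_neg, map_smul, smul_eq_mul] at h2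
    rw [map_smul, smul_eq_mul] at h1
    have h3 : |ε / ‖x‖ * l x| ≤ η := abs_le.2 ⟨by linarith, h1⟩
    rw [abs_mul, abs_of_pos (by positivity : 0 < ε / ‖x‖)] at h3
    rw [Real.norm_eq_abs]
    have h4 : |l x| = (‖x‖ / ε) * (ε / ‖x‖ * |l x|) := by field_simp
    rw [h4]
    calc (‖x‖ / ε) * (ε / ‖x‖ * |l x|) ≤ (‖x‖ / ε) * η := mul_le_mul_of_nonneg_left h3 (by positivity)
      _ = η / ε * ‖x‖ := by ring
  -- the two points again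
  have hinv : ∀ x ∈ Ω, ∃ y ∈ Ω, hol g y = x := by
    intro x hx
    refine ⟨hol g⁻¹ x, hK.inv _ x hx, ?_⟩
    have h1 : hol g * hol g⁻¹ = 1 := by rw [← map_mul, mul_inv_cancel, map_one]
    have h2 := congrArg (fun T : E ≃ᵃ[ℝ] E => T x) h1
    exact h2
  obtain ⟨a', ha', haa⟩ := hinv a ha
  obtain ⟨b', hb', hbb⟩ := hinv b hb
  have h1 : ℓ a - ℓ b = l (a' - b') := by
    have h2 := bd_add (hol g) b' (a' - b')
    rw [add_sub_cancel, haa, hbb] at h2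
    rw [h2, map_add, hl, ContinuousLinearMap.comp_apply]
    ring
  have h2 := hC l hlN a' ha' b' hb'
  rw [← h1] at h2
  have h3 := mul_le_mul_of_nonneg_left hnorm hC0
  linarith

end Pool.Agent.H817.KE
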