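import Pool.Agent.H817.KE.Stm2

set_option autoImplicit false

/-!
A contraction which maps the end into itself (helper448 for helper817)
-/

namespace Pool.Agent.H817.KE

open Set Filter Topology Module

theorem conb_L_mul {E : Type} [NormedAddCommGroup E] [NormedSpace ℝ E] [FiniteDimensional ℝ E]
    (S T : E ≃ᵃ[ℝ] E) : L (S * T) = (L S).comp (L T) := by
  ext v
  rfl

theorem conb_L_one {E : Type} [NormedAddCommGroup E] [NormedSpace ℝ E] [FiniteDimensional ℝ E] :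
    L (1 : E ≃ᵃ[ℝ] E) = ContinuousLinearMap.id ℝ E := by
  ext v
  rfl

theorem conb_norm {Γ E : Type} [Group Γ] [NormedAddCommGroup E] [NormedSpace ℝ E]
    [FiniteDimensional ℝ E] [Nontrivial E] (hol : Γ →* (E ≃ᵃ[ℝ] E)) (g : Γ) :
    1 ≤ ‖L (hol g)‖ * ‖L (hol g⁻¹)‖ := by
  have h1 : (L (hol g)).comp (L (hol g⁻¹)) = ContinuousLinearMap.id ℝ E := by
    rw [← conb_L_mul, ← map_mul, mul_inv_cancel, map_one, conb_L_one]
  have h2 := ContinuousLinearMap.opNorm_comp_le (L (hol g)) (L (hol g⁻¹))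
  rw [h1, ContinuousLinearMap.norm_id] at h2
  exact h2

theorem conb_sub {X : Type} [TopologicalSpace X] {U V : Set X} (hU : IsOpen U)
    (hV : IsPreconnected V) (h1 : (V ∩ U).Nonempty) (h2 : ∀ x ∈ V, x ∉ frontier U) : V ⊆ U := by
  by_contra hcon
  rw [Set.not_subset] at hcon
  obtain ⟨x, hx, hxU⟩ := hcon
  have h3 : ∀ y ∈ V, y ∉ U → y ∈ (closure U)ᶜ := by
    intro y hy hyU hyc
    apply h2 y hy
    rw [hU.frontier_eq]
    exact ⟨hyc, hyU⟩
  obtain ⟨y, _, hy1, hy2⟩ := hV U (closure U)ᶜ hU isClosed_closure.isOpen_compl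
    (fun y hy => (Classical.em (y ∈ U)).imp id (h3 y hy)) h1 ⟨x, hx, h3 x hx hxU⟩
  exact hy2 (subset_closure hy1)

theorem conb_univ {X : Type} [TopologicalSpace X] [ConnectedSpace X] {U : Set X} (hU : IsOpen U)
    (hne : U.Nonempty) (hF : frontier U = ∅) : U = Set.univ := by
  have h1 : Set.univ ⊆ U := by
    apply conb_sub hU isPreconnected_univ
    · obtain ⟨x, hx⟩ := hne
      exact ⟨x, trivial, hx⟩
    · intro x _ hx
      rw [hF] at hx
      exact hx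
  exact Set.eq_univ_of_univ_subset h1

theorem t_con2 (h1 : S_unif) (h2 : S_sml2) : S_con2 := by
  intro X Γ E _ _ _ _ _ _ _ _ _ dev hol H U B x0
  -- (a)
  have ha : {g : Γ | g • x0 ∈ U}.Infinite := by
    intro hfin
    obtain ⟨K, hK, hK2⟩ := H.cc
    have hF1 := h1 H U B K hK x0
    have hcomp : IsCompact (⋃ g ∈ ({g : Γ | ∃ k ∈ K, ¬ (g • k ∈ U ↔ g • x0 ∈ U)} ∪
        {g : Γ | g • x0 ∈ U}), (fun x : X => g • x) '' K) :=
      (hF1.union hfin).isCompact_biUnion (fun g _ => hK.image (H.cont g))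
    have hsub : U ⊆ ⋃ g ∈ ({g : Γ | ∃ k ∈ K, ¬ (g • k ∈ U ↔ g • x0 ∈ U)} ∪
        {g : Γ | g • x0 ∈ U}), (fun x : X => g • x) '' K := by
      intro x hx
      obtain ⟨γ, k, hk, rfl⟩ := hK2 x
      rw [Set.mem_iUnion₂]
      refine ⟨γ, ?_, k, hk, rfl⟩
      by_cases h3 : γ • x0 ∈ U
      · exact Or.inr h3
      · left
        exact ⟨k, hk, fun h4 => h3 (h4.1 hx)⟩
    exact B.nc (hcomp.of_isClosed_subset isClosed_closure (closure_minimal hsub hcomp.isClosed))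
  have hF2 := h1 H U B (frontier U) B.fr x0
  have hF3 := h2 H U B x0 (1 / 2) (by norm_num)
  -- (c)
  have hc : {g : Γ | g • x0 ∈ U ∧ g⁻¹ • x0 ∈ U}.Finite := by
    have hH := h2 H U B x0 1 one_pos
    have hH' : {g : Γ | g⁻¹ • x0 ∈ U ∧ 1 ≤ ‖L (hol g⁻¹)‖}.Finite :=
      hH.preimage (f := fun g : Γ => g⁻¹) (fun a _ b _ hab => inv_injective hab)
    refine (hH.union hH').subset ?_
    rintro g ⟨h3, h4⟩
    by_cases h5 : 1 ≤ ‖L (hol g)‖
    · exact Or.inl ⟨h3, h5⟩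
    · right
      refine ⟨h4, ?_⟩
      by_contra h6
      push Not at h5 h6
      have h7 := conb_norm hol g
      have h8 : ‖L (hol g)‖ * ‖L (hol g⁻¹)‖ ≤ ‖L (hol g)‖ * 1 :=
        mul_le_mul_of_nonneg_left h6.le (norm_nonneg _)
      linarith
  -- (d)
  have hF2' : {g : Γ | ∃ k ∈ frontier U, ¬ (g⁻¹ • k ∈ U ↔ g⁻¹ • x0 ∈ U)}.Finite :=
    hF2.preimage (f := fun g : Γ => g⁻¹) (fun a _ b _ hab => inv_injective hab)
  obtain ⟨g, hg, hgn⟩ := ((ha.sdiff (((hF2.union hF3).union hc).union hF2'))).nonempty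
  have hg0 : g • x0 ∈ U := hg
  have e1 : ∀ k ∈ frontier U, g • k ∈ U := by
    intro k hk
    by_contra h3
    exact hgn (Or.inl (Or.inl (Or.inl ⟨k, hk, fun h4 => h3 (h4.2 hg0)⟩)))
  have e2 : ‖L (hol g)‖ ≤ 1 / 2 := by
    by_contra h3
    push Not at h3
    exact hgn (Or.inl (Or.inl (Or.inr ⟨hg0, h3.le⟩)))
  have e3 : g⁻¹ • x0 ∉ U := fun h3 => hgn (Or.inl (Or.inr ⟨hg0, h3⟩))
  have e4 : ∀ k ∈ frontier U, g⁻¹ • k ∉ U := by
    intro k hk h3
    exact hgn (Or.inr ⟨k, hk, fun h4 => e3 (h4.1 h3)⟩)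
  have hFne : (frontier U).Nonempty := by
    rw [Set.nonempty_iff_ne_empty]
    intro h3
    apply e3
    rw [conb_univ B.op ⟨_, hg0⟩ h3]
    trivial
  have hsub : (fun x : X => g • x) '' U ⊆ U := by
    apply conb_sub B.op (B.cn.image _ (H.cont g).continuousOn)
    · obtain ⟨f, hf⟩ := hFne
      have h3 : g • f ∈ closure ((fun x : X => g • x) '' U) :=
        image_closure_subset_closure_image (H.cont g) ⟨f, frontier_subset_closure hf, rfl⟩
      rw [mem_closure_iff] at h3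
      obtain ⟨y, hy1, hy2⟩ := h3 U B.op (e1 f hf)
      exact ⟨y, hy2, hy1⟩
    · rintro _ ⟨u, hu, rfl⟩ h3
      apply e4 _ h3
      rw [inv_smul_smul]
      exact hu
  refine ⟨g, e2, ?_⟩
  intro n
  induction n with
  | zero =>
    rw [zero_add, pow_one]
    exact hg0
  | succ n ih =>
    rw [pow_succ', mul_smul]
    exact hsub ⟨_, ih, rfl⟩

end Pool.Agent.H817.KE
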