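import Pool.Agent.H817.KE.Stm

set_option autoImplicit false

namespace Pool.Agent.H817.KE

open Set Filter Topology Module

theorem con_lim {X : Type} [TopologicalSpace X] (U : Ultrafilter ℕ) {K : Set X} (hK : IsCompact K)
    (x : ℕ → X) (hx : ∀ᶠ n in (U : Filter ℕ), x n ∈ K) : ∃ a ∈ K, Tendsto x U (𝓝 a) := by
  obtain ⟨a, ha, h⟩ := isCompact_iff_ultrafilter_le_nhds.1 hK (U.map x) (by
    rw [le_principal_iff]
    exact hx)
  exact ⟨a, ha, h⟩

theorem con_aff {E : Type} [NormedAddCommGroup E] [NormedSpace ℝ E] (T : E ≃ᵃ[ℝ] E) (x y : E) :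
    T x = T y + T.linear (x - y) := by
  have h := T.map_vadd y (x - y)
  rw [vadd_eq_add, vadd_eq_add, sub_add_cancel] at h
  rw [h, add_comm]

/-- an injective sequence leaves every finite set -/
theorem con_leave {Γ : Type} (g : ℕ → Γ) (hg : Function.Injective g) {S : Set Γ} (hS : S.Finite) :
    ∀ᶠ n in atTop, g n ∉ S := by
  have h1 : (g ⁻¹' S).Finite := hS.preimage hg.injOn
  have h2 : ∀ᶠ n in cofinite, n ∉ g ⁻¹' S := h1.eventually_cofinite_notMem
  rw [Nat.cofinite_eq_atTop] at h2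
  exact h2

theorem con_iter {Γ E : Type} [Group Γ] [NormedAddCommGroup E] [NormedSpace ℝ E]
    (hol : Γ →* (E ≃ᵃ[ℝ] E)) (g : Γ) (B A : Set E) (hAB : A ⊆ B) (h : ∀ x ∈ B, hol g x ∈ A)
    (k0 : E) (hk : k0 ∈ B) (n : ℕ) : hol (g ^ (n + 1)) k0 ∈ A := by
  induction n with
  | zero =>
    rw [zero_add, pow_one]
    exact h k0 hk
  | succ n ih =>
    rw [pow_succ', map_mul]
    exact h _ (hAB ih)

theorem t_con (h : S_sml) : S_con := by
  intro Γ E _ _ _ _ hol Ω hK A hA k0 hk0 hinf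
  obtain ⟨hbd, hloc⟩ := hA
  obtain ⟨R0, hR0⟩ := hbd.subset_ball (0 : E)
  set R : ℝ := max R0 (‖k0‖ + 1) with hR
  have hRpos : 0 < R := lt_of_lt_of_le (by positivity) (le_max_right _ _)
  have hAR : A ⊆ Metric.ball (0 : E) R := hR0.trans (Metric.ball_subset_ball (le_max_left _ _))
  have hkR : k0 ∈ Metric.ball (0 : E) R := by
    rw [mem_ball_zero_iff]
    exact lt_of_lt_of_le (lt_add_one _) (le_max_right _ _)
  let g : ℕ → Γ := fun n => (hinf.natEmbedding _ n : Γ)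
  have hginj : Function.Injective g := fun m n hmn =>
    (hinf.natEmbedding _).injective (Subtype.ext hmn)
  have hgA : ∀ n, hol (g n) k0 ∈ A := fun n => (hinf.natEmbedding _ n).2
  let U : Ultrafilter ℕ := Ultrafilter.of atTop
  have hU : (U : Filter ℕ) ≤ atTop := Ultrafilter.of_le atTop
  have : ProperSpace E := FiniteDimensional.proper_real E
  obtain ⟨w, _, hw⟩ := con_lim U (isCompact_closedBall (0 : E) R) (fun n => hol (g n) k0)
    (Eventually.of_forall fun n => Metric.ball_subset_closedBall (hAR (hgA n)))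
  have hwΩ : w ∉ Ω := by
    intro hwΩ
    obtain ⟨K1, hc1, hi1, hs1⟩ := exists_compact_subset hK.op hwΩ
    have hfin := hK.pd (K1 ∪ {k0}) (union_subset hs1 (singleton_subset_iff.2 hk0))
      (hc1.union isCompact_singleton)
    have h1 : ∀ᶠ n in (U : Filter ℕ), hol (g n) k0 ∈ K1 := hw (mem_interior_iff_mem_nhds.1 hi1)
    have h2 := hU (con_leave g hginj hfin)
    obtain ⟨n, hn1, hn2⟩ := (h1.and h2).exists
    exact hn2 ⟨k0, Or.inr rfl, Or.inl hn1⟩
  have hwA : w ∈ A := by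
    obtain ⟨n, hn⟩ := (hw.eventually (hloc w hwΩ)).exists
    exact hn.1 (hgA n)
  have hnb : A ∈ 𝓝 w := by
    filter_upwards [hloc w hwΩ] with z hz
    exact hz.2 hwA
  obtain ⟨δ, hδ, hδA⟩ := Metric.mem_nhds_iff.1 hnb
  set ε : ℝ := min (1 / 2) (δ / (4 * R)) with hε
  have hεpos : 0 < ε := lt_min (by norm_num) (by positivity)
  have h1 := hU (con_leave g hginj (h hol Ω hK A ⟨hbd, hloc⟩ k0 hk0 ε hεpos))
  have h2 : ∀ᶠ n in (U : Filter ℕ), hol (g n) k0 ∈ Metric.ball w (δ / 2) :=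
    hw (Metric.ball_mem_nhds w (by positivity))
  obtain ⟨n, hn1, hn2⟩ := ((show ∀ᶠ n in (U : Filter ℕ), g n ∉ _ from h1).and h2).exists
  have hn3 : ‖L (hol (g n))‖ < ε := by
    by_contra hcon
    exact hn1 ⟨hgA n, not_lt.1 hcon⟩
  refine ⟨g n, (hn3.le).trans (min_le_left _ _), con_iter hol (g n) (Metric.ball (0 : E) R) A hAR
    (fun x hx => hδA ?_) k0 hkR⟩
  have e1 : hol (g n) x = hol (g n) k0 + L (hol (g n)) (x - k0) := con_aff _ _ _
  have e2 : ‖x - k0‖ ≤ 2 * R := by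
    have a1 := mem_ball_zero_iff.1 hx
    have a2 := mem_ball_zero_iff.1 hkR
    calc ‖x - k0‖ ≤ ‖x‖ + ‖k0‖ := norm_sub_le _ _
      _ ≤ 2 * R := by linarith
  have e3 : ‖L (hol (g n)) (x - k0)‖ ≤ ‖L (hol (g n))‖ * (2 * R) :=
    ((L (hol (g n))).le_opNorm _).trans (mul_le_mul_of_nonneg_left e2 (norm_nonneg _))
  have e4 : ‖L (hol (g n))‖ * (2 * R) < δ / 2 := by
    have a1 : ‖L (hol (g n))‖ < δ / (4 * R) := hn3.trans_le (min_le_right _ _)
    rw [lt_div_iff₀ (by positivity)] at a1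
    linarith
  have e5 : ‖hol (g n) k0 - w‖ < δ / 2 := by
    rw [← mem_ball_iff_norm]
    exact hn2
  rw [mem_ball_iff_norm, e1]
  calc ‖hol (g n) k0 + L (hol (g n)) (x - k0) - w‖
      = ‖(hol (g n) k0 - w) + L (hol (g n)) (x - k0)‖ := by congr 1; abel
    _ ≤ ‖hol (g n) k0 - w‖ + ‖L (hol (g n)) (x - k0)‖ := norm_add_le _ _
    _ < δ := by linarith

end Pool.Agent.H817.KE
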