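import Pool.Agent.H817.KE.Stm

set_option autoImplicit false

namespace Pool.Agent.H817.KE

open Set Filter Topology Module

theorem cyc_mul {E : Type} [NormedAddCommGroup E] [NormedSpace ℝ E] [FiniteDimensional ℝ E]
    (S T : E ≃ᵃ[ℝ] E) : L (S * T) = L S * L T := by
  ext v
  rfl

theorem cyc_one {E : Type} [NormedAddCommGroup E] [NormedSpace ℝ E] [FiniteDimensional ℝ E] :
    L (1 : E ≃ᵃ[ℝ] E) = 1 := by
  ext v
  rfl

theorem cyc_sub {E : Type} [NormedAddCommGroup E] [NormedSpace ℝ E] [FiniteDimensional ℝ E]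
    (T : E ≃ᵃ[ℝ] E) (z p : E) : T z - T p = L T (z - p) := by
  have h := (T : E →ᵃ[ℝ] E).linearMap_vsub z p
  exact h.symm

theorem cyc_pow {Γ E : Type} [Group Γ] [NormedAddCommGroup E] [NormedSpace ℝ E]
    [FiniteDimensional ℝ E] (hol : Γ →* (E ≃ᵃ[ℝ] E)) (g : Γ) (n : ℕ) :
    L (hol (g ^ n)) = L (hol g) ^ n := by
  induction n with
  | zero => rw [pow_zero, pow_zero, map_one, cyc_one]
  | succ n ih => rw [pow_succ, pow_succ, map_mul, cyc_mul, ih]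

theorem cyc_norm {Γ E : Type} [Group Γ] [NormedAddCommGroup E] [NormedSpace ℝ E]
    [FiniteDimensional ℝ E] (hol : Γ →* (E ≃ᵃ[ℝ] E)) (g : Γ) (hg : ‖L (hol g)‖ ≤ 1 / 2) (n : ℕ) :
    ‖L (hol (g ^ n))‖ ≤ (1 / 2 : ℝ) ^ n := by
  induction n with
  | zero =>
    rw [pow_zero, pow_zero, map_one, cyc_one]
    exact ContinuousLinearMap.norm_id_le
  | succ n ih =>
    rw [pow_succ, map_mul, cyc_mul, pow_succ]
    refine (norm_mul_le _ _).trans ?_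
    exact mul_le_mul ih hg (norm_nonneg _) (by positivity)

theorem cyc_tend {Γ E : Type} [Group Γ] [NormedAddCommGroup E] [NormedSpace ℝ E]
    [FiniteDimensional ℝ E] (hol : Γ →* (E ≃ᵃ[ℝ] E)) (k0 p : E) (g : Γ)
    (hfix : ∀ γ : Γ, hol γ p = p) (hg : ‖L (hol g)‖ ≤ 1 / 2) (γ : Γ) :
    Tendsto (fun n : ℕ => hol (γ * g ^ n) k0) atTop (𝓝 p) := by
  rw [tendsto_iff_norm_sub_tendsto_zero]
  have h0 : Tendsto (fun n : ℕ => ‖L (hol γ)‖ * ‖k0 - p‖ * (1 / 2 : ℝ) ^ n) atTop (𝓝 0) := by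
    have := (tendsto_pow_atTop_nhds_zero_of_lt_one (r := (1 / 2 : ℝ)) (by norm_num)
      (by norm_num)).const_mul (‖L (hol γ)‖ * ‖k0 - p‖)
    rwa [mul_zero] at this
  refine squeeze_zero (fun n => norm_nonneg _) (fun n => ?_) h0
  have h1 : hol (γ * g ^ n) k0 - p = L (hol (γ * g ^ n)) (k0 - p) := by
    rw [← cyc_sub, hfix]
  rw [h1, map_mul, cyc_mul]
  refine (ContinuousLinearMap.le_opNorm _ _).trans ?_
  have h2 : ‖L (hol γ) * L (hol (g ^ n))‖ ≤ ‖L (hol γ)‖ * (1 / 2 : ℝ) ^ n :=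
    (norm_mul_le _ _).trans (mul_le_mul_of_nonneg_left (cyc_norm hol g hg n) (norm_nonneg _))
  calc ‖L (hol γ) * L (hol (g ^ n))‖ * ‖k0 - p‖ ≤ (‖L (hol γ)‖ * (1 / 2 : ℝ) ^ n) * ‖k0 - p‖ :=
        mul_le_mul_of_nonneg_right h2 (norm_nonneg _)
    _ = ‖L (hol γ)‖ * ‖k0 - p‖ * (1 / 2 : ℝ) ^ n := by ring

theorem cyc_neg {Γ E : Type} [Group Γ] [NormedAddCommGroup E] [NormedSpace ℝ E]
    [FiniteDimensional ℝ E] [Nontrivial E] (hol : Γ →* (E ≃ᵃ[ℝ] E)) (A : Set E) (k0 : E) (M : ℝ)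
    (g : Γ) (hM : ∀ x : Γ, hol x k0 ∈ A → ‖L (hol x)‖ ≤ M) (hg : ‖L (hol g)‖ ≤ 1 / 2) (γ : Γ) :
    ∃ n : ℕ, hol (γ * (g ^ n)⁻¹) k0 ∉ A := by
  by_contra hcon
  push Not at hcon
  have h1 : ∀ n : ℕ, (1 : ℝ) ≤ (‖L (hol γ⁻¹)‖ * M) * (1 / 2 : ℝ) ^ n := by
    intro n
    have e1 : (1 : E →L[ℝ] E) = L (hol γ⁻¹) * L (hol (γ * (g ^ n)⁻¹)) * L (hol (g ^ n)) := by
      rw [← cyc_mul, ← map_mul, ← cyc_mul, ← map_mul]
      have : γ⁻¹ * (γ * (g ^ n)⁻¹) * g ^ n = 1 := by group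
      rw [this, map_one, cyc_one]
    have e2 : ‖(1 : E →L[ℝ] E)‖ = 1 := ContinuousLinearMap.norm_id
    have hA := hM _ (hcon n)
    have hM0 : 0 ≤ M := (norm_nonneg _).trans hA
    calc (1 : ℝ) = ‖(1 : E →L[ℝ] E)‖ := e2.symm
      _ = ‖L (hol γ⁻¹) * L (hol (γ * (g ^ n)⁻¹)) * L (hol (g ^ n))‖ := by rw [← e1]
      _ ≤ ‖L (hol γ⁻¹) * L (hol (γ * (g ^ n)⁻¹))‖ * ‖L (hol (g ^ n))‖ := norm_mul_le _ _
      _ ≤ (‖L (hol γ⁻¹)‖ * M) * (1 / 2 : ℝ) ^ n := by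
        refine mul_le_mul ?_ (cyc_norm hol g hg n) (norm_nonneg _) (by positivity)
        exact (norm_mul_le _ _).trans (mul_le_mul_of_nonneg_left hA (norm_nonneg _))
  have h2 : Tendsto (fun n : ℕ => (‖L (hol γ⁻¹)‖ * M) * (1 / 2 : ℝ) ^ n) atTop (𝓝 0) := by
    have := (tendsto_pow_atTop_nhds_zero_of_lt_one (r := (1 / 2 : ℝ)) (by norm_num)
      (by norm_num)).const_mul (‖L (hol γ⁻¹)‖ * M)
    rwa [mul_zero] at this
  have h3 : (1 : ℝ) ≤ 0 := ge_of_tendsto' h2 h1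
  linarith

theorem t_cyc : S_cyc := by
  intro Γ E _ _ _ _ _ hol Ω A k0 p M g hP hp hfix hM hg hn hfin
  refine ⟨{x : Γ | ¬ (hol x k0 ∈ A ↔ hol (x * g) k0 ∈ A)}, hfin g, fun γ => ?_⟩
  have hloc := hP.2 p hp
  have hpA : p ∈ A := by
    have ht := cyc_tend hol k0 p g hfix hg g
    obtain ⟨n, hn'⟩ := (ht.eventually hloc).exists
    have hmem : hol (g * g ^ n) k0 ∈ A := by
      have := hn n
      rwa [pow_succ'] at this
    exact hn'.1 hmem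
  obtain ⟨m, hm⟩ := cyc_neg hol A k0 M g hM hg γ
  classical
  have hex : ∃ k : ℕ, hol (γ * (g ^ m)⁻¹ * g ^ k) k0 ∈ A := by
    have ht := cyc_tend hol k0 p g hfix hg (γ * (g ^ m)⁻¹)
    obtain ⟨n, hn'⟩ := (ht.eventually hloc).exists
    exact ⟨n, hn'.2 hpA⟩
  have hs := Nat.find_spec hex
  have hmin : ∀ k < Nat.find hex, hol (γ * (g ^ m)⁻¹ * g ^ k) k0 ∉ A := fun k hk =>
    Nat.find_min hex hk
  obtain hz | ⟨j, hj⟩ : Nat.find hex = 0 ∨ ∃ j, Nat.find hex = j + 1 := by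
    rcases Nat.find hex with _ | j
    · exact Or.inl rfl
    · exact Or.inr ⟨j, rfl⟩
  · rw [hz, pow_zero, mul_one] at hs
    exact absurd hs hm
  · have h1 := hmin j (by omega)
    rw [hj, pow_succ, ← mul_assoc] at hs
    refine ⟨-(m : ℤ) + j, ?_⟩
    have he : γ * g ^ (-(m : ℤ) + j) = γ * (g ^ m)⁻¹ * g ^ j := by
      rw [zpow_add, zpow_neg, zpow_natCast, zpow_natCast, mul_assoc]
    rw [he]
    intro hcon
    exact h1 (hcon.2 hs)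

end Pool.Agent.H817.KE
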