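import Pool.Agent.H817.KE.Stm2

/-!
The group is virtually cyclic, second version (helper675 for helper817, after the first version by
helper227).
-/

set_option autoImplicit false

namespace Pool.Agent.H817.KE

open Set Filter Topology Module

theorem cycb_mul {E : Type} [NormedAddCommGroup E] [NormedSpace ℝ E] [FiniteDimensional ℝ E]
    (S T : E ≃ᵃ[ℝ] E) : L (S * T) = L S * L T := by
  ext v
  rfl

theorem cycb_one {E : Type} [NormedAddCommGroup E] [NormedSpace ℝ E] [FiniteDimensional ℝ E] :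
    L (1 : E ≃ᵃ[ℝ] E) = 1 := by
  ext v
  rfl

theorem cycb_norm {Γ E : Type} [Group Γ] [NormedAddCommGroup E] [NormedSpace ℝ E]
    [FiniteDimensional ℝ E] (hol : Γ →* (E ≃ᵃ[ℝ] E)) (g : Γ) (hg : ‖L (hol g)‖ ≤ 1 / 2) (n : ℕ) :
    ‖L (hol (g ^ n))‖ ≤ (1 / 2 : ℝ) ^ n := by
  induction n with
  | zero =>
    rw [pow_zero, pow_zero, map_one, cycb_one]
    exact ContinuousLinearMap.norm_id_le
  | succ n ih =>
    rw [pow_succ, map_mul, cycb_mul, pow_succ]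
    refine (norm_mul_le _ _).trans ?_
    exact mul_le_mul ih hg (norm_nonneg _) (by positivity)

theorem cycb_neg {Γ E : Type} [Group Γ] [NormedAddCommGroup E] [NormedSpace ℝ E]
    [FiniteDimensional ℝ E] [Nontrivial E] (hol : Γ →* (E ≃ᵃ[ℝ] E)) (S : Set Γ) (M : ℝ)
    (g : Γ) (hM : ∀ x ∈ S, ‖L (hol x)‖ ≤ M) (hg : ‖L (hol g)‖ ≤ 1 / 2) (γ : Γ) :
    ∃ n : ℕ, γ * (g ^ n)⁻¹ ∉ S := by
  by_contra hcon
  push Not at hcon
  have h1 : ∀ n : ℕ, (1 : ℝ) ≤ (‖L (hol γ⁻¹)‖ * M) * (1 / 2 : ℝ) ^ n := by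
    intro n
    have e1 : (1 : E →L[ℝ] E) = L (hol γ⁻¹) * L (hol (γ * (g ^ n)⁻¹)) * L (hol (g ^ n)) := by
      rw [← cycb_mul, ← map_mul, ← cycb_mul, ← map_mul]
      have : γ⁻¹ * (γ * (g ^ n)⁻¹) * g ^ n = 1 := by group
      rw [this, map_one, cycb_one]
    have e2 : ‖(1 : E →L[ℝ] E)‖ = 1 := ContinuousLinearMap.norm_id
    have hA := hM _ (hcon n)
    have hM0 : 0 ≤ M := (norm_nonneg _).trans hA
    calc (1 : ℝ) = ‖(1 : E →L[ℝ] E)‖ := e2.symm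
      _ = ‖L (hol γ⁻¹) * L (hol (γ * (g ^ n)⁻¹)) * L (hol (g ^ n))‖ := by rw [← e1]
      _ ≤ ‖L (hol γ⁻¹) * L (hol (γ * (g ^ n)⁻¹))‖ * ‖L (hol (g ^ n))‖ := norm_mul_le _ _
      _ ≤ (‖L (hol γ⁻¹)‖ * M) * (1 / 2 : ℝ) ^ n := by
        refine mul_le_mul ?_ (cycb_norm hol g hg n) (norm_nonneg _) (by positivity)
        exact (norm_mul_le _ _).trans (mul_le_mul_of_nonneg_left hA (norm_nonneg _))
  have h2 : Tendsto (fun n : ℕ => (‖L (hol γ⁻¹)‖ * M) * (1 / 2 : ℝ) ^ n) atTop (𝓝 0) := by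
    have := (tendsto_pow_atTop_nhds_zero_of_lt_one (r := (1 / 2 : ℝ)) (by norm_num)
      (by norm_num)).const_mul (‖L (hol γ⁻¹)‖ * M)
    rwa [mul_zero] at this
  have h3 : (1 : ℝ) ≤ 0 := ge_of_tendsto' h2 h1
  linarith

/-- no positive power of `g` is trivial -/
theorem cycb_ne {Γ E : Type} [Group Γ] [NormedAddCommGroup E] [NormedSpace ℝ E]
    [FiniteDimensional ℝ E] [Nontrivial E] (hol : Γ →* (E ≃ᵃ[ℝ] E)) (g : Γ)
    (hg : ‖L (hol g)‖ ≤ 1 / 2) {n : ℕ} (hn : 0 < n) : g ^ n ≠ 1 := by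
  intro h
  have h1 := cycb_norm hol g hg n
  rw [h, map_one, cycb_one] at h1
  have e2 : ‖(1 : E →L[ℝ] E)‖ = 1 := ContinuousLinearMap.norm_id
  rw [e2] at h1
  have h2 : (1 / 2 : ℝ) ^ n < 1 := pow_lt_one₀ (by norm_num) (by norm_num) hn.ne'
  linarith

theorem cycb_inj {Γ E : Type} [Group Γ] [NormedAddCommGroup E] [NormedSpace ℝ E]
    [FiniteDimensional ℝ E] [Nontrivial E] (hol : Γ →* (E ≃ᵃ[ℝ] E)) (g : Γ)
    (hg : ‖L (hol g)‖ ≤ 1 / 2) : Function.Injective fun n : ℕ => g ^ n := by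
  have key : ∀ a b : ℕ, a < b → g ^ a ≠ g ^ b := by
    intro a b hab h
    obtain ⟨c, rfl⟩ := Nat.exists_eq_add_of_lt hab
    refine cycb_ne hol g hg (n := c + 1) (Nat.succ_pos c) ?_
    have h1 : g ^ a * g ^ (c + 1) = g ^ a * 1 := by
      rw [← pow_add, mul_one, ← add_assoc]
      exact h.symm
    exact mul_left_cancel h1
  intro a b h
  rcases lt_trichotomy a b with h1 | h1 | h1
  · exact absurd h (key a b h1)
  · exact h1
  · exact absurd h.symm (key b a h1)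

theorem t_cyc2 (h : S_pig) : S_cyc2 := by
  intro Γ E _ _ _ _ _ hol S M g hM hg hn hfin
  refine ⟨{x : Γ | ¬ (x ∈ S ↔ x * g ∈ S)}, hfin g, fun γ => ?_⟩
  obtain ⟨m, l, hm, hl, he⟩ := h hol S M g hM hg hn hfin γ
  obtain ⟨n, hn'⟩ := cycb_neg hol S M g hM hg γ
  -- some element to the right is in `S`
  have hpos : ∃ k : ℕ, γ * g ^ k ∈ S := by
    have hinj : Function.Injective fun k : ℕ => g ^ (m * (k + 1)) := by
      intro a b hab
      have h1 := cycb_inj hol g hg hab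
      have h2 : a + 1 = b + 1 := Nat.eq_of_mul_eq_mul_left hm h1
      omega
    have hinf : (Set.range fun k : ℕ => g ^ (m * (k + 1))).Infinite :=
      Set.infinite_range_of_injective hinj
    obtain ⟨x, ⟨k, rfl⟩, hx⟩ := hinf.exists_notMem_finite (hfin γ)
    refine ⟨l * (k + 1), ?_⟩
    have h1 : g ^ (m * (k + 1)) ∈ S := by
      obtain ⟨c, hc⟩ : ∃ c, m * (k + 1) = c + 1 :=
        Nat.exists_eq_succ_of_ne_zero (Nat.mul_pos hm (Nat.succ_pos k)).ne'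
      rw [hc]
      exact hn c
    have h2 : g ^ (m * (k + 1)) * γ ∈ S := by
      have h3 : ¬ ¬ (g ^ (m * (k + 1)) ∈ S ↔ g ^ (m * (k + 1)) * γ ∈ S) := hx
      exact (not_not.1 h3).1 h1
    have h3 : g ^ (m * (k + 1)) * γ = γ * g ^ (l * (k + 1)) := by
      rw [pow_mul, he, conj_pow, ← pow_mul, inv_mul_cancel_right]
    rwa [h3] at h2
  obtain ⟨k0, hk0⟩ := hpos
  classical
  have hex : ∃ k : ℕ, γ * (g ^ n)⁻¹ * g ^ k ∈ S := by
    refine ⟨n + k0, ?_⟩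
    have e : γ * (g ^ n)⁻¹ * g ^ (n + k0) = γ * g ^ k0 := by
      rw [pow_add]
      group
    rwa [e]
  have hs := Nat.find_spec hex
  have hmin : ∀ k < Nat.find hex, γ * (g ^ n)⁻¹ * g ^ k ∉ S := fun k hk => Nat.find_min hex hk
  obtain hz | ⟨j, hj⟩ : Nat.find hex = 0 ∨ ∃ j, Nat.find hex = j + 1 := by
    rcases Nat.find hex with _ | j
    · exact Or.inl rfl
    · exact Or.inr ⟨j, rfl⟩
  · rw [hz, pow_zero, mul_one] at hs
    exact absurd hs hn'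
  · have h1 := hmin j (by omega)
    rw [hj, pow_succ, ← mul_assoc] at hs
    refine ⟨-(n : ℤ) + j, ?_⟩
    have he' : γ * g ^ (-(n : ℤ) + j) = γ * (g ^ n)⁻¹ * g ^ j := by
      rw [zpow_add, zpow_neg, zpow_natCast, zpow_natCast, mul_assoc]
    rw [he']
    intro hcon
    exact h1 (hcon.2 hs)

end Pool.Agent.H817.KE
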