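import Pool.Agent.H817.KE.Stm

/-!
# A common fixed point
-/

set_option autoImplicit false

namespace Pool.Agent.H817.KE

open Set Filter Topology Module

section

variable {Γ E : Type} [Group Γ] [NormedAddCommGroup E] [NormedSpace ℝ E] [FiniteDimensional ℝ E]

omit [FiniteDimensional ℝ E] in
theorem fix_mul_apply (hol : Γ →* (E ≃ᵃ[ℝ] E)) (x y : Γ) (z : E) :
    hol (x * y) z = hol x (hol y z) := by
  rw [map_mul]
  rfl

omit [FiniteDimensional ℝ E] in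
theorem fix_one_apply (hol : Γ →* (E ≃ᵃ[ℝ] E)) (z : E) : hol 1 z = z := by
  rw [map_one]
  rfl

theorem fix_L_mul (hol : Γ →* (E ≃ᵃ[ℝ] E)) (x y : Γ) :
    L (hol (x * y)) = L (hol x) * L (hol y) := by
  rw [map_mul]
  rfl

theorem fix_L_one (hol : Γ →* (E ≃ᵃ[ℝ] E)) : L (hol 1) = (1 : E →L[ℝ] E) := by
  rw [map_one]
  rfl

theorem fix_L_pow (hol : Γ →* (E ≃ᵃ[ℝ] E)) (x : Γ) (n : ℕ) :
    L (hol (x ^ n)) = L (hol x) ^ n := by
  induction n with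
  | zero => rw [pow_zero, pow_zero, fix_L_one]
  | succ n ih => rw [pow_succ, pow_succ, fix_L_mul, ih]

theorem fix_sub (T : E ≃ᵃ[ℝ] E) (x y : E) : T x - T y = L T (x - y) := by
  have h : (T : E →ᵃ[ℝ] E).linear (x -ᵥ y) = (T : E →ᵃ[ℝ] E) x -ᵥ (T : E →ᵃ[ℝ] E) y :=
    (T : E →ᵃ[ℝ] E).linearMap_vsub x y
  exact h.symm

theorem fix_pow (hol : Γ →* (E ≃ᵃ[ℝ] E)) (x : Γ) (q : E) (h : hol x q = q) (n : ℕ) :
    hol (x ^ n) q = q := by
  induction n with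
  | zero => rw [pow_zero, fix_one_apply]
  | succ n ih => rw [pow_succ, fix_mul_apply, h, ih]

theorem fix_inv (hol : Γ →* (E ≃ᵃ[ℝ] E)) (x : Γ) (q : E) (h : hol x q = q) :
    hol x⁻¹ q = q := by
  have h1 : hol x⁻¹ (hol x q) = q := by
    rw [← fix_mul_apply, inv_mul_cancel, fix_one_apply]
  rwa [h] at h1

theorem fix_contr (T : E ≃ᵃ[ℝ] E) (hT : ‖L T‖ ≤ 1 / 2) : ∃ p : E, T p = p := by
  have : CompleteSpace E := FiniteDimensional.complete ℝ E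
  have hc : ContractingWith (1 / 2) (fun x => T x) := by
    refine ⟨?_, LipschitzWith.of_dist_le_mul fun x y => ?_⟩
    · rw [← NNReal.coe_lt_coe]
      norm_num
    · rw [dist_eq_norm, dist_eq_norm, fix_sub]
      refine ((L T).le_opNorm _).trans ?_
      refine mul_le_mul_of_nonneg_right ?_ (norm_nonneg _)
      simpa using hT
  exact ⟨hc.fixedPoint, hc.fixedPoint_isFixedPt⟩

theorem fix_uniq (T : E ≃ᵃ[ℝ] E) (hT : ‖L T‖ ≤ 1 / 2) (p q : E) (hp : T p = p) (hq : T q = q) :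
    q = p := by
  have h1 : q - p = L T (q - p) := by
    rw [← fix_sub, hp, hq]
  have h2 : ‖q - p‖ ≤ 1 / 2 * ‖q - p‖ := by
    conv_lhs => rw [h1]
    exact ((L T).le_opNorm _).trans (mul_le_mul_of_nonneg_right hT (norm_nonneg _))
  have h3 : ‖q - p‖ = 0 := by
    have := norm_nonneg (q - p)
    linarith
  exact sub_eq_zero.mp (norm_eq_zero.mp h3)

/-- the powers leave the set -/
theorem fix_leave [Nontrivial E] (hol : Γ →* (E ≃ᵃ[ℝ] E)) (A : Set E) (k0 : E) (M : ℝ) (g γ : Γ)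
    (hM : ∀ x : Γ, hol x k0 ∈ A → ‖L (hol x)‖ ≤ M) (hg : ‖L (hol g)‖ ≤ 1 / 2) (u : Γ) :
    ∃ j : ℕ, hol (u * (γ * g * γ⁻¹)⁻¹ ^ j) k0 ∉ A := by
  by_contra hcon
  push Not at hcon
  have hb : ∀ j : ℕ, 1 ≤ (‖L (hol γ)‖ * ‖L (hol γ⁻¹)‖ * (‖L (hol u⁻¹)‖ * M)) * (1 / 2) ^ j := by
    intro j
    have e0 : (γ * g * γ⁻¹) ^ j = γ * g ^ j * γ⁻¹ := conj_pow
    have e1 : (γ * g ^ j * γ⁻¹) * (u⁻¹ * (u * (γ * g * γ⁻¹)⁻¹ ^ j)) = 1 := by
      rw [inv_mul_cancel_left, inv_pow, e0, mul_inv_cancel]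
    have e2 : L (hol (γ * g ^ j * γ⁻¹)) * (L (hol u⁻¹) * L (hol (u * (γ * g * γ⁻¹)⁻¹ ^ j))) = 1 := by
      rw [← fix_L_mul, ← fix_L_mul, e1, fix_L_one]
    have e3 : ‖L (hol (γ * g ^ j * γ⁻¹))‖ ≤ ‖L (hol γ)‖ * (1 / 2) ^ j * ‖L (hol γ⁻¹)‖ := by
      rw [fix_L_mul, fix_L_mul, fix_L_pow]
      refine (norm_mul_le _ _).trans (mul_le_mul_of_nonneg_right ?_ (norm_nonneg _))
      refine (norm_mul_le _ _).trans (mul_le_mul_of_nonneg_left ?_ (norm_nonneg _))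
      exact (norm_pow_le _ _).trans (pow_le_pow_left₀ (norm_nonneg _) hg j)
    have e4 : ‖L (hol u⁻¹) * L (hol (u * (γ * g * γ⁻¹)⁻¹ ^ j))‖ ≤ ‖L (hol u⁻¹)‖ * M :=
      (norm_mul_le _ _).trans (mul_le_mul_of_nonneg_left (hM _ (hcon j)) (norm_nonneg _))
    have e5 : (1 : ℝ) = ‖(1 : E →L[ℝ] E)‖ := norm_one.symm
    have e6 := norm_mul_le (L (hol (γ * g ^ j * γ⁻¹)))
      (L (hol u⁻¹) * L (hol (u * (γ * g * γ⁻¹)⁻¹ ^ j)))
    rw [e2, ← e5] at e6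
    refine e6.trans ?_
    refine (mul_le_mul e3 e4 (norm_nonneg _) (by positivity)).trans (le_of_eq ?_)
    ring
  have ht : Tendsto (fun j : ℕ => (‖L (hol γ)‖ * ‖L (hol γ⁻¹)‖ * (‖L (hol u⁻¹)‖ * M)) *
      (1 / 2 : ℝ) ^ j) atTop (𝓝 ((‖L (hol γ)‖ * ‖L (hol γ⁻¹)‖ * (‖L (hol u⁻¹)‖ * M)) * 0)) :=
    (tendsto_pow_atTop_nhds_zero_of_lt_one (by norm_num) (by norm_num)).const_mul _
  have h0 := ge_of_tendsto' ht hb
  rw [mul_zero] at h0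
  exact absurd h0 (by norm_num)

end

/-- **S_fix** -/
theorem t_fix : S_fix := by
  intro Γ E _ _ _ _ _ hol A k0 M g hM hg hA hF
  obtain ⟨p, hp⟩ := fix_contr (hol g) hg
  refine ⟨p, fun γ => ?_⟩
  have hex : ∀ a : ℕ, ∃ j : ℕ, g ^ (a + 1) * (γ * g * γ⁻¹)⁻¹ ^ j ∈
      {x : Γ | ¬ (hol x k0 ∈ A ↔ hol (x * (γ * g * γ⁻¹)⁻¹) k0 ∈ A)} := by
    intro a
    have hl := fix_leave hol A k0 M g γ hM hg (g ^ (a + 1))
    classical
    have h0 : Nat.find hl ≠ 0 := by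
      intro h0
      have h1 := Nat.find_spec hl
      rw [h0, pow_zero, mul_one] at h1
      exact h1 (hA a)
    obtain ⟨j, hj⟩ := Nat.exists_eq_succ_of_ne_zero h0
    have h2 : hol (g ^ (a + 1) * (γ * g * γ⁻¹)⁻¹ ^ j) k0 ∈ A := by
      by_contra hc
      have := Nat.find_min' hl hc
      omega
    have h3 : hol (g ^ (a + 1) * (γ * g * γ⁻¹)⁻¹ ^ (j + 1)) k0 ∉ A := by
      have := Nat.find_spec hl
      rw [hj] at this
      exact this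
    refine ⟨j, ?_⟩
    intro hiff
    apply h3
    rw [pow_succ (γ * g * γ⁻¹)⁻¹ j, ← mul_assoc]
    exact hiff.mp h2
  choose j hj using hex
  have : Finite ↑{x : Γ | ¬ (hol x k0 ∈ A ↔ hol (x * (γ * g * γ⁻¹)⁻¹) k0 ∈ A)} :=
    (hF ((γ * g * γ⁻¹)⁻¹)).to_subtype
  obtain ⟨a, a', hne, heq⟩ := Finite.exists_ne_map_eq_of_infinite
    (fun a : ℕ => (⟨_, hj a⟩ : ↑{x : Γ | ¬ (hol x k0 ∈ A ↔ hol (x * (γ * g * γ⁻¹)⁻¹) k0 ∈ A)}))
  have heq' : g ^ (a + 1) * (γ * g * γ⁻¹)⁻¹ ^ (j a) = g ^ (a' + 1) * (γ * g * γ⁻¹)⁻¹ ^ (j a') :=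
    congrArg Subtype.val heq
  -- the point
  have hq : hol (γ * g * γ⁻¹) (hol γ p) = hol γ p := by
    rw [← fix_mul_apply, inv_mul_cancel_right, fix_mul_apply, hp]
  have hq' : ∀ n : ℕ, hol ((γ * g * γ⁻¹)⁻¹ ^ n) (hol γ p) = hol γ p :=
    fun n => fix_pow hol _ _ (fix_inv hol _ _ hq) n
  have hfin : ∀ b c n m : ℕ, b < c →
      g ^ (b + 1) * (γ * g * γ⁻¹)⁻¹ ^ n = g ^ (c + 1) * (γ * g * γ⁻¹)⁻¹ ^ m → hol γ p = p := by
    intro b c n m hbc he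
    have h1 : hol (g ^ (b + 1)) (hol γ p) = hol (g ^ (c + 1)) (hol γ p) := by
      have := congrArg (fun x => hol x (hol γ p)) he
      simp only [fix_mul_apply, hq'] at this
      simpa only [fix_mul_apply] using this
    obtain ⟨d, rfl⟩ := Nat.exists_eq_add_of_lt hbc
    have h2 : g ^ (b + d + 1 + 1) = g ^ (b + 1) * g ^ (d + 1) := by
      rw [← pow_add]
      congr 1
      omega
    rw [h2, fix_mul_apply] at h1
    have h3 : hol γ p = hol (g ^ (d + 1)) (hol γ p) := (hol (g ^ (b + 1))).injective h1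
    have h4 : ‖L (hol (g ^ (d + 1)))‖ ≤ 1 / 2 := by
      rw [fix_L_pow]
      refine (norm_pow_le _ _).trans ?_
      refine (pow_le_pow_left₀ (norm_nonneg _) hg _).trans ?_
      rw [pow_succ]
      have : (1 / 2 : ℝ) ^ d ≤ 1 := pow_le_one₀ (by norm_num) (by norm_num)
      linarith
    exact fix_uniq _ h4 p (hol γ p) (fix_pow hol g p hp _) h3.symm
  rcases lt_or_gt_of_ne hne with h | h
  · exact hfin a a' _ _ h heq'
  · exact hfin a' a _ _ h heq'.symm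

end Pool.Agent.H817.KE
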