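import Pool.Agent.H817.KE.Stm

set_option autoImplicit false

namespace Pool.Agent.H817.KE

open Set Filter Topology Module

theorem hopf_mul {Γ E : Type} [Group Γ] [NormedAddCommGroup E] [NormedSpace ℝ E]
    (hol : Γ →* (E ≃ᵃ[ℝ] E)) (x y : Γ) (z : E) : hol (x * y) z = hol x (hol y z) := by
  rw [map_mul]
  rfl

theorem hopf_one {Γ E : Type} [Group Γ] [NormedAddCommGroup E] [NormedSpace ℝ E]
    (hol : Γ →* (E ≃ᵃ[ℝ] E)) (z : E) : hol 1 z = z := by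
  rw [map_one]
  rfl

theorem hopf_cont {E : Type} [NormedAddCommGroup E] [NormedSpace ℝ E] [FiniteDimensional ℝ E]
    (T : E ≃ᵃ[ℝ] E) : Continuous T :=
  AffineMap.continuous_of_finiteDimensional (T : E →ᵃ[ℝ] E)

theorem hopf_contr {E : Type} [NormedAddCommGroup E] [NormedSpace ℝ E] [FiniteDimensional ℝ E]
    (T : E ≃ᵃ[ℝ] E) (p z : E) (hp : T p = p) (hL : ‖L T‖ ≤ 1 / 2) : 2 * ‖T z - p‖ ≤ ‖z - p‖ := by
  have h1 : T z - p = L T (z - p) := by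
    have h2 := (T : E →ᵃ[ℝ] E).linearMap_vsub z p
    have h3 : (T : E →ᵃ[ℝ] E) z -ᵥ (T : E →ᵃ[ℝ] E) p = T z - T p := rfl
    rw [h3, hp] at h2
    rw [← h2]
    rfl
  have h4 : ‖L T (z - p)‖ ≤ ‖L T‖ * ‖z - p‖ := (L T).le_opNorm _
  rw [h1]
  nlinarith [norm_nonneg (z - p)]

theorem hopf_pow {Γ E : Type} [Group Γ] [NormedAddCommGroup E] [NormedSpace ℝ E]
    [FiniteDimensional ℝ E] (hol : Γ →* (E ≃ᵃ[ℝ] E)) (p : E) (g : Γ) (hp : hol g p = p)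
    (hL : ‖L (hol g)‖ ≤ 1 / 2) (n : ℕ) (z : E) : 2 ^ n * ‖hol (g ^ n) z - p‖ ≤ ‖z - p‖ := by
  induction n with
  | zero => rw [pow_zero, pow_zero, hopf_one, one_mul]
  | succ n ih =>
    have h1 := hopf_contr (hol g) p (hol (g ^ n) z) hp hL
    rw [← hopf_mul, ← pow_succ'] at h1
    have h2 : (0 : ℝ) < 2 ^ n := by positivity
    calc (2 : ℝ) ^ (n + 1) * ‖hol (g ^ (n + 1)) z - p‖ = 2 ^ n * (2 * ‖hol (g ^ (n + 1)) z - p‖) := by ring
      _ ≤ 2 ^ n * ‖hol (g ^ n) z - p‖ := by gcongr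
      _ ≤ _ := ih

theorem hopf_neg {Γ E : Type} [Group Γ] [NormedAddCommGroup E] [NormedSpace ℝ E]
    [FiniteDimensional ℝ E] (hol : Γ →* (E ≃ᵃ[ℝ] E)) (p : E) (g : Γ) (hp : hol g p = p)
    (hL : ‖L (hol g)‖ ≤ 1 / 2) (n : ℕ) (z : E) :
    2 ^ n * ‖z - p‖ ≤ ‖hol (g ^ (-(n : ℤ))) z - p‖ := by
  have h1 := hopf_pow hol p g hp hL n (hol (g ^ (-(n : ℤ))) z)
  rw [← hopf_mul, ← zpow_natCast g n, ← zpow_add, add_neg_cancel, zpow_zero, hopf_one] at h1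
  exact h1

theorem t_hopf : S_hopf := by
  intro Γ E _ _ _ _ hdim hol Ω hΩ p g Φ hpΩ hp hL hΦ hcov
  obtain ⟨K, hKΩ, hK, hKc⟩ := hΩ.cc
  obtain ⟨K1, hK1Ω, hK1, hK1c⟩ : ∃ K1 ⊆ Ω, IsCompact K1 ∧ ∀ z ∈ Ω, ∃ a : ℤ, ∃ k ∈ K1,
      hol (g ^ a) k = z := by
    refine ⟨⋃ φ ∈ Φ, hol φ⁻¹ '' K, ?_, ?_, ?_⟩
    · intro z hz
      simp only [Set.mem_iUnion] at hz
      obtain ⟨φ, _, k, hk, rfl⟩ := hz
      exact hΩ.inv _ _ (hKΩ hk)
    · exact hΦ.isCompact_biUnion fun φ _ => hK.image (hopf_cont _)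
    · intro z hz
      obtain ⟨γ, k, hk, rfl⟩ := hKc z hz
      obtain ⟨a, ha⟩ := hcov γ⁻¹
      refine ⟨a, hol (γ⁻¹ * g ^ a)⁻¹ k, ?_, ?_⟩
      · simp only [Set.mem_iUnion]
        exact ⟨_, ha, k, hk, rfl⟩
      · rw [← hopf_mul]
        congr 2
        group
  -- bounds on K1
  obtain ⟨M, hM⟩ : ∃ M : ℝ, ∀ k ∈ K1, ‖k - p‖ ≤ M := by
    obtain ⟨M, hM⟩ := (hK1.image (by fun_prop : Continuous fun k : E => ‖k - p‖)).bddAbove
    exact ⟨M, fun k hk => hM ⟨k, hk, rfl⟩⟩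
  obtain ⟨m, hm0, hm⟩ : ∃ m : ℝ, 0 < m ∧ ∀ k ∈ K1, m ≤ ‖k - p‖ := by
    rcases K1.eq_empty_or_nonempty with he | hne
    · exact ⟨1, one_pos, fun k hk => by rw [he] at hk; exact absurd hk (Set.notMem_empty _)⟩
    · obtain ⟨k, hk, hmin⟩ := hK1.exists_isMinOn hne
        (by fun_prop : Continuous fun k : E => ‖k - p‖).continuousOn
      refine ⟨‖k - p‖, ?_, fun k' hk' => hmin hk'⟩
      rw [norm_pos_iff, sub_ne_zero]
      rintro rfl
      exact hpΩ (hK1Ω hk)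
  -- relatively closed
  have hcl : closure Ω ∩ {p}ᶜ ⊆ Ω := by
    rintro z ⟨hz, hzp⟩
    have hzp' : z ≠ p := hzp
    have hD : 0 < ‖z - p‖ := by rwa [norm_pos_iff, sub_ne_zero]
    obtain ⟨δ, hδ, hδ2⟩ : ∃ δ : ℝ, 0 < δ ∧ ‖z - p‖ = 2 * δ := ⟨‖z - p‖ / 2, by positivity, by ring⟩
    obtain ⟨N, hN⟩ := pow_unbounded_of_one_lt (max (M / δ) (3 * δ / m)) (one_lt_two : (1 : ℝ) < 2)
    have hN1 : M / δ < 2 ^ N := lt_of_le_of_lt (le_max_left _ _) hN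
    have hN2 : 3 * δ / m < 2 ^ N := lt_of_le_of_lt (le_max_right _ _) hN
    rw [div_lt_iff₀ hδ] at hN1
    rw [div_lt_iff₀ hm0] at hN2
    have hC : IsCompact (⋃ a ∈ Set.Icc (-(N : ℤ)) N, hol (g ^ a) '' K1) :=
      (Set.finite_Icc _ _).isCompact_biUnion fun a _ => hK1.image (hopf_cont _)
    have hCΩ : (⋃ a ∈ Set.Icc (-(N : ℤ)) N, hol (g ^ a) '' K1) ⊆ Ω := by
      intro w hw
      simp only [Set.mem_iUnion] at hw
      obtain ⟨a, _, k, hk, rfl⟩ := hw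
      exact hΩ.inv _ _ (hK1Ω hk)
    have hsub : Ω ∩ Metric.ball z δ ⊆ ⋃ a ∈ Set.Icc (-(N : ℤ)) N, hol (g ^ a) '' K1 := by
      rintro w ⟨hw, hwb⟩
      obtain ⟨a, k, hk, rfl⟩ := hK1c w hw
      rw [Metric.mem_ball, dist_eq_norm] at hwb
      have h1 : ‖z - p‖ ≤ ‖hol (g ^ a) k - p‖ + ‖hol (g ^ a) k - z‖ := by
        have : z - p = (hol (g ^ a) k - p) - (hol (g ^ a) k - z) := by abel
        rw [this]
        exact norm_sub_le _ _
      have h2 : ‖hol (g ^ a) k - p‖ ≤ ‖z - p‖ + ‖hol (g ^ a) k - z‖ := by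
        have : hol (g ^ a) k - p = (z - p) + (hol (g ^ a) k - z) := by abel
        rw [this]
        exact norm_add_le _ _
      have h3 := hM k hk
      have h4 := hm k hk
      simp only [Set.mem_iUnion]
      refine ⟨a, ?_, k, hk, rfl⟩
      have key : ∀ n : ℕ, N ≤ n → (2 : ℝ) ^ N ≤ 2 ^ n := fun n hn => pow_le_pow_right₀ (by norm_num) hn
      rw [Set.mem_Icc]
      constructor
      · by_contra hlt
        push Not at hlt
        obtain ⟨n, hn⟩ : ∃ n : ℕ, a = -(n : ℤ) := ⟨a.natAbs, by omega⟩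
        have hn' : N ≤ n := by omega
        have h5 := hopf_neg hol p g hp hL n k
        rw [← hn] at h5
        have h6 := key n hn'
        have h7 : (2 : ℝ) ^ N * m ≤ 2 ^ n * ‖k - p‖ := by gcongr
        linarith
      · by_contra hlt
        push Not at hlt
        obtain ⟨n, hn⟩ : ∃ n : ℕ, a = (n : ℤ) := ⟨a.natAbs, by omega⟩
        have hn' : N ≤ n := by omega
        have h5 := hopf_pow hol p g hp hL n k
        rw [← zpow_natCast g n, ← hn] at h5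
        have h6 := key n hn'
        have h8 : δ < ‖hol (g ^ a) k - p‖ := by linarith
        have h7 : (2 : ℝ) ^ N * δ ≤ 2 ^ n * ‖hol (g ^ a) k - p‖ := by gcongr
        linarith
    have hz2 : z ∈ closure (Ω ∩ Metric.ball z δ) := by
      rw [mem_closure_iff_nhds] at hz ⊢
      intro t ht
      obtain ⟨w, hw1, hw2⟩ := hz (t ∩ Metric.ball z δ) (inter_mem ht (Metric.ball_mem_nhds z hδ))
      exact ⟨w, hw1.1, hw2, hw1.2⟩
    exact hCΩ (closure_minimal hsub hC.isClosed hz2)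
  have hrank : 1 < Module.rank ℝ E := by
    have := Module.lt_rank_of_lt_finrank (R := ℝ) (M := E) (n := 1) (by omega)
    exact_mod_cast this
  have hconn : IsPreconnected ({p}ᶜ : Set E) :=
    (isConnected_compl_singleton_of_one_lt_rank hrank p).isPreconnected
  have hsubp : Ω ⊆ {p}ᶜ := fun z hz hzp => hpΩ (by rw [← (hzp : z = p)]; exact hz)
  refine Set.Subset.antisymm hsubp ?_
  refine hconn.subset_of_closure_inter_subset hΩ.op ?_ hcl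
  obtain ⟨z, hz⟩ := hΩ.cn.nonempty
  exact ⟨z, hsubp hz, hz⟩

end Pool.Agent.H817.KE
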