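import Pool.Agent.H817.KE.Stm

/-! Assembly: quotients of domains with several ends are Hopf manifolds. -/

set_option autoImplicit false

namespace Pool.Agent.H817.KE

open Set Filter Topology Module

theorem main (hA : S_A) (hnrm : S_nrm) (hcon : S_con) (hfix : S_fix) (hcyc : S_cyc)
    (hhopf : S_hopf) {Γ E : Type} [Group Γ] [NormedAddCommGroup E] [NormedSpace ℝ E]
    [FiniteDimensional ℝ E] (hn : 2 ≤ finrank ℝ E) (hol : Γ →* (E ≃ᵃ[ℝ] E)) (Ω : Set E)
    (hK : Kl hol Ω) (S : Set Γ) (hS : ∀ s : Γ, {g | ¬ (g ∈ S ↔ g * s ∈ S)}.Finite)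
    (hS1 : S.Infinite) (hS2 : Sᶜ.Infinite) :
    ∃ p : E, Ω = {p}ᶜ ∧ (∀ γ : Γ, hol γ p = p) ∧
      ∃ g : Γ, ‖L (hol g)‖ ≤ 1 / 2 ∧ (Subgroup.zpowers g).FiniteIndex := by
  have hnt : Nontrivial E := Module.nontrivial_of_finrank_pos (R := ℝ) (by omega)
  obtain ⟨k0, hk0⟩ := hK.cn.nonempty
  obtain ⟨A, hP, hinf, halm⟩ := hA hn hol Ω hK S hS hS1 hS2 k0 hk0
  obtain ⟨M, hM⟩ := hnrm hol Ω hK A hP k0 hk0
  obtain ⟨g, hg, hgA⟩ := hcon hol Ω hK A hP k0 hk0 hinf
  obtain ⟨p, hp⟩ := hfix hol A k0 M g hM hg hgA halm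
  have hLmul : ∀ a b : Γ, L (hol (a * b)) = (L (hol a)).comp (L (hol b)) := by
    intro a b
    rw [map_mul]
    rfl
  have hLone : L (hol (1 : Γ)) = ContinuousLinearMap.id ℝ E := by
    rw [map_one]
    rfl
  have hLpow : ∀ n : ℕ, ‖L (hol (g ^ n))‖ ≤ (1 / 2) ^ n := by
    intro n
    induction n with
    | zero =>
      rw [pow_zero, pow_zero, hLone]
      exact ContinuousLinearMap.norm_id_le
    | succ n ih =>
      rw [pow_succ, hLmul, pow_succ]
      exact (ContinuousLinearMap.opNorm_comp_le _ _).trans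
        (mul_le_mul ih hg (norm_nonneg _) (by positivity))
  -- the powers of `g` are different
  have hinj : Function.Injective fun n : ℕ => g ^ n := by
    have h1 : ∀ n : ℕ, 0 < n → g ^ n ≠ 1 := by
      intro n hn0 h
      have h2 := hLpow n
      rw [h, hLone, ContinuousLinearMap.norm_id] at h2
      have h3 : ((1 : ℝ) / 2) ^ n < 1 := pow_lt_one₀ (by norm_num) (by norm_num) hn0.ne'
      linarith
    have h4 : ∀ m n : ℕ, m < n → g ^ m ≠ g ^ n := by
      intro m n hmn h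
      apply h1 (n - m) (by omega)
      have h5 : g ^ n = g ^ m * g ^ (n - m) := by rw [← pow_add]; congr 1; omega
      rw [h5] at h
      exact (mul_left_cancel (a := g ^ m) (by rw [mul_one]; exact h)).symm
    intro m n hmn
    by_contra hne
    rcases lt_or_gt_of_ne hne with h | h
    · exact h4 m n h hmn
    · exact h4 n m h hmn.symm
  have hpΩ : p ∉ Ω := by
    intro hpΩ
    have h1 := hK.pd {p} (singleton_subset_iff.2 hpΩ) isCompact_singleton
    refine Set.infinite_range_of_injective hinj (h1.subset ?_)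
    rintro _ ⟨n, rfl⟩
    exact ⟨p, rfl, hp _⟩
  obtain ⟨Φ, hΦ, hcov⟩ := hcyc hol Ω A k0 p M g hP hpΩ hp hM hg hgA halm
  refine ⟨p, hhopf hn hol Ω hK p g Φ hpΩ (hp g) hg hΦ hcov, hp, g, hg, ?_⟩
  -- finite index
  have hfin : Finite (Γ ⧸ Subgroup.zpowers g) := by
    have hsurj : ((fun γ : Γ => (γ : Γ ⧸ Subgroup.zpowers g)) '' Φ) = univ := by
      refine eq_univ_of_forall fun q => ?_
      obtain ⟨γ, rfl⟩ := QuotientGroup.mk_surjective q
      obtain ⟨a, ha⟩ := hcov γ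
      refine ⟨γ * g ^ a, ha, ?_⟩
      rw [QuotientGroup.eq]
      refine ⟨-a, ?_⟩
      simp [mul_inv_rev]
    exact Set.finite_univ_iff.1 (hsurj ▸ hΦ.image _)
  exact Subgroup.finiteIndex_of_finite_quotient

end Pool.Agent.H817.KE
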