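import Pool.Agent.H817.KE.Stm3
import Pool.Agent.H817.KE.Fix
import Pool.Agent.H817.KE.Hopf2

/-! Assembly: closed affine manifolds with an end of bounded developing image. -/

set_option autoImplicit false

namespace Pool.Agent.H817.KE

open Set Filter Topology Module

theorem main2 (hunif : S_unif) (hnrm : S_nrm2) (hcon : S_con2) (hpig : S_pig) (hcyc : S_cyc2)
    (hrad : S_rad) {X Γ E : Type} [TopologicalSpace X] [T2Space X] [ConnectedSpace X] [Group Γ]
    [MulAction Γ X] [NormedAddCommGroup E] [NormedSpace ℝ E] [FiniteDimensional ℝ E] [Nontrivial E]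
    {dev : X → E} {hol : Γ →* (E ≃ᵃ[ℝ] E)} (D : CA X Γ E dev hol) (U : Set X) (hU : BEnd dev U) :
    ∃ p : E, (∀ γ : Γ, hol γ p = p) ∧ (∀ x : X, dev x ≠ p) ∧
      (2 ≤ finrank ℝ E → range dev = {p}ᶜ) ∧
      ∃ g : Γ, ‖L (hol g)‖ ≤ 1 / 2 ∧ (Subgroup.zpowers g).FiniteIndex := by
  obtain ⟨x0, hx0⟩ : U.Nonempty := by
    rw [nonempty_iff_ne_empty]
    intro h
    apply hU.nc
    rw [h, closure_empty]
    exact isCompact_empty
  obtain ⟨M, hM⟩ := hnrm D U hU x0
  obtain ⟨g, hg, hgU⟩ := hcon D U hU x0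
  obtain ⟨S, hSdef⟩ : ∃ S : Set Γ, S = {x : Γ | x • x0 ∈ U} := ⟨_, rfl⟩
  have hSM : ∀ x ∈ S, ‖L (hol x)‖ ≤ M := by
    intro x hx
    rw [hSdef] at hx
    exact hM x hx
  have hgS : ∀ n : ℕ, g ^ (n + 1) ∈ S := by
    intro n
    rw [hSdef]
    exact hgU n
  have halm : ∀ s : Γ, {x : Γ | ¬ (x ∈ S ↔ x * s ∈ S)}.Finite := by
    intro s
    refine (hunif D U hU {s • x0} isCompact_singleton x0).subset ?_
    intro x hx
    refine ⟨s • x0, rfl, ?_⟩
    intro hcon'
    apply hx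
    rw [hSdef]
    show x • x0 ∈ U ↔ (x * s) • x0 ∈ U
    rw [mul_smul]
    exact hcon'.symm
  have hLmul : ∀ a b : Γ, L (hol (a * b)) = (L (hol a)).comp (L (hol b)) := by
    intro a b
    rw [map_mul]
    rfl
  have hLone : L (hol (1 : Γ)) = ContinuousLinearMap.id ℝ E := by
    rw [map_one]
    rfl
  have hLpow : ∀ n : ℕ, ‖L (hol (g ^ n))‖ ≤ (1 / 2) ^ n := by
    intro n
    induction n with
    | zero =>
      rw [pow_zero, pow_zero, hLone]
      exact ContinuousLinearMap.norm_id_le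
    | succ n ih =>
      rw [pow_succ, hLmul, pow_succ]
      exact (ContinuousLinearMap.opNorm_comp_le _ _).trans
        (mul_le_mul ih hg (norm_nonneg _) (by positivity))
  have hinj : Function.Injective fun n : ℕ => g ^ n := by
    have h1 : ∀ n : ℕ, 0 < n → g ^ n ≠ 1 := by
      intro n hn0 h
      have h2 := hLpow n
      rw [h, hLone, ContinuousLinearMap.norm_id] at h2
      have h3 : ((1 : ℝ) / 2) ^ n < 1 := pow_lt_one₀ (by norm_num) (by norm_num) hn0.ne'
      linarith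
    have h4 : ∀ m n : ℕ, m < n → g ^ m ≠ g ^ n := by
      intro m n hmn h
      apply h1 (n - m) (by omega)
      have h5 : g ^ n = g ^ m * g ^ (n - m) := by rw [← pow_add]; congr 1; omega
      rw [h5] at h
      exact (mul_left_cancel (a := g ^ m) (by rw [mul_one]; exact h)).symm
    intro m n hmn
    by_contra hne
    rcases lt_or_gt_of_ne hne with h | h
    · exact h4 m n h hmn
    · exact h4 n m h hmn.symm
  have hinf : Infinite Γ := Infinite.of_injective _ hinj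
  obtain ⟨p, hp⟩ := fix_contr (hol g) hg
  have hfix : ∀ γ : Γ, hol γ p = p := by
    intro γ
    obtain ⟨m, l, hm, -, hml⟩ := hpig hol S M g hSM hg hgS halm γ
    have e1 : hol (g ^ m) (hol γ p) = hol γ p := by
      rw [hml, fix_mul_apply, fix_mul_apply]
      have e2 : hol γ⁻¹ (hol γ p) = p := by
        rw [← fix_mul_apply, inv_mul_cancel, fix_one_apply]
      rw [e2, fix_pow hol g p hp l]
    have e3 : hol (g ^ m) p = p := fix_pow hol g p hp m
    have e4 : hol (g ^ m) (hol γ p) - hol (g ^ m) p = L (hol (g ^ m)) (hol γ p - p) :=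
      fix_sub _ _ _
    rw [e1, e3] at e4
    have e5 : ‖hol γ p - p‖ ≤ (1 / 2) ^ m * ‖hol γ p - p‖ := by
      calc ‖hol γ p - p‖ = ‖L (hol (g ^ m)) (hol γ p - p)‖ := by rw [← e4]
        _ ≤ ‖L (hol (g ^ m))‖ * ‖hol γ p - p‖ := ContinuousLinearMap.le_opNorm _ _
        _ ≤ (1 / 2) ^ m * ‖hol γ p - p‖ :=
          mul_le_mul_of_nonneg_right (hLpow m) (norm_nonneg _)
    have e6 : ((1 : ℝ) / 2) ^ m < 1 := pow_lt_one₀ (by norm_num) (by norm_num) hm.ne'
    have e7 : ‖hol γ p - p‖ = 0 := by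
      by_contra hne
      have : 0 < ‖hol γ p - p‖ := lt_of_le_of_ne (norm_nonneg _) (Ne.symm hne)
      nlinarith
    exact sub_eq_zero.1 (norm_eq_zero.1 e7)
  obtain ⟨Φ, hΦ, hcov⟩ := hcyc hol S M g hSM hg hgS halm
  have hnp : ∀ x : X, dev x ≠ p := hrad D hinf p hfix
  have hrange : 2 ≤ finrank ℝ E → range dev = {p}ᶜ := by
    intro h2
    refine t_hopf2 h2 hol (range dev) D.loc.isOpenMap.isOpen_range ⟨dev x0, x0, rfl⟩ ?_ ?_ p g Φ
      ?_ hp hg hΦ hcov
    · rintro a _ ⟨x, rfl⟩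
      exact ⟨a • x, D.equi a x⟩
    · obtain ⟨K, hK, h⟩ := D.cc
      refine ⟨dev '' K, image_subset_range _ _, hK.image D.loc.continuous, ?_⟩
      rintro _ ⟨x, rfl⟩
      obtain ⟨a, k, hk, rfl⟩ := h x
      exact ⟨a, dev k, ⟨k, hk, rfl⟩, (D.equi a k).symm⟩
    · rintro ⟨x, hx⟩
      exact hnp x hx
  refine ⟨p, hfix, hnp, hrange, g, hg, ?_⟩
  have hfin : Finite (Γ ⧸ Subgroup.zpowers g) := by
    have hsurj : ((fun γ : Γ => (γ : Γ ⧸ Subgroup.zpowers g)) '' Φ) = univ := by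
      refine eq_univ_of_forall fun q => ?_
      obtain ⟨γ, rfl⟩ := QuotientGroup.mk_surjective q
      obtain ⟨a, ha⟩ := hcov γ
      refine ⟨γ * g ^ a, ha, ?_⟩
      rw [QuotientGroup.eq]
      refine ⟨-a, ?_⟩
      simp [mul_inv_rev]
    exact Set.finite_univ_iff.1 (hsurj ▸ hΦ.image _)
  exact Subgroup.finiteIndex_of_finite_quotient

end Pool.Agent.H817.KE
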