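import Pool.Agent.H817.KE.Stm

/-!
The norms of the linear parts are bounded (`S_nrm`). Project KE of helper817, by helper733,
adapted from `t_line` of project PL.
-/

set_option autoImplicit false

namespace Pool.Agent.H817.KE

open Set Filter Topology Module

theorem nrm_lim {X : Type} [TopologicalSpace X] (U : Ultrafilter ℕ) {K : Set X} (hK : IsCompact K)
    (x : ℕ → X) (hx : ∀ᶠ n in (U : Filter ℕ), x n ∈ K) : ∃ a ∈ K, Tendsto x U (𝓝 a) := by
  obtain ⟨a, ha, h⟩ := isCompact_iff_ultrafilter_le_nhds.1 hK (U.map x) (by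
    rw [le_principal_iff]
    exact hx)
  exact ⟨a, ha, h⟩

section

variable {Γ E : Type} [Group Γ] [NormedAddCommGroup E] [NormedSpace ℝ E] [FiniteDimensional ℝ E]

theorem nrm_fin {hol : Γ →* (E ≃ᵃ[ℝ] E)} {Ω : Set E} (hD : Kl hol Ω) (U : Ultrafilter ℕ)
    (g : ℕ → Γ) (k x : ℕ → E) {k0 x0 y0 w : E} (hk : Tendsto k U (𝓝 k0)) (hk0 : k0 ∈ Ω)
    (hw : Tendsto (fun n => hol (g n) (k n)) U (𝓝 w)) (hw0 : w ∉ Ω)
    (hx : Tendsto x U (𝓝 x0)) (hx0 : x0 ∈ Ω)
    (hy : Tendsto (fun n => hol (g n) (x n)) U (𝓝 y0)) (hy0 : y0 ∈ Ω) : False := by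
  obtain ⟨K1, hc1, hi1, hs1⟩ := exists_compact_subset hD.op hx0
  obtain ⟨K2, hc2, hi2, hs2⟩ := exists_compact_subset hD.op hy0
  have hfin := hD.pd (K1 ∪ K2) (union_subset hs1 hs2) (hc1.union hc2)
  have h1 : ∀ᶠ n in (U : Filter ℕ), x n ∈ K1 := hx (mem_interior_iff_mem_nhds.1 hi1)
  have h2 : ∀ᶠ n in (U : Filter ℕ), hol (g n) (x n) ∈ K2 := hy (mem_interior_iff_mem_nhds.1 hi2)
  have h3 : ∀ᶠ n in (U : Filter ℕ), ∃ γ ∈ {g : Γ | ∃ z ∈ K1 ∪ K2, hol g z ∈ K1 ∪ K2}, g n = γ := by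
    filter_upwards [h1, h2] with n a1 a2
    exact ⟨g n, ⟨x n, Or.inl a1, Or.inr a2⟩, rfl⟩
  obtain ⟨γ, _, hγ⟩ := (Ultrafilter.eventually_exists_mem_iff hfin).1 h3
  have h4 : Tendsto (fun n => hol γ (k n)) U (𝓝 w) := by
    refine hw.congr' ?_
    filter_upwards [hγ] with n hn
    rw [hn]
  have hcont : Continuous (hol γ) := AffineEquiv.continuous_of_finiteDimensional (hol γ)
  have h5 : Tendsto (fun n => hol γ (k n)) U (𝓝 (hol γ k0)) := (hcont.tendsto k0).comp hk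
  have h6 := tendsto_nhds_unique h4 h5
  exact hw0 (h6 ▸ hD.inv γ k0 hk0)

omit [FiniteDimensional ℝ E] in
theorem nrm_aff (T : E ≃ᵃ[ℝ] E) (x y : E) : T x = T y + T.linear (x - y) := by
  have h := T.map_vadd y (x - y)
  rw [vadd_eq_add, vadd_eq_add, sub_add_cancel] at h
  rw [h, add_comm]

end

theorem nrm_clm {E : Type*} [NormedAddCommGroup E] [NormedSpace ℝ E] {F : Filter ℕ}
    {T : ℕ → E →L[ℝ] E} {T0 : E →L[ℝ] E} {x : ℕ → E} {x0 : E} (hT : Tendsto T F (𝓝 T0))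
    (hx : Tendsto x F (𝓝 x0)) : Tendsto (fun n => T n (x n)) F (𝓝 (T0 x0)) := by
  have h1 : Continuous fun p : (E →L[ℝ] E) × E => p.1 p.2 :=
    (isBoundedBilinearMap_apply (𝕜 := ℝ) (E := E) (F := E)).continuous
  exact (h1.tendsto (T0, x0)).comp (hT.prodMk_nhds hx)

/-- a bounded piece contains no line in the complement of the domain -/
theorem nrm_line {E : Type} [NormedAddCommGroup E] [NormedSpace ℝ E] {Ω A : Set E}
    (hA : Piece Ω A) {w d : E} (hd : d ≠ 0) (hw : w ∈ A) (h : ∀ t : ℝ, w + t • d ∉ Ω) : False := by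
  have hcont : Continuous fun t : ℝ => w + t • d :=
    continuous_const.add (continuous_id.smul continuous_const)
  have hop : IsOpen {t : ℝ | w + t • d ∈ A} := by
    rw [isOpen_iff_mem_nhds]
    intro t ht
    have h1 := (hcont.tendsto t).eventually (hA.2 (w + t • d) (h t))
    filter_upwards [h1] with s hs
    exact hs.2 ht
  have hcl : IsOpen {t : ℝ | w + t • d ∈ A}ᶜ := by
    rw [isOpen_iff_mem_nhds]
    intro t ht
    have h1 := (hcont.tendsto t).eventually (hA.2 (w + t • d) (h t))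
    filter_upwards [h1] with s hs hs'
    exact ht (hs.1 hs')
  have hclopen : IsClopen {t : ℝ | w + t • d ∈ A} := ⟨isOpen_compl_iff.1 hcl, hop⟩
  have huniv : {t : ℝ | w + t • d ∈ A} = univ := by
    rcases isClopen_iff.1 hclopen with h0 | h0
    · exfalso
      have h1 : (0 : ℝ) ∈ {t : ℝ | w + t • d ∈ A} := by
        change w + (0 : ℝ) • d ∈ A
        rw [zero_smul, add_zero]
        exact hw
      rw [h0] at h1
      exact h1
    · exact h0
  obtain ⟨R, hR⟩ := hA.1.exists_norm_le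
  have hd0 : 0 < ‖d‖ := norm_pos_iff.2 hd
  have h1 : w + ((R + ‖w‖ + 1) / ‖d‖) • d ∈ A := by
    have h2 : (R + ‖w‖ + 1) / ‖d‖ ∈ {t : ℝ | w + t • d ∈ A} := by
      rw [huniv]
      exact mem_univ _
    exact h2
  have h2 := hR _ h1
  have h3 : ‖((R + ‖w‖ + 1) / ‖d‖) • d‖ = |R + ‖w‖ + 1| := by
    rw [norm_smul, Real.norm_eq_abs, abs_div, abs_norm, div_mul_cancel₀ _ hd0.ne']
  have h4 : ‖((R + ‖w‖ + 1) / ‖d‖) • d‖ ≤ ‖w + ((R + ‖w‖ + 1) / ‖d‖) • d‖ + ‖w‖ := by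
    have h5 := norm_sub_le (w + ((R + ‖w‖ + 1) / ‖d‖) • d) w
    rwa [add_sub_cancel_left] at h5
  have h5 := le_abs_self (R + ‖w‖ + 1)
  rw [h3] at h4
  linarith

theorem t_nrm : S_nrm := by
  intro Γ E _ _ _ _ hol Ω hD A hA k0 hk0
  by_contra hcon
  push Not at hcon
  choose g hgA hgn using fun n : ℕ => hcon (n : ℝ)
  let U : Ultrafilter ℕ := Ultrafilter.of atTop
  have hU : (U : Filter ℕ) ≤ atTop := Ultrafilter.of_le atTop
  obtain ⟨R, hR⟩ := hA.1.exists_norm_le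
  obtain ⟨w, _, hw⟩ := nrm_lim U (isCompact_closedBall (0 : E) R) (fun n => hol (g n) k0)
    (Eventually.of_forall fun n => by
      rw [mem_closedBall_zero_iff]
      exact hR _ (hgA n))
  have hT : Tendsto (fun n => ‖L (hol (g n))‖) U atTop := by
    have h1 : Tendsto (fun n : ℕ => (n : ℝ)) U atTop := tendsto_natCast_atTop_atTop.mono_left hU
    exact tendsto_atTop_mono (fun n => (hgn n).le) h1
  have hwn : w ∉ Ω := by
    intro hwΩ
    obtain ⟨K1, hc1, hi1, hs1⟩ := exists_compact_subset hD.op hwΩ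
    have hfin := hD.pd (K1 ∪ {k0}) (union_subset hs1 (singleton_subset_iff.2 hk0))
      (hc1.union isCompact_singleton)
    have h1 : ∀ᶠ n in (U : Filter ℕ), hol (g n) k0 ∈ K1 := hw (mem_interior_iff_mem_nhds.1 hi1)
    have h3 : ∀ᶠ n in (U : Filter ℕ),
        ∃ γ ∈ {g : Γ | ∃ z ∈ K1 ∪ {k0}, hol g z ∈ K1 ∪ {k0}}, g n = γ := by
      filter_upwards [h1] with n a1
      exact ⟨g n, ⟨k0, Or.inr rfl, Or.inl a1⟩, rfl⟩
    obtain ⟨γ, _, hγ⟩ := (Ultrafilter.eventually_exists_mem_iff hfin).1 h3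
    obtain ⟨n, hn1, hn2⟩ := (hγ.and (hT.eventually_gt_atTop ‖L (hol γ)‖)).exists
    rw [hn1] at hn2
    exact lt_irrefl _ hn2
  have hwA : w ∈ A := by
    obtain ⟨n, hn⟩ := (hw.eventually (hA.2 w hwn)).exists
    exact hn.1 (hgA n)
  have hform : ∀ n x, hol (g n) x = hol (g n) k0 + L (hol (g n)) (x - k0) := fun n x =>
    nrm_aff _ _ _
  have hpos : ∀ᶠ n in (U : Filter ℕ), 0 < ‖L (hol (g n))‖ := hT.eventually_gt_atTop 0
  set P : ℕ → (E →L[ℝ] E) := fun n => ‖L (hol (g n))‖⁻¹ • L (hol (g n)) with hP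
  have hP1 : ∀ᶠ n in (U : Filter ℕ), ‖P n‖ = 1 := by
    filter_upwards [hpos] with n hn
    rw [hP]
    simp only
    rw [norm_smul, norm_inv, norm_norm, inv_mul_cancel₀ hn.ne']
  obtain ⟨P0, _, hP0⟩ := nrm_lim U (isCompact_closedBall (0 : E →L[ℝ] E) 1) P (by
      filter_upwards [hP1] with n hn
      rw [mem_closedBall_zero_iff]
      exact hn.le)
  have hP0' : Tendsto P U (𝓝 P0) := hP0
  have hP0n : ‖P0‖ = 1 := by
    have h1 : Tendsto (fun n => ‖P n‖) U (𝓝 ‖P0‖) := hP0.norm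
    have h2 : Tendsto (fun n => ‖P n‖) U (𝓝 1) :=
      tendsto_const_nhds.congr' (by filter_upwards [hP1] with n hn; exact hn.symm)
    exact tendsto_nhds_unique h1 h2
  have hne : ∃ u, P0 u ≠ 0 := by
    by_contra hcon
    push Not at hcon
    have h1 : P0 = 0 := ContinuousLinearMap.ext hcon
    rw [h1, norm_zero] at hP0n
    exact zero_ne_one hP0n
  obtain ⟨u, hu⟩ := hne
  refine nrm_line hA hu hwA fun t ht => ?_
  have hinv : Tendsto (fun n => ‖L (hol (g n))‖⁻¹) U (𝓝 0) := hT.inv_tendsto_atTop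
  have hx : Tendsto (fun n => k0 + (t * ‖L (hol (g n))‖⁻¹) • u) U (𝓝 k0) := by
    have h1 := (tendsto_const_nhds (x := k0)).add ((hinv.const_mul t).smul_const u)
    rw [mul_zero, zero_smul, add_zero] at h1
    exact h1
  have hy : Tendsto (fun n => hol (g n) (k0 + (t * ‖L (hol (g n))‖⁻¹) • u)) U
      (𝓝 (w + t • P0 u)) := by
    have h1 : Tendsto (fun n => hol (g n) k0 + t • P n u) U (𝓝 (w + t • P0 u)) :=
      hw.add ((nrm_clm hP0' tendsto_const_nhds).const_smul t)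
    refine h1.congr fun n => ?_
    rw [hform n (k0 + _), add_sub_cancel_left, map_smul, hP]
    simp only
    rw [_root_.smul_apply, smul_smul]
  exact nrm_fin hD U g (fun _ => k0) _ tendsto_const_nhds hk0 hw hwn hx hk0 hy ht

end Pool.Agent.H817.KE
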