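import Pool.Agent.H817.KE.Stm2

set_option autoImplicit false

namespace Pool.Agent.H817.KE

open Set Filter Topology Module

theorem nrmb_op {E : Type} [NormedAddCommGroup E] [NormedSpace ℝ E] (A : E →L[ℝ] E) {ε D : ℝ}
    (hε : 0 < ε) (hD : 0 ≤ D) (h : ∀ v : E, ‖v‖ ≤ ε → ‖A v‖ ≤ D) : ‖A‖ ≤ D / ε := by
  refine A.opNorm_le_bound (by positivity) fun v => ?_
  by_cases hv : v = 0
  · rw [hv, map_zero, norm_zero, mul_zero]
  have hv0 : 0 < ‖v‖ := norm_pos_iff.2 hv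
  have h1 : ‖(ε / ‖v‖) • v‖ = ε := by
    rw [norm_smul, Real.norm_of_nonneg (by positivity)]
    field_simp
  have h2 := h ((ε / ‖v‖) • v) h1.le
  rw [map_smul, norm_smul, Real.norm_of_nonneg (by positivity)] at h2
  rw [div_mul_eq_mul_div, le_div_iff₀ hε]
  rw [div_mul_eq_mul_div, div_le_iff₀ hv0] at h2
  linarith

theorem nrmb_aff {E : Type} [NormedAddCommGroup E] [NormedSpace ℝ E] [FiniteDimensional ℝ E]
    (T : E ≃ᵃ[ℝ] E) (z v : E) : L T v = T (z + v) - T z := by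
  have h1 : T (v +ᵥ z) = T.linear v +ᵥ T z := T.map_vadd z v
  rw [vadd_eq_add, vadd_eq_add] at h1
  rw [add_comm z v, h1, add_sub_cancel_right]
  rfl

theorem t_nrm2 (h : S_unif) : S_nrm2 := by
  intro X Γ E _ _ _ _ _ _ _ _ dev hol hc U hU x0
  have : ProperSpace E := FiniteDimensional.proper_real E
  obtain ⟨e, he, hde⟩ := hc.loc x0
  obtain ⟨ε, hε, hεt⟩ : ∃ ε : ℝ, 0 < ε ∧ Metric.closedBall (dev x0) ε ⊆ e.target := by
    have h1 : e.target ∈ 𝓝 (dev x0) := by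
      apply e.open_target.mem_nhds
      rw [hde]
      exact e.map_source he
    exact Metric.nhds_basis_closedBall.mem_iff.1 h1
  have hP : IsCompact (e.symm '' Metric.closedBall (dev x0) ε) :=
    (isCompact_closedBall (dev x0) ε).image_of_continuousOn (e.continuousOn_symm.mono hεt)
  have hF := h hc U hU _ hP x0
  obtain ⟨R, hR⟩ := hU.bd.exists_norm_le
  obtain ⟨M1, hM1⟩ := (hF.image fun g : Γ => ‖L (hol g)‖).bddAbove
  refine ⟨max M1 ((R + R) / ε), fun g hg => ?_⟩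
  by_cases hgF : g ∈ {g : Γ | ∃ k ∈ e.symm '' Metric.closedBall (dev x0) ε, ¬ (g • k ∈ U ↔ g • x0 ∈ U)}
  · exact (hM1 ⟨g, hgF, rfl⟩).trans (le_max_left _ _)
  refine le_trans ?_ (le_max_right _ _)
  have hx : ‖hol g (dev x0)‖ ≤ R := by
    rw [← hc.equi]
    exact hR _ ⟨_, hg, rfl⟩
  have hR0 : 0 ≤ R := (norm_nonneg _).trans hx
  refine nrmb_op _ hε (by positivity) fun v hv => ?_
  have h1 : dev x0 + v ∈ Metric.closedBall (dev x0) ε := by
    rw [mem_closedBall_iff_norm, add_sub_cancel_left]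
    exact hv
  have h2 : g • (e.symm (dev x0 + v)) ∈ U := by
    by_contra hcon
    exact hgF ⟨_, ⟨_, h1, rfl⟩, fun h => hcon (h.2 hg)⟩
  have h3 : dev (e.symm (dev x0 + v)) = dev x0 + v := by
    have h4 := e.right_inv (hεt h1)
    rw [← hde] at h4
    exact h4
  have h5 : ‖hol g (dev x0 + v)‖ ≤ R := by
    rw [← h3, ← hc.equi]
    exact hR _ ⟨_, h2, rfl⟩
  rw [nrmb_aff (hol g) (dev x0) v]
  exact (norm_sub_le _ _).trans (add_le_add h5 hx)

end Pool.Agent.H817.KE
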