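import Pool.Agent.H817.KE.Stm2

/-!
# Pigeonhole: powers of conjugate contractions agree
-/

set_option autoImplicit false

namespace Pool.Agent.H817.KE

open Set Filter Topology Module

section

variable {Γ E : Type} [Group Γ] [NormedAddCommGroup E] [NormedSpace ℝ E] [FiniteDimensional ℝ E]

theorem pig_L_mul (hol : Γ →* (E ≃ᵃ[ℝ] E)) (x y : Γ) :
    L (hol (x * y)) = L (hol x) * L (hol y) := by
  rw [map_mul]
  rfl

theorem pig_L_one (hol : Γ →* (E ≃ᵃ[ℝ] E)) : L (hol 1) = (1 : E →L[ℝ] E) := by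
  rw [map_one]
  rfl

theorem pig_L_pow (hol : Γ →* (E ≃ᵃ[ℝ] E)) (x : Γ) (n : ℕ) :
    L (hol (x ^ n)) = L (hol x) ^ n := by
  induction n with
  | zero => rw [pow_zero, pow_zero, pig_L_one]
  | succ n ih => rw [pow_succ, pow_succ, pig_L_mul, ih]

/-- the powers leave the set -/
theorem pig_leave [Nontrivial E] (hol : Γ →* (E ≃ᵃ[ℝ] E)) (S : Set Γ) (M : ℝ) (g γ : Γ)
    (hM : ∀ x ∈ S, ‖L (hol x)‖ ≤ M) (hg : ‖L (hol g)‖ ≤ 1 / 2) (u : Γ) :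
    ∃ j : ℕ, u * (γ * g * γ⁻¹)⁻¹ ^ j ∉ S := by
  by_contra hcon
  push Not at hcon
  have hb : ∀ j : ℕ, 1 ≤ (‖L (hol γ)‖ * ‖L (hol γ⁻¹)‖ * (‖L (hol u⁻¹)‖ * M)) * (1 / 2) ^ j := by
    intro j
    have e0 : (γ * g * γ⁻¹) ^ j = γ * g ^ j * γ⁻¹ := conj_pow
    have e1 : (γ * g ^ j * γ⁻¹) * (u⁻¹ * (u * (γ * g * γ⁻¹)⁻¹ ^ j)) = 1 := by
      rw [inv_mul_cancel_left, inv_pow, e0, mul_inv_cancel]
    have e2 : L (hol (γ * g ^ j * γ⁻¹)) * (L (hol u⁻¹) * L (hol (u * (γ * g * γ⁻¹)⁻¹ ^ j))) = 1 := by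
      rw [← pig_L_mul, ← pig_L_mul, e1, pig_L_one]
    have e3 : ‖L (hol (γ * g ^ j * γ⁻¹))‖ ≤ ‖L (hol γ)‖ * (1 / 2) ^ j * ‖L (hol γ⁻¹)‖ := by
      rw [pig_L_mul, pig_L_mul, pig_L_pow]
      refine (norm_mul_le _ _).trans (mul_le_mul_of_nonneg_right ?_ (norm_nonneg _))
      refine (norm_mul_le _ _).trans (mul_le_mul_of_nonneg_left ?_ (norm_nonneg _))
      exact (norm_pow_le _ _).trans (pow_le_pow_left₀ (norm_nonneg _) hg j)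
    have e4 : ‖L (hol u⁻¹) * L (hol (u * (γ * g * γ⁻¹)⁻¹ ^ j))‖ ≤ ‖L (hol u⁻¹)‖ * M :=
      (norm_mul_le _ _).trans (mul_le_mul_of_nonneg_left (hM _ (hcon j)) (norm_nonneg _))
    have e5 : (1 : ℝ) = ‖(1 : E →L[ℝ] E)‖ := norm_one.symm
    have e6 := norm_mul_le (L (hol (γ * g ^ j * γ⁻¹)))
      (L (hol u⁻¹) * L (hol (u * (γ * g * γ⁻¹)⁻¹ ^ j)))
    rw [e2, ← e5] at e6
    refine e6.trans ?_
    refine (mul_le_mul e3 e4 (norm_nonneg _) (by positivity)).trans (le_of_eq ?_)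
    ring
  have ht : Tendsto (fun j : ℕ => (‖L (hol γ)‖ * ‖L (hol γ⁻¹)‖ * (‖L (hol u⁻¹)‖ * M)) *
      (1 / 2 : ℝ) ^ j) atTop (𝓝 ((‖L (hol γ)‖ * ‖L (hol γ⁻¹)‖ * (‖L (hol u⁻¹)‖ * M)) * 0)) :=
    (tendsto_pow_atTop_nhds_zero_of_lt_one (by norm_num) (by norm_num)).const_mul _
  have h0 := ge_of_tendsto' ht hb
  rw [mul_zero] at h0
  exact absurd h0 (by norm_num)

/-- the exponents have the same sign -/
theorem pig_neg [Nontrivial E] (hol : Γ →* (E ≃ᵃ[ℝ] E)) (g γ : Γ) (hg : ‖L (hol g)‖ ≤ 1 / 2)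
    (d s : ℕ) (h : γ⁻¹ * g ^ (d + 1) * γ * g ^ s = 1) : False := by
  have hb : ∀ N : ℕ, 1 ≤ (‖L (hol γ⁻¹)‖ * ‖L (hol γ)‖) * (1 / 2) ^ N := by
    intro N
    have e0 : γ⁻¹ * g ^ (d + 1) * γ = (g ^ s)⁻¹ := eq_inv_of_mul_eq_one_left h
    have e1 : (γ⁻¹ * g ^ (d + 1) * γ) ^ N = γ⁻¹ * (g ^ (d + 1)) ^ N * γ := by
      have := conj_pow (i := N) (a := γ⁻¹) (b := g ^ (d + 1))
      rwa [inv_inv] at this
    have e2 : γ⁻¹ * (g ^ (d + 1)) ^ N * γ * (g ^ s) ^ N = 1 := by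
      rw [← e1, e0, inv_pow, inv_mul_cancel]
    have e3 : L (hol (γ⁻¹ * (g ^ (d + 1)) ^ N * γ)) * L (hol ((g ^ s) ^ N)) = 1 := by
      rw [← pig_L_mul, e2, pig_L_one]
    have e4 : ‖L (hol (γ⁻¹ * (g ^ (d + 1)) ^ N * γ))‖ ≤
        ‖L (hol γ⁻¹)‖ * (1 / 2) ^ N * ‖L (hol γ)‖ := by
      rw [pig_L_mul, pig_L_mul, ← pow_mul, pig_L_pow]
      refine (norm_mul_le _ _).trans (mul_le_mul_of_nonneg_right ?_ (norm_nonneg _))
      refine (norm_mul_le _ _).trans (mul_le_mul_of_nonneg_left ?_ (norm_nonneg _))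
      refine (norm_pow_le _ _).trans ((pow_le_pow_left₀ (norm_nonneg _) hg _).trans ?_)
      exact pow_le_pow_of_le_one (by norm_num) (by norm_num)
        (Nat.le_mul_of_pos_left N (Nat.succ_pos d))
    have e5 : ‖L (hol ((g ^ s) ^ N))‖ ≤ 1 := by
      rw [← pow_mul, pig_L_pow]
      refine (norm_pow_le _ _).trans ((pow_le_pow_left₀ (norm_nonneg _) hg _).trans ?_)
      exact pow_le_one₀ (by norm_num) (by norm_num)
    have e6 := norm_mul_le (L (hol (γ⁻¹ * (g ^ (d + 1)) ^ N * γ))) (L (hol ((g ^ s) ^ N)))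
    rw [e3, norm_one] at e6
    refine e6.trans ?_
    refine (mul_le_mul e4 e5 (norm_nonneg _) (by positivity)).trans (le_of_eq ?_)
    ring
  have ht : Tendsto (fun j : ℕ => (‖L (hol γ⁻¹)‖ * ‖L (hol γ)‖) *
      (1 / 2 : ℝ) ^ j) atTop (𝓝 ((‖L (hol γ⁻¹)‖ * ‖L (hol γ)‖) * 0)) :=
    (tendsto_pow_atTop_nhds_zero_of_lt_one (by norm_num) (by norm_num)).const_mul _
  have h0 := ge_of_tendsto' ht hb
  rw [mul_zero] at h0
  exact absurd h0 (by norm_num)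

end

/-- **S_pig** -/
theorem t_pig : S_pig := by
  intro Γ E _ _ _ _ _ hol S M g hM hg hA hF γ
  have hex : ∀ a : ℕ, ∃ j : ℕ, g ^ (a + 1) * (γ * g * γ⁻¹)⁻¹ ^ j ∈
      {x : Γ | ¬ (x ∈ S ↔ x * (γ * g * γ⁻¹)⁻¹ ∈ S)} := by
    intro a
    have hl := pig_leave hol S M g γ hM hg (g ^ (a + 1))
    classical
    have h0 : Nat.find hl ≠ 0 := by
      intro h0
      have h1 := Nat.find_spec hl
      rw [h0, pow_zero, mul_one] at h1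
      exact h1 (hA a)
    obtain ⟨j, hj⟩ := Nat.exists_eq_succ_of_ne_zero h0
    have h2 : g ^ (a + 1) * (γ * g * γ⁻¹)⁻¹ ^ j ∈ S := by
      by_contra hc
      have := Nat.find_min' hl hc
      omega
    have h3 : g ^ (a + 1) * (γ * g * γ⁻¹)⁻¹ ^ (j + 1) ∉ S := by
      have := Nat.find_spec hl
      rw [hj] at this
      exact this
    refine ⟨j, ?_⟩
    intro hiff
    apply h3
    rw [pow_succ (γ * g * γ⁻¹)⁻¹ j, ← mul_assoc]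
    exact hiff.mp h2
  choose j hj using hex
  have : Finite ↑{x : Γ | ¬ (x ∈ S ↔ x * (γ * g * γ⁻¹)⁻¹ ∈ S)} :=
    (hF ((γ * g * γ⁻¹)⁻¹)).to_subtype
  obtain ⟨a, a', hne, heq⟩ := Finite.exists_ne_map_eq_of_infinite
    (fun a : ℕ => (⟨_, hj a⟩ : ↑{x : Γ | ¬ (x ∈ S ↔ x * (γ * g * γ⁻¹)⁻¹ ∈ S)}))
  have heq' : g ^ (a + 1) * (γ * g * γ⁻¹)⁻¹ ^ (j a) = g ^ (a' + 1) * (γ * g * γ⁻¹)⁻¹ ^ (j a') :=
    congrArg Subtype.val heq
  have hfin : ∀ b c n k : ℕ, b < c →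
      g ^ (b + 1) * (γ * g * γ⁻¹)⁻¹ ^ n = g ^ (c + 1) * (γ * g * γ⁻¹)⁻¹ ^ k →
      ∃ m l : ℕ, 0 < m ∧ 0 < l ∧ g ^ m = γ * g ^ l * γ⁻¹ := by
    intro b c n k hbc he
    obtain ⟨d, rfl⟩ := Nat.exists_eq_add_of_lt hbc
    have h2 : g ^ (b + d + 1 + 1) = g ^ (b + 1) * g ^ (d + 1) := by
      rw [← pow_add]
      congr 1
      omega
    rw [h2, mul_assoc (g ^ (b + 1)) (g ^ (d + 1))] at he
    have h3 : (γ * g * γ⁻¹)⁻¹ ^ n = g ^ (d + 1) * (γ * g * γ⁻¹)⁻¹ ^ k := mul_left_cancel he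
    rcases Nat.lt_or_ge n k with h | h
    · obtain ⟨l, rfl⟩ := Nat.exists_eq_add_of_lt h
      refine ⟨d + 1, l + 1, Nat.succ_pos d, Nat.succ_pos l, ?_⟩
      have h4 : (γ * g * γ⁻¹)⁻¹ ^ (n + l + 1) =
          (γ * g * γ⁻¹)⁻¹ ^ (l + 1) * (γ * g * γ⁻¹)⁻¹ ^ n := by
        rw [← pow_add]
        congr 1
        omega
      rw [h4, ← mul_assoc] at h3
      have h5 : g ^ (d + 1) * (γ * g * γ⁻¹)⁻¹ ^ (l + 1) = 1 := mul_right_cancel (h3.symm.trans (one_mul _).symm)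
      rw [inv_pow, mul_inv_eq_one, conj_pow] at h5
      exact h5
    · exfalso
      obtain ⟨s, rfl⟩ := Nat.exists_eq_add_of_le h
      have h4 : (γ * g * γ⁻¹)⁻¹ ^ (k + s) =
          (γ * g * γ⁻¹)⁻¹ ^ s * (γ * g * γ⁻¹)⁻¹ ^ k := by
        rw [← pow_add]
        congr 1
        omega
      rw [h4] at h3
      have h5 : (γ * g * γ⁻¹)⁻¹ ^ s = g ^ (d + 1) := mul_right_cancel h3
      rw [inv_pow, conj_pow] at h5
      refine pig_neg hol g γ hg d s ?_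
      rw [← h5]
      group
  rcases lt_or_gt_of_ne hne with h | h
  · exact hfin a a' _ _ h heq'
  · exact hfin a' a _ _ h heq'.symm

end Pool.Agent.H817.KE
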