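import Pool.Agent.H817.KE.Stm3

/-! A fixed point of the holonomy is not in the developing image: proof. -/

set_option autoImplicit false

namespace Pool.Agent.H817.KE

open Set Filter Topology Module

/-- local sections, uniformly on a compact set -/
theorem rad_sec {X E : Type} [TopologicalSpace X] [NormedAddCommGroup E] {dev : X → E}
    (loc : IsLocalHomeomorph dev) {K : Set X} (hK : IsCompact K) :
    ∃ ε : ℝ, 0 < ε ∧ ∀ k ∈ K, ∃ σ : E → X, ContinuousOn σ (Metric.ball (dev k) ε) ∧ σ (dev k) = k ∧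
      ∀ z ∈ Metric.ball (dev k) ε, dev (σ z) = z := by
  refine hK.induction_on (p := fun S => ∃ ε : ℝ, 0 < ε ∧ ∀ k ∈ S, ∃ σ : E → X,
    ContinuousOn σ (Metric.ball (dev k) ε) ∧ σ (dev k) = k ∧
      ∀ z ∈ Metric.ball (dev k) ε, dev (σ z) = z) ?_ ?_ ?_ ?_
  · exact ⟨1, one_pos, fun k hk => absurd hk (notMem_empty k)⟩
  · rintro s t hst ⟨ε, hε, h⟩
    exact ⟨ε, hε, fun k hk => h k (hst hk)⟩
  · rintro s t ⟨ε, hε, h⟩ ⟨η, hη, h'⟩
    refine ⟨min ε η, lt_min hε hη, fun k hk => ?_⟩
    rcases hk with hk | hk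
    · obtain ⟨σ, h1, h2, h3⟩ := h k hk
      have hs := Metric.ball_subset_ball (x := dev k) (min_le_left ε η)
      exact ⟨σ, h1.mono hs, h2, fun z hz => h3 z (hs hz)⟩
    · obtain ⟨σ, h1, h2, h3⟩ := h' k hk
      have hs := Metric.ball_subset_ball (x := dev k) (min_le_right ε η)
      exact ⟨σ, h1.mono hs, h2, fun z hz => h3 z (hs hz)⟩
  · intro x _
    obtain ⟨e, hxe, he⟩ := loc x
    have ht : e.target ∈ 𝓝 (dev x) := by
      rw [he]
      exact e.open_target.mem_nhds (e.map_source hxe)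
    obtain ⟨r, hr, hrt⟩ := Metric.mem_nhds_iff.1 ht
    refine ⟨e.source ∩ dev ⁻¹' Metric.ball (dev x) (r / 2), mem_nhdsWithin_of_mem_nhds
      (inter_mem (e.open_source.mem_nhds hxe)
        (loc.continuous.continuousAt.preimage_mem_nhds (Metric.ball_mem_nhds _ (by linarith)))),
      r / 2, by linarith, ?_⟩
    rintro k ⟨hk1, hk2⟩
    have hsub : Metric.ball (dev k) (r / 2) ⊆ e.target := by
      intro z hz
      refine hrt ?_
      have h1 : dist z (dev k) < r / 2 := hz
      have h2 : dist (dev k) (dev x) < r / 2 := hk2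
      have h3 := dist_triangle z (dev k) (dev x)
      exact Metric.mem_ball.2 (by linarith)
    refine ⟨e.symm, e.continuousOn_symm.mono hsub, ?_, fun z hz => ?_⟩
    · rw [he]
      exact e.left_inv hk1
    · rw [he]
      exact e.right_inv (hsub hz)

/-- lift of a radial path -/
def rad_Lift {X E : Type} [TopologicalSpace X] [NormedAddCommGroup E] [NormedSpace ℝ E] (dev : X → E)
    (x0 : X) (p w : E) (T : ℝ) : Prop :=
  ∃ c : ℝ → X, ContinuousOn c (Icc 0 T) ∧ c 0 = x0 ∧ ∀ t ∈ Icc (0 : ℝ) T, dev (c t) = p + t • (w - p)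

theorem rad_step {X E : Type} [TopologicalSpace X] [NormedAddCommGroup E] [NormedSpace ℝ E]
    {dev : X → E} {x0 : X} {p w : E} {δ T : ℝ} (hT : 0 < T) (hδ : 0 < δ)
    (h2 : ∀ y : X, ∃ c : ℝ → X, ContinuousOn c (Icc 0 δ) ∧ c 0 = y ∧
      ∀ s ∈ Icc (0 : ℝ) δ, dev (c s) = dev y + s • (dev y - p))
    (h : rad_Lift dev x0 p w T) : rad_Lift dev x0 p w (T * (1 + δ)) := by
  obtain ⟨c, hc1, hc2, hc3⟩ := h
  obtain ⟨d, hd1, hd2, hd3⟩ := h2 (c T)
  have hyT : dev (c T) = p + T • (w - p) := hc3 T ⟨hT.le, le_rfl⟩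
  have hTT : T ≤ T * (1 + δ) := by nlinarith
  have hmap : ∀ t ∈ Icc T (T * (1 + δ)), (t - T) / T ∈ Icc (0 : ℝ) δ := by
    intro t ht
    refine ⟨div_nonneg (by linarith [ht.1]) hT.le, ?_⟩
    rw [div_le_iff₀ hT]
    linarith [ht.2]
  refine ⟨fun t => if t ≤ T then c t else d ((t - T) / T), ?_, ?_, ?_⟩
  · have e : Icc (0 : ℝ) (T * (1 + δ)) = Icc 0 T ∪ Icc T (T * (1 + δ)) :=
      (Icc_union_Icc_eq_Icc hT.le hTT).symm
    rw [e]
    refine ContinuousOn.union_of_isClosed ?_ ?_ isClosed_Icc isClosed_Icc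
    · refine hc1.congr fun t ht => ?_
      exact if_pos ht.2
    · have h3 : ContinuousOn (fun t => d ((t - T) / T)) (Icc T (T * (1 + δ))) :=
        hd1.comp ((continuous_id.sub continuous_const).div_const T).continuousOn hmap
      refine h3.congr fun t ht => ?_
      by_cases h4 : t ≤ T
      · have h5 : t = T := le_antisymm h4 ht.1
        show (if t ≤ T then c t else d ((t - T) / T)) = d ((t - T) / T)
        rw [if_pos h4, h5, sub_self, zero_div, hd2]
      · exact if_neg h4
  · show (if (0 : ℝ) ≤ T then c 0 else d ((0 - T) / T)) = x0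
    rw [if_pos hT.le, hc2]
  · intro t ht
    show dev (if t ≤ T then c t else d ((t - T) / T)) = p + t • (w - p)
    by_cases h4 : t ≤ T
    · rw [if_pos h4]
      exact hc3 t ⟨ht.1, h4⟩
    · rw [if_neg h4, hd3 _ (hmap t ⟨(not_le.1 h4).le, ht.2⟩), hyT]
      have h6 : p + T • (w - p) - p = T • (w - p) := by abel
      rw [h6, smul_smul, div_mul_cancel₀ _ hT.ne', add_assoc, ← add_smul]
      congr 2
      ring

theorem t_rad : S_rad := by
  intro X Γ E _ _ _ _ _ _ _ _ dev hol hCA hinf p hp x0 hx0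
  obtain ⟨K, hK, hKc⟩ := hCA.cc
  obtain ⟨ε, hε, hsec⟩ := rad_sec hCA.loc hK
  obtain ⟨C, hC⟩ := (hK.image hCA.loc.continuous).isBounded.exists_norm_le
  set δ : ℝ := ε / (2 * (|C| + ‖p‖ + 1)) with hδdef
  have hden : 0 < 2 * (|C| + ‖p‖ + 1) := by positivity
  have hδ : 0 < δ := div_pos hε hden
  have h2 : ∀ y : X, ∃ c : ℝ → X, ContinuousOn c (Icc 0 δ) ∧ c 0 = y ∧
      ∀ s ∈ Icc (0 : ℝ) δ, dev (c s) = dev y + s • (dev y - p) := by
    intro y
    obtain ⟨γ, k, hk, hky⟩ := hKc y
    obtain ⟨σ, h1, h2, h3⟩ := hsec k hk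
    have hball : ∀ s ∈ Icc (0 : ℝ) δ, dev k + s • (dev k - p) ∈ Metric.ball (dev k) ε := by
      intro s hs
      rw [Metric.mem_ball, dist_eq_norm, add_sub_cancel_left, norm_smul, Real.norm_eq_abs,
        abs_of_nonneg hs.1]
      have h4 : ‖dev k - p‖ ≤ |C| + ‖p‖ + 1 := by
        have h5 := norm_sub_le (dev k) p
        have h6 := hC _ (mem_image_of_mem dev hk)
        have h7 := le_abs_self C
        linarith
      calc s * ‖dev k - p‖ ≤ δ * (|C| + ‖p‖ + 1) :=
            mul_le_mul hs.2 h4 (norm_nonneg _) hδ.le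
        _ = ε / 2 := by
            rw [hδdef]
            have : |C| + ‖p‖ + 1 ≠ 0 := by positivity
            field_simp
        _ < ε := by linarith
    refine ⟨fun s => γ • σ (dev k + s • (dev k - p)), ?_, ?_, ?_⟩
    · have h4 : ContinuousOn (fun s : ℝ => dev k + s • (dev k - p)) (Icc 0 δ) := by
        fun_prop
      exact (hCA.cont γ).comp_continuousOn (h1.comp h4 hball)
    · show γ • σ (dev k + (0 : ℝ) • (dev k - p)) = y
      rw [zero_smul, add_zero, h2, hky]
    · intro s hs
      show dev (γ • σ (dev k + s • (dev k - p))) = dev y + s • (dev y - p)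
      rw [hCA.equi, h3 _ (hball s hs), ← hky, hCA.equi]
      have h4 : dev k + s • (dev k - p) = AffineMap.lineMap p (dev k) (1 + s) := by
        rw [AffineMap.lineMap_apply_module']
        rw [add_smul, one_smul]
        abel
      rw [h4, AffineEquiv.apply_lineMap, hp, AffineMap.lineMap_apply_module', add_smul, one_smul]
      abel
  have h3 : ∀ w : E, rad_Lift dev x0 p w 1 := by
    intro w
    obtain ⟨ε0, hε0, hsec0⟩ := rad_sec hCA.loc (isCompact_singleton (x := x0))
    obtain ⟨σ, s1, s2, s3⟩ := hsec0 x0 rfl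
    rw [hx0] at s1 s2 s3
    set T0 : ℝ := ε0 / (2 * (‖w - p‖ + 1)) with hT0def
    have hT0 : 0 < T0 := by positivity
    have hb : rad_Lift dev x0 p w T0 := by
      have hball : ∀ t ∈ Icc (0 : ℝ) T0, p + t • (w - p) ∈ Metric.ball p ε0 := by
        intro t ht
        rw [Metric.mem_ball, dist_eq_norm, add_sub_cancel_left, norm_smul, Real.norm_eq_abs,
          abs_of_nonneg ht.1]
        calc t * ‖w - p‖ ≤ T0 * (‖w - p‖ + 1) :=
              mul_le_mul ht.2 (by linarith) (norm_nonneg _) hT0.le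
          _ = ε0 / 2 := by
              rw [hT0def]
              have : ‖w - p‖ + 1 ≠ 0 := by positivity
              field_simp
          _ < ε0 := by linarith
      refine ⟨fun t => σ (p + t • (w - p)), ?_, ?_, fun t ht => s3 _ (hball t ht)⟩
      · have h4 : ContinuousOn (fun t : ℝ => p + t • (w - p)) (Icc 0 T0) := by fun_prop
        exact s1.comp h4 hball
      · show σ (p + (0 : ℝ) • (w - p)) = x0
        rw [zero_smul, add_zero, s2]
    have hn : ∀ n : ℕ, rad_Lift dev x0 p w (T0 * (1 + δ) ^ n) := by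
      intro n
      induction n with
      | zero => rw [pow_zero, mul_one]; exact hb
      | succ n ih =>
        rw [pow_succ, ← mul_assoc]
        exact rad_step (by positivity) hδ h2 ih
    obtain ⟨n, hn1⟩ := pow_unbounded_of_one_lt (1 / T0) (show (1 : ℝ) < 1 + δ by linarith)
    obtain ⟨c, c1, c2, c3⟩ := hn n
    have hle : 1 ≤ T0 * (1 + δ) ^ n := by
      rw [div_lt_iff₀ hT0] at hn1
      linarith
    exact ⟨c, c1.mono (Icc_subset_Icc_right hle), c2, fun t ht => c3 t ⟨ht.1, ht.2.trans hle⟩⟩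
  choose c c1 c2 c3 using h3
  have hsep : IsSeparatedMap dev := T2Space.isSeparatedMap dev
  have hcont : Continuous (fun z : unitInterval × E => c z.2 (z.1 : ℝ)) := by
    refine hCA.loc.continuous_lift hsep
      (⟨fun z : unitInterval × E => p + (z.1 : ℝ) • (z.2 - p), by fun_prop⟩ : C(unitInterval × E, E))
      (g := fun z : unitInterval × E => c z.2 (z.1 : ℝ)) ?_ ?_ ?_
    · funext z
      exact c3 z.2 z.1 z.1.2
    · have : (fun w : E => c w ((0 : unitInterval) : ℝ)) = fun _ => x0 := by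
        funext w
        exact c2 w
      show Continuous (fun w : E => c w ((0 : unitInterval) : ℝ))
      rw [this]
      exact continuous_const
    · intro w
      exact (c1 w).comp_continuous continuous_subtype_val fun t => t.2
  have hτ : Continuous (fun w : E => c w 1) := by
    have h4 : Continuous (fun w : E => ((1 : unitInterval), w)) := by fun_prop
    exact hcont.comp h4
  have hdτ : ∀ w : E, dev (c w 1) = w := by
    intro w
    have h4 := c3 w 1 ⟨zero_le_one, le_rfl⟩
    rw [one_smul] at h4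
    rw [h4]
    abel
  have hid : (fun x : X => c (dev x) 1) = id := by
    refine hsep.eq_of_comp_eq hCA.loc.isLocallyInjective (hτ.comp hCA.loc.continuous)
      continuous_id ?_ (c p 1) ?_
    · funext x
      exact hdτ (dev x)
    · show c (dev (c p 1)) 1 = c p 1
      rw [hdτ]
  have hinj : Function.Injective dev := by
    intro x y hxy
    have h4 := congrFun hid x
    have h5 := congrFun hid y
    have h6 : c (dev x) 1 = x := h4
    have h7 : c (dev y) 1 = y := h5
    rw [← h6, hxy, h7]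
  have hfix : ∀ γ : Γ, γ • x0 = x0 := by
    intro γ
    apply hinj
    rw [hCA.equi, hx0, hp]
  have hfin := hCA.pd {x0} isCompact_singleton
  have huniv : {γ : Γ | ∃ x ∈ ({x0} : Set X), γ • x ∈ ({x0} : Set X)} = univ := by
    refine eq_univ_of_forall fun γ => ⟨x0, rfl, hfix γ⟩
  rw [huniv] at hfin
  exact infinite_univ hfin

end Pool.Agent.H817.KE
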