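import Pool.Agent.H817.KE.Stm

/-!
The norms of the linear parts tend to zero (`S_sml`).
-/

set_option autoImplicit false

namespace Pool.Agent.H817.KE

open Set Filter Topology Module

theorem sml_lim {X : Type} [TopologicalSpace X] (U : Ultrafilter ℕ) {K : Set X} (hK : IsCompact K)
    (x : ℕ → X) (hx : ∀ᶠ n in (U : Filter ℕ), x n ∈ K) : ∃ a ∈ K, Tendsto x U (𝓝 a) := by
  obtain ⟨a, ha, h⟩ := isCompact_iff_ultrafilter_le_nhds.1 hK (U.map x) (by
    rw [le_principal_iff]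
    exact hx)
  exact ⟨a, ha, h⟩

theorem sml_clm {E : Type*} [NormedAddCommGroup E] [NormedSpace ℝ E] {F : Filter ℕ}
    {T : ℕ → E →L[ℝ] E} {T0 : E →L[ℝ] E} {x : ℕ → E} {x0 : E} (hT : Tendsto T F (𝓝 T0))
    (hx : Tendsto x F (𝓝 x0)) : Tendsto (fun n => T n (x n)) F (𝓝 (T0 x0)) := by
  have h1 : Continuous fun p : (E →L[ℝ] E) × E => p.1 p.2 :=
    (isBoundedBilinearMap_apply (𝕜 := ℝ) (E := E) (F := E)).continuous
  exact (h1.tendsto (T0, x0)).comp (hT.prodMk_nhds hx)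

section

variable {Γ E : Type} [Group Γ] [NormedAddCommGroup E] [NormedSpace ℝ E] [FiniteDimensional ℝ E]

theorem sml_aff (T : E ≃ᵃ[ℝ] E) (x y : E) : T x = T y + L T (x - y) := by
  have h := T.map_vadd y (x - y)
  rw [vadd_eq_add, vadd_eq_add, sub_add_cancel] at h
  rw [h, add_comm]
  rfl

/-- an injective sequence of the group cannot move a point of the domain to a point of the domain
in the limit -/
theorem sml_fin {hol : Γ →* (E ≃ᵃ[ℝ] E)} {Ω : Set E} (hD : Kl hol Ω) (U : Ultrafilter ℕ)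
    (hU : (U : Filter ℕ) ≤ atTop) (g : ℕ → Γ) (hg : Function.Injective g) {x y0 : E}
    (hx : x ∈ Ω) (hy : Tendsto (fun n => hol (g n) x) U (𝓝 y0)) (hy0 : y0 ∈ Ω) : False := by
  obtain ⟨K2, hc2, hi2, hs2⟩ := exists_compact_subset hD.op hy0
  have hs1 : ({x} : Set E) ⊆ Ω := singleton_subset_iff.2 hx
  have hfin := hD.pd ({x} ∪ K2) (union_subset hs1 hs2) (isCompact_singleton.union hc2)
  have h2 : ∀ᶠ n in (U : Filter ℕ), hol (g n) x ∈ K2 := hy (mem_interior_iff_mem_nhds.1 hi2)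
  have h3 : ∀ᶠ n in (U : Filter ℕ), g n ∈ {g : Γ | ∃ z ∈ {x} ∪ K2, hol g z ∈ {x} ∪ K2} := by
    filter_upwards [h2] with n a2
    exact ⟨x, Or.inl rfl, Or.inr a2⟩
  have h4 : (g ⁻¹' {g : Γ | ∃ z ∈ {x} ∪ K2, hol g z ∈ {x} ∪ K2}).Finite :=
    hfin.preimage hg.injOn
  have h5 : ∀ᶠ n in (atTop : Filter ℕ),
      n ∉ g ⁻¹' {g : Γ | ∃ z ∈ {x} ∪ K2, hol g z ∈ {x} ∪ K2} := by
    rw [← Nat.cofinite_eq_atTop]
    exact h4.eventually_cofinite_notMem
  obtain ⟨n, h6, h7⟩ := (h3.and (hU h5)).exists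
  exact h7 h6

end

theorem t_sml (h1 : S_bd) (h2 : S_nrm) : S_sml := by
  intro Γ E _ _ _ _ hol Ω hK A hA k0 hk0 ε hε
  by_contra hinf
  have hinf' : {g : Γ | hol g k0 ∈ A ∧ ε ≤ ‖L (hol g)‖}.Infinite := hinf
  obtain ⟨M, hM⟩ := h2 hol Ω hK A hA k0 hk0
  obtain ⟨g, hginj, hg⟩ : ∃ g : ℕ → Γ, Function.Injective g ∧
      ∀ n, hol (g n) k0 ∈ A ∧ ε ≤ ‖L (hol (g n))‖ :=
    ⟨fun n => (hinf'.natEmbedding _ n : Γ), fun a b h =>
      (hinf'.natEmbedding _).injective (Subtype.ext h), fun n => (hinf'.natEmbedding _ n).2⟩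
  let U : Ultrafilter ℕ := Ultrafilter.of atTop
  have hU : (U : Filter ℕ) ≤ atTop := Ultrafilter.of_le atTop
  obtain ⟨L0, -, hL0⟩ := sml_lim U (isCompact_closedBall (0 : E →L[ℝ] E) M)
    (fun n => L (hol (g n))) (Eventually.of_forall fun n => by
      rw [mem_closedBall_zero_iff]
      exact hM (g n) (hg n).1)
  have hL0n : ε ≤ ‖L0‖ := ge_of_tendsto hL0.norm (Eventually.of_forall fun n => (hg n).2)
  obtain ⟨R, hR⟩ := hA.1.exists_norm_le
  obtain ⟨w, -, hw⟩ := sml_lim U (isCompact_closedBall (0 : E) R) (fun n => hol (g n) k0)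
    (Eventually.of_forall fun n => by
      rw [mem_closedBall_zero_iff]
      exact hR _ (hg n).1)
  have hT : ∀ x, Tendsto (fun n => hol (g n) x) U (𝓝 (w + L0 (x - k0))) := by
    intro x
    have h3 : Tendsto (fun n => hol (g n) k0 + L (hol (g n)) (x - k0)) U
        (𝓝 (w + L0 (x - k0))) := hw.add (sml_clm hL0 tendsto_const_nhds)
    refine h3.congr fun n => ?_
    exact (sml_aff (hol (g n)) x k0).symm
  have hTn : ∀ x ∈ Ω, w + L0 (x - k0) ∉ Ω := fun x hx hy =>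
    sml_fin hK U hU g hginj hx (hT x) hy
  have hwT : w + L0 (k0 - k0) = w := by rw [sub_self, map_zero, add_zero]
  have hwn : w ∉ Ω := by
    have := hTn k0 hk0
    rwa [hwT] at this
  have hwA : w ∈ A := by
    have h3 : ∀ᶠ n in (U : Filter ℕ), (hol (g n) k0 ∈ A ↔ w ∈ A) := hw.eventually (hA.2 w hwn)
    obtain ⟨n, hn⟩ := h3.exists
    exact hn.1 (hg n).1
  have hTc : Continuous fun x : E => w + L0 (x - k0) := by fun_prop
  have hpre : IsPreconnected ((fun x : E => w + L0 (x - k0)) '' Ω) :=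
    hK.cn.isPreconnected.image _ hTc.continuousOn
  have hsub : (fun x : E => w + L0 (x - k0)) '' Ω ⊆ interior A := by
    refine hpre.subset_left_of_subset_union isOpen_interior (isOpen_interior (s := Aᶜ)) ?_ ?_ ?_
    · exact Disjoint.mono interior_subset interior_subset disjoint_compl_right
    · rintro _ ⟨x, hx, rfl⟩
      have h3 := hA.2 _ (hTn x hx)
      by_cases h4 : w + L0 (x - k0) ∈ A
      · left
        rw [mem_interior_iff_mem_nhds]
        filter_upwards [h3] with z hz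
        exact hz.2 h4
      · right
        rw [mem_interior_iff_mem_nhds]
        filter_upwards [h3] with z hz
        exact fun h5 => h4 (hz.1 h5)
    · refine ⟨w, ⟨k0, hk0, hwT⟩, ?_⟩
      rw [mem_interior_iff_mem_nhds]
      filter_upwards [hA.2 w hwn] with z hz
      exact hz.2 hwA
  have hL00 : L0 ≠ 0 := by
    intro h
    rw [h, norm_zero] at hL0n
    linarith
  obtain ⟨v, hv⟩ : ∃ v, L0 v ≠ 0 := by
    by_contra hcon
    push Not at hcon
    exact hL00 (ContinuousLinearMap.ext hcon)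
  obtain ⟨ℓ, hℓ⟩ : ∃ ℓ : E →L[ℝ] ℝ, ℓ (L0 v) ≠ 0 := SeparatingDual.exists_ne_zero hv
  have h0 := h1 hol Ω hK (ℓ.comp L0) ⟨‖ℓ‖ * R + |ℓ w| + |ℓ (L0 k0)|, fun z hz => by
    have h3 : w + L0 (z - k0) ∈ A := interior_subset (hsub ⟨z, hz, rfl⟩)
    have h4 : |ℓ (w + L0 (z - k0))| ≤ ‖ℓ‖ * R :=
      (ℓ.le_opNorm _).trans (mul_le_mul_of_nonneg_left (hR _ h3) (norm_nonneg _))
    have h5 : ℓ (L0 z) = ℓ (w + L0 (z - k0)) - ℓ w + ℓ (L0 k0) := by
      rw [map_add, map_sub, map_sub]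
      ring
    rw [ContinuousLinearMap.comp_apply, h5]
    calc |ℓ (w + L0 (z - k0)) - ℓ w + ℓ (L0 k0)|
        ≤ |ℓ (w + L0 (z - k0)) - ℓ w| + |ℓ (L0 k0)| := abs_add_le _ _
      _ ≤ (|ℓ (w + L0 (z - k0))| + |ℓ w|) + |ℓ (L0 k0)| := by
          gcongr
          exact abs_sub _ _
      _ ≤ ‖ℓ‖ * R + |ℓ w| + |ℓ (L0 k0)| := by gcongr⟩
  have h6 : (ℓ.comp L0) v = 0 := by rw [h0]; rfl
  exact hℓ h6

end Pool.Agent.H817.KE
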