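import Pool.Agent.H817.KE.Stm2

/-!
The norms of the linear parts tend to zero, second version (`S_sml2`), by helper981 after `t_sml`.
-/

set_option autoImplicit false

namespace Pool.Agent.H817.KE

open Set Filter Topology Module

theorem smlb_lim {X : Type} [TopologicalSpace X] (U : Ultrafilter ℕ) {K : Set X} (hK : IsCompact K)
    (x : ℕ → X) (hx : ∀ᶠ n in (U : Filter ℕ), x n ∈ K) : ∃ a ∈ K, Tendsto x U (𝓝 a) := by
  obtain ⟨a, ha, h⟩ := isCompact_iff_ultrafilter_le_nhds.1 hK (U.map x) (by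
    rw [le_principal_iff]
    exact hx)
  exact ⟨a, ha, h⟩

theorem smlb_clm {E : Type*} [NormedAddCommGroup E] [NormedSpace ℝ E] {F : Filter ℕ}
    {T : ℕ → E →L[ℝ] E} {T0 : E →L[ℝ] E} {x : ℕ → E} {x0 : E} (hT : Tendsto T F (𝓝 T0))
    (hx : Tendsto x F (𝓝 x0)) : Tendsto (fun n => T n (x n)) F (𝓝 (T0 x0)) := by
  have h1 : Continuous fun p : (E →L[ℝ] E) × E => p.1 p.2 :=
    (isBoundedBilinearMap_apply (𝕜 := ℝ) (E := E) (F := E)).continuous
  exact (h1.tendsto (T0, x0)).comp (hT.prodMk_nhds hx)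

theorem smlb_aff {E : Type} [NormedAddCommGroup E] [NormedSpace ℝ E] [FiniteDimensional ℝ E]
    (T : E ≃ᵃ[ℝ] E) (x y : E) : T x = T y + L T (x - y) := by
  have h := T.map_vadd y (x - y)
  rw [vadd_eq_add, vadd_eq_add, sub_add_cancel] at h
  rw [h, add_comm]
  rfl

theorem t_sml2 (h1 : S_unif) (h2 : S_bd2) (h3 : S_nrm2) : S_sml2 := by
  intro X Γ E _ _ _ _ _ _ _ _ dev hol hC U hU x0 ε hε
  by_contra hinf
  have hinf' : {g : Γ | g • x0 ∈ U ∧ ε ≤ ‖L (hol g)‖}.Infinite := hinf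
  obtain ⟨M, hM⟩ := h3 hC U hU x0
  obtain ⟨g, hginj, hg⟩ : ∃ g : ℕ → Γ, Function.Injective g ∧
      ∀ n, g n • x0 ∈ U ∧ ε ≤ ‖L (hol (g n))‖ :=
    ⟨fun n => (hinf'.natEmbedding _ n : Γ), fun a b h =>
      (hinf'.natEmbedding _).injective (Subtype.ext h), fun n => (hinf'.natEmbedding _ n).2⟩
  let V : Ultrafilter ℕ := Ultrafilter.of atTop
  have hV : (V : Filter ℕ) ≤ atTop := Ultrafilter.of_le atTop
  obtain ⟨L0, -, hL0⟩ := smlb_lim V (isCompact_closedBall (0 : E →L[ℝ] E) M)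
    (fun n => L (hol (g n))) (Eventually.of_forall fun n => by
      rw [mem_closedBall_zero_iff]
      exact hM (g n) (hg n).1)
  have hL0n : ε ≤ ‖L0‖ := ge_of_tendsto hL0.norm (Eventually.of_forall fun n => (hg n).2)
  obtain ⟨R, hR⟩ := hU.bd.exists_norm_le
  obtain ⟨w, -, hw⟩ := smlb_lim V (isCompact_closedBall (0 : E) R) (fun n => dev (g n • x0))
    (Eventually.of_forall fun n => by
      rw [mem_closedBall_zero_iff]
      exact hR _ (mem_image_of_mem dev (hg n).1))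
  have hT : ∀ x : X, Tendsto (fun n => dev (g n • x)) V (𝓝 (w + L0 (dev x - dev x0))) := by
    intro x
    have h4 : Tendsto (fun n => dev (g n • x0) + L (hol (g n)) (dev x - dev x0)) V
        (𝓝 (w + L0 (dev x - dev x0))) := hw.add (smlb_clm hL0 tendsto_const_nhds)
    refine h4.congr fun n => ?_
    rw [hC.equi, hC.equi]
    exact (smlb_aff (hol (g n)) (dev x) (dev x0)).symm
  have hb : ∀ x : X, ‖w + L0 (dev x - dev x0)‖ ≤ R := by
    intro x
    have hfin := h1 hC U hU {x} isCompact_singleton x0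
    have h4 : (g ⁻¹' {g : Γ | ∃ k ∈ ({x} : Set X), ¬ (g • k ∈ U ↔ g • x0 ∈ U)}).Finite :=
      hfin.preimage hginj.injOn
    have h5 : ∀ᶠ n in (atTop : Filter ℕ),
        n ∉ g ⁻¹' {g : Γ | ∃ k ∈ ({x} : Set X), ¬ (g • k ∈ U ↔ g • x0 ∈ U)} := by
      rw [← Nat.cofinite_eq_atTop]
      exact h4.eventually_cofinite_notMem
    have h6 : ∀ᶠ n in (V : Filter ℕ), ‖dev (g n • x)‖ ≤ R := by
      filter_upwards [hV h5] with n hn
      apply hR
      refine mem_image_of_mem dev ?_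
      by_contra hcon
      exact hn ⟨x, mem_singleton x, fun h => hcon (h.2 (hg n).1)⟩
    exact le_of_tendsto (hT x).norm h6
  have hL00 : L0 ≠ 0 := by
    intro h
    rw [h, norm_zero] at hL0n
    linarith
  obtain ⟨v, hv⟩ : ∃ v, L0 v ≠ 0 := by
    by_contra hcon
    push Not at hcon
    exact hL00 (ContinuousLinearMap.ext hcon)
  obtain ⟨ℓ, hℓ⟩ : ∃ ℓ : E →L[ℝ] ℝ, ℓ (L0 v) ≠ 0 := SeparatingDual.exists_ne_zero hv
  have hop : IsOpen (Set.range dev) := hC.loc.isOpenMap.isOpen_range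
  have hne : (Set.range dev).Nonempty := ⟨dev x0, x0, rfl⟩
  have hinv : ∀ g : Γ, ∀ z ∈ Set.range dev, hol g z ∈ Set.range dev := by
    rintro γ _ ⟨x, rfl⟩
    exact ⟨γ • x, hC.equi γ x⟩
  have hcc : ∃ K ⊆ Set.range dev, IsCompact K ∧
      ∀ z ∈ Set.range dev, ∃ g : Γ, ∃ k ∈ K, hol g k = z := by
    obtain ⟨K, hK, hK2⟩ := hC.cc
    refine ⟨dev '' K, image_subset_range _ _, hK.image hC.loc.continuous, ?_⟩
    rintro _ ⟨x, rfl⟩
    obtain ⟨γ, k, hk, hkx⟩ := hK2 x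
    refine ⟨γ, dev k, mem_image_of_mem dev hk, ?_⟩
    rw [← hC.equi, hkx]
  have h0 := h2 hol (Set.range dev) hop hne hinv hcc (ℓ.comp L0)
    ⟨‖ℓ‖ * R + |ℓ w| + |ℓ (L0 (dev x0))|, by
      rintro _ ⟨x, rfl⟩
      have h4 : |ℓ (w + L0 (dev x - dev x0))| ≤ ‖ℓ‖ * R :=
        (ℓ.le_opNorm _).trans (mul_le_mul_of_nonneg_left (hb x) (norm_nonneg _))
      have h5 : ℓ (L0 (dev x)) = ℓ (w + L0 (dev x - dev x0)) - ℓ w + ℓ (L0 (dev x0)) := by
        rw [map_add, map_sub, map_sub]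
        ring
      rw [ContinuousLinearMap.comp_apply, h5]
      calc |ℓ (w + L0 (dev x - dev x0)) - ℓ w + ℓ (L0 (dev x0))|
          ≤ |ℓ (w + L0 (dev x - dev x0)) - ℓ w| + |ℓ (L0 (dev x0))| := abs_add_le _ _
        _ ≤ (|ℓ (w + L0 (dev x - dev x0))| + |ℓ w|) + |ℓ (L0 (dev x0))| := by
            gcongr
            exact abs_sub _ _
        _ ≤ ‖ℓ‖ * R + |ℓ w| + |ℓ (L0 (dev x0))| := by gcongr⟩
  have h6 : (ℓ.comp L0) v = 0 := by rw [h0]; rfl
  exact hℓ h6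

end Pool.Agent.H817.KE
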