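import Mathlib

/-!
Statements with paper proofs: quotients of domains of the affine space (no volume condition) whose
group has more than one end are Hopf manifolds.
-/

set_option autoImplicit false

namespace Pool.Agent.H817.KE

open Set Filter Topology Module

/-- the linear part as a continuous linear map -/
noncomputable def L {E : Type} [NormedAddCommGroup E] [NormedSpace ℝ E] [FiniteDimensional ℝ E]
    (T : E ≃ᵃ[ℝ] E) : E →L[ℝ] E :=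
  LinearMap.toContinuousLinearMap (T.linear : E →ₗ[ℝ] E)

/-- The group `Γ` acts on the domain `Ω` by affine transformations, properly discontinuously and
cocompactly. -/
structure Kl {Γ E : Type} [Group Γ] [NormedAddCommGroup E] [NormedSpace ℝ E]
    (hol : Γ →* (E ≃ᵃ[ℝ] E)) (Ω : Set E) : Prop where
  op : IsOpen Ω
  cn : IsConnected Ω
  inv : ∀ g : Γ, ∀ z ∈ Ω, hol g z ∈ Ω
  pd : ∀ K ⊆ Ω, IsCompact K → {g : Γ | ∃ z ∈ K, hol g z ∈ K}.Finite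
  cc : ∃ K ⊆ Ω, IsCompact K ∧ ∀ z ∈ Ω, ∃ g : Γ, ∃ k ∈ K, hol g k = z

/-- `A` is a bounded set which is locally constant at the points of the complement of `Ω` -/
def Piece {E : Type} [NormedAddCommGroup E] (Ω A : Set E) : Prop :=
  Bornology.IsBounded A ∧ ∀ z ∉ Ω, ∀ᶠ z' in 𝓝 z, (z' ∈ A ↔ z ∈ A)

/-- TOPO. Copy the proof of `Pool.Agent.H817.PL.t_topo` (file h817_PL_Topo.lean in the store, needs
h817_PL_Stm2.lean, h817_PL_Stm.lean) without the hypothesis on lines: let `χ = 1` near `K`, with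
compact support in `Ω`, `θ = c dχ` (`0` outside of `Ω`), `h0` with `dh0 = θ` by the Poincaré lemma;
`h0` is constant `= κ` outside a ball. `β = h0 + c (1 - χ)` is locally constant on `Ω`, so
`β = β0` there. Let `ct = β0 - h0`. Then `ct` is locally constant outside of `tsupport χ`, in
particular at the points which are not in `Ω`, `ct = β0 - κ` outside a ball, and `ct = c` at the
points of `Ω` with `χ = 0` (take `K' = V`, the compact set outside of which `χ = 0`). -/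
def S_T : Prop := ∀ {E : Type} [NormedAddCommGroup E] [NormedSpace ℝ E]
  [FiniteDimensional ℝ E], 2 ≤ finrank ℝ E → ∀ Ω : Set E, IsOpen Ω → IsConnected Ω →
  ∀ K ⊆ Ω, IsCompact K → ∀ c : E → ℝ, (∀ z ∈ Ω \ K, ∀ᶠ z' in 𝓝 z, c z' = c z) →
  ∃ K' ⊆ Ω, IsCompact K' ∧ ∃ ct : E → ℝ, (∀ z ∉ Ω, ∀ᶠ z' in 𝓝 z, ct z' = ct z) ∧
    (∀ z ∈ Ω \ K', ct z = c z) ∧ ∃ c0 R : ℝ, ∀ z, R < ‖z‖ → ct z = c0

/-- PIECE. Prove `S_T → S_A`. As in `Pool.Agent.H817.PL.t_oneend` (file h817_PL_Oneend.lean in the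
store): the set `S` defines `c : E → ℝ` with values `0, 1`, locally constant on `Ω \ K`, and for all
`g ∉ B` (`B` finite) and `v ∈ V0` (`V0 ⊇ K0` compact in `Ω`; take `V0` such that also
`k0 ∈ V0`, for instance start from `K0 ∪ {k0}` in place of `K0`): `c (hol g v) = 1 ↔ g ∈ S`. Take `ct`
from `S_T`, `A1 = {z | ct z = 1}`. For all but finitely many `g` (`pd` for `K' ∪ {k0}`)
`hol g k0 ∉ K'`, so `hol g k0 ∈ A1 ↔ g ∈ S`. If `c0 ≠ 1` then `A1` is bounded, take `A = A1`. If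
`c0 = 1` take the complement `A = A1ᶜ` (bounded) and `Sᶜ` in place of `S`. The set of the `g` with
`hol g k0 ∈ A` differs from `S` (or `Sᶜ`) by a finite set; so it is infinite, and the last property
follows from that of `S` (for given `s` also use that `g ↦ g * s` is injective). -/
def S_A : Prop := ∀ {Γ E : Type} [Group Γ] [NormedAddCommGroup E] [NormedSpace ℝ E]
  [FiniteDimensional ℝ E], 2 ≤ finrank ℝ E → ∀ (hol : Γ →* (E ≃ᵃ[ℝ] E)) (Ω : Set E), Kl hol Ω →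
  ∀ S : Set Γ, (∀ s : Γ, {g | ¬ (g ∈ S ↔ g * s ∈ S)}.Finite) → S.Infinite → Sᶜ.Infinite →
  ∀ k0 ∈ Ω, ∃ A : Set E, Piece Ω A ∧ {g : Γ | hol g k0 ∈ A}.Infinite ∧
    ∀ s : Γ, {g : Γ | ¬ (hol g k0 ∈ A ↔ hol (g * s) k0 ∈ A)}.Finite

/-- BOUNDED FUNCTIONALS. Let `N` be the subspace of the (finite-dimensional, complete) space
`E →L[ℝ] ℝ` of the functionals which are bounded on `Ω`. It is invariant under `ℓ ↦ ℓ ∘ L (hol g)`,
as `ℓ (hol g z) = ℓ (L (hol g) z) + ℓ (hol g 0)` and `hol g` maps `Ω` into `Ω`. The evaluations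
`ℓ ↦ ℓ (z - z')`, `z, z' ∈ Ω`, on `N` are pointwise bounded, so (`banach_steinhaus`) there is `C`
with `|ℓ (z - z')| ≤ C ‖ℓ‖` for `ℓ ∈ N`, `z, z' ∈ Ω`. (*)
Suppose `ℓ ∈ N`, `ℓ ≠ 0`. Let `s` be the supremum of `ℓ` on `Ω`; `z n ∈ Ω`, `ℓ (z n) → s`;
`z n = hol (g n) (k n)`, `k n ∈ K`. Let `ε > 0` with `closedBall k ε ⊆ Ω` for all `k ∈ K`
(`IsCompact.exists_cthickening_subset_open` or similar). Let `ℓ n = ℓ ∘ L (hol (g n)) ∈ N`. For
`‖v‖ ≤ ε`, `ℓ (z n) + ℓ n v = ℓ (hol (g n) (k n + v)) ≤ s`, so `‖ℓ n‖ ≤ (s - ℓ (z n)) / ε → 0`.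
Let `a, b ∈ Ω` with `ℓ a ≠ ℓ b` (`Ω` is open and nonempty). Then `a = hol (g n) a'`,
`b = hol (g n) b'` with `a', b' ∈ Ω`, and `|ℓ a - ℓ b| = |ℓ n (a' - b')| ≤ C ‖ℓ n‖ → 0`:
contradiction. -/
def S_bd : Prop := ∀ {Γ E : Type} [Group Γ] [NormedAddCommGroup E] [NormedSpace ℝ E]
  [FiniteDimensional ℝ E] (hol : Γ →* (E ≃ᵃ[ℝ] E)) (Ω : Set E), Kl hol Ω →
  ∀ ℓ : E →L[ℝ] ℝ, (∃ M : ℝ, ∀ z ∈ Ω, |ℓ z| ≤ M) → ℓ = 0

/-- NORMS. For `Pool.Agent.H817.PL.t_line` see the file h817_PL_Line.lean in the store (copy the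
lemmas `line_lim`, `line_fin`, `line_aff`, `line_clm` and the second half of `t_line`; the
determinant is not used there). Suppose that there is no bound `M`; take `g n` with
`hol (g n) k0 ∈ A`, `n < ‖L (hol (g n))‖`, and an ultrafilter `U ≤ atTop` on `ℕ`;
`hol (g n) k0 → w` along `U` as `A` is bounded. If `w ∈ Ω`, by `pd` for a compact neighbourhood of
`w` joined with `{k0}`, `g n` is constant along `U`, but the norm tends to infinity: contradiction.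
So `w ∉ Ω`, and by `Piece` `w ∈ A`. As in `t_line` (with `k n = k0`) there is `d ≠ 0` with
`w + t • d ∉ Ω` for all `t : ℝ`. The set `{t | w + t • d ∈ A}` is open, and its complement is open (by
`Piece`), and it contains `0`; so it is everything, but `A` is bounded: contradiction. -/
def S_nrm : Prop := ∀ {Γ E : Type} [Group Γ] [NormedAddCommGroup E] [NormedSpace ℝ E]
  [FiniteDimensional ℝ E] (hol : Γ →* (E ≃ᵃ[ℝ] E)) (Ω : Set E), Kl hol Ω →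
  ∀ A : Set E, Piece Ω A → ∀ k0 ∈ Ω, ∃ M : ℝ, ∀ g : Γ, hol g k0 ∈ A → ‖L (hol g)‖ ≤ M

/-- SMALL NORMS. Prove `S_bd → S_nrm → S_sml`. Suppose that the set is infinite; take an injective
sequence `g n` in it, and an ultrafilter `U ≤ atTop` on `ℕ`. By `S_nrm` the norms are bounded, so
`L (hol (g n)) → L0` along `U`, with `ε ≤ ‖L0‖`, and `hol (g n) k0 → w`. For `x ∈ Ω`
`hol (g n) x = hol (g n) k0 + L (hol (g n)) (x - k0) → T x := w + L0 (x - k0)`. `T x ∉ Ω` for `x ∈ Ω`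
(otherwise `pd` for compact neighbourhoods of `x`, `T x`: finitely many values of `g n` along `U`,
but `g` is injective). In particular `w = T k0 ∉ Ω`, and `w ∈ A` by `Piece`. `T '' Ω` is
preconnected, disjoint from `Ω`, and by `Piece` its intersections with `A` and with `Aᶜ` are
relatively open; so `T '' Ω ⊆ A`, it is bounded. As `L0 ≠ 0` there is `ℓ : E →L[ℝ] ℝ` with
`ℓ ∘ L0 ≠ 0`, and `ℓ ∘ L0` is bounded on `Ω`: contradiction to `S_bd`. -/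
def S_sml : Prop := ∀ {Γ E : Type} [Group Γ] [NormedAddCommGroup E] [NormedSpace ℝ E]
  [FiniteDimensional ℝ E] (hol : Γ →* (E ≃ᵃ[ℝ] E)) (Ω : Set E), Kl hol Ω →
  ∀ A : Set E, Piece Ω A → ∀ k0 ∈ Ω, ∀ ε : ℝ, 0 < ε →
  {g : Γ | hol g k0 ∈ A ∧ ε ≤ ‖L (hol g)‖}.Finite

/-- CONTRACTION. Prove `S_sml → S_con`. Let `R > 0` with `A ⊆ ball 0 R`, `k0 ∈ ball 0 R`. Take an
injective sequence `g n` with `hol (g n) k0 ∈ A`; by `S_sml` `‖L (hol (g n))‖ → 0`. For an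
ultrafilter `U ≤ atTop`, `hol (g n) k0 → w`; `w ∉ Ω` (`pd`), so by `Piece` `w ∈ A` and
`ball w δ ⊆ A` for some `δ > 0`. Take `n` with `‖L (hol (g n))‖ < min (1/2) (δ / (4 R))`,
`‖hol (g n) k0 - w‖ < δ / 2`. Then `hol (g n)` maps `ball 0 R` into `ball w δ ⊆ A ⊆ ball 0 R`. Take
`g = g n`; by induction `hol (g ^ (n + 1))` maps `ball 0 R` into `A`. -/
def S_con : Prop := ∀ {Γ E : Type} [Group Γ] [NormedAddCommGroup E] [NormedSpace ℝ E]
  [FiniteDimensional ℝ E] (hol : Γ →* (E ≃ᵃ[ℝ] E)) (Ω : Set E), Kl hol Ω →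
  ∀ A : Set E, Piece Ω A → ∀ k0 ∈ Ω, {g : Γ | hol g k0 ∈ A}.Infinite →
  ∃ g : Γ, ‖L (hol g)‖ ≤ 1 / 2 ∧ ∀ n : ℕ, hol (g ^ (n + 1)) k0 ∈ A

/-- FIXED POINT. (Algebra and norms only; `E` is nontrivial.) `hol g` is a contraction, let `p` be its
fixed point (`ContractingWith`). Let `γ : Γ`, `h = γ * g * γ⁻¹`. Fix `a ≥ 1`; let
`x j = g ^ a * (h⁻¹) ^ j`. `x 0` is in the set `S = {x | hol x k0 ∈ A}`. If `x j ∈ S` then
`‖L (hol (x j))‖ ≤ M`; but `L (hol (x j)) = L_g ^ a * L_γ * (L_g⁻¹) ^ j * L_γ⁻¹`, so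
`(L_g⁻¹) ^ j = L_γ⁻¹ * (L_g⁻¹) ^ a * L (hol (x j)) * L_γ`, with norm
`≥ 2 ^ j` (as `1 ≤ ‖L_g ^ j‖ ‖(L_g⁻¹) ^ j‖`), so `x j ∉ S` for large `j`. Let `j + 1` be the least number
with `x (j + 1) ∉ S`; `x j ∈ S` and `x j * h⁻¹ ∉ S`, so `x j` is in the finite set of the last
hypothesis for `s = h⁻¹`. By the pigeonhole principle there are `1 ≤ a < a'` and `j, j'` with
`g ^ a * h⁻¹ ^ j = g ^ a' * h⁻¹ ^ j'`. The point `q = hol γ p` is fixed by `hol h`, so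
`hol (g ^ a) q = hol (g ^ a') q`, so `q = hol (g ^ (a' - a)) q`, and as `hol (g ^ (a' - a))` is a
contraction with the fixed point `p`, `q = p`. -/
def S_fix : Prop := ∀ {Γ E : Type} [Group Γ] [NormedAddCommGroup E] [NormedSpace ℝ E]
  [FiniteDimensional ℝ E] [Nontrivial E] (hol : Γ →* (E ≃ᵃ[ℝ] E)) (A : Set E) (k0 : E) (M : ℝ) (g : Γ),
  (∀ x : Γ, hol x k0 ∈ A → ‖L (hol x)‖ ≤ M) → ‖L (hol g)‖ ≤ 1 / 2 →
  (∀ n : ℕ, hol (g ^ (n + 1)) k0 ∈ A) →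
  (∀ s : Γ, {x : Γ | ¬ (hol x k0 ∈ A ↔ hol (x * s) k0 ∈ A)}.Finite) →
  ∃ p : E, ∀ γ : Γ, hol γ p = p

/-- CYCLIC. (`E` is nontrivial.) Let `γ : Γ`, `x a = γ * g ^ a` for `a : ℤ`, `S = {x | hol x k0 ∈ A}`.
For `a → +∞` `hol (x a) k0 - p = L_γ (L_g ^ a (k0 - p)) → 0`; `p ∉ Ω` and by `Piece` `p ∈ A`
(it is the limit of `hol (g ^ (n + 1)) k0 ∈ A`), so a neighbourhood of `p` is contained in `A`: so
`x a ∈ S` for large `a`. For `a → -∞` `‖L (hol (x a))‖ → ∞` (`L_g ^ a = L_γ⁻¹ L (hol (x a))`, with norm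
`≥ 2 ^ (-a)`), so `x a ∉ S` for some `a`. So there is `a : ℤ` with `x a ∉ S`, `x (a + 1) ∈ S`, so `x a`
is in the finite set `Φ` of the last hypothesis for `s = g`. -/
def S_cyc : Prop := ∀ {Γ E : Type} [Group Γ] [NormedAddCommGroup E] [NormedSpace ℝ E]
  [FiniteDimensional ℝ E] [Nontrivial E] (hol : Γ →* (E ≃ᵃ[ℝ] E)) (Ω A : Set E) (k0 p : E) (M : ℝ)
  (g : Γ), Piece Ω A → p ∉ Ω → (∀ γ : Γ, hol γ p = p) →
  (∀ x : Γ, hol x k0 ∈ A → ‖L (hol x)‖ ≤ M) → ‖L (hol g)‖ ≤ 1 / 2 →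
  (∀ n : ℕ, hol (g ^ (n + 1)) k0 ∈ A) →
  (∀ s : Γ, {x : Γ | ¬ (hol x k0 ∈ A ↔ hol (x * s) k0 ∈ A)}.Finite) →
  ∃ Φ : Set Γ, Φ.Finite ∧ ∀ γ : Γ, ∃ a : ℤ, γ * g ^ a ∈ Φ

/-- HOPF. Let `K` be as in `cc`, `K1 = ⋃_{φ ∈ Φ} hol φ⁻¹ '' K`, compact, contained in `Ω`, `p ∉ K1`. For
`z ∈ Ω`, `z = hol γ k`; take `a` with `φ = γ⁻¹ * g ^ a ∈ Φ`; `γ = g ^ a * φ⁻¹`, so
`z ∈ hol (g ^ a) '' K1`. The set `Ω` is closed in the complement of `p`: let `z n ∈ Ω`, `z n → z ≠ p`,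
`z n = hol (g ^ a n) (k n)`, `k n ∈ K1`; `z n - p = L_g ^ (a n) (k n - p)`, with
`‖L_g ^ a‖ ≤ 2 ^ (-a)` for `a ≥ 0`, and `‖L_g ^ a v‖ ≥ 2 ^ (-a) ‖v‖` for `a ≤ 0`; as `‖k n - p‖` is
bounded from above and from below by positive numbers, and `‖z n - p‖` too, `a n` is bounded, so it
takes some value `a` infinitely often, and `z ∈ hol (g ^ a) '' K1 ⊆ Ω` (closed). The complement of `p`
is preconnected (`isConnected_compl_singleton_of_one_lt_rank`), `Ω` is nonempty, open and relatively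
closed in it, so `Ω = {p}ᶜ`. (`p ∉ Ω` is assumed.) -/
def S_hopf : Prop := ∀ {Γ E : Type} [Group Γ] [NormedAddCommGroup E] [NormedSpace ℝ E]
  [FiniteDimensional ℝ E], 2 ≤ finrank ℝ E → ∀ (hol : Γ →* (E ≃ᵃ[ℝ] E)) (Ω : Set E), Kl hol Ω →
  ∀ (p : E) (g : Γ) (Φ : Set Γ), p ∉ Ω → hol g p = p → ‖L (hol g)‖ ≤ 1 / 2 →
  Φ.Finite → (∀ γ : Γ, ∃ a : ℤ, γ * g ^ a ∈ Φ) → Ω = {p}ᶜ

end Pool.Agent.H817.KE
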