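import Pool.Agent.H817.KE.Stm

/-!
Statements with paper proofs: closed affine manifolds (arbitrary developing map) with an end which has
a bounded developing image.
-/

set_option autoImplicit false

namespace Pool.Agent.H817.KE

open Set Filter Topology Module

/-- closed affine manifold -/
structure CA (X Γ E : Type) [TopologicalSpace X] [Group Γ] [MulAction Γ X]
    [NormedAddCommGroup E] [NormedSpace ℝ E] (dev : X → E) (hol : Γ →* (E ≃ᵃ[ℝ] E)) : Prop where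
  loc : IsLocalHomeomorph dev
  cont : ∀ γ : Γ, Continuous fun x : X => γ • x
  equi : ∀ (γ : Γ) (x : X), dev (γ • x) = hol γ (dev x)
  pd : ∀ K : Set X, IsCompact K → {γ : Γ | ∃ x ∈ K, γ • x ∈ K}.Finite
  cc : ∃ K : Set X, IsCompact K ∧ ∀ x : X, ∃ γ : Γ, ∃ k ∈ K, γ • k = x

/-- `U` is a connected neighbourhood of an end, with a bounded developing image -/
structure BEnd {X E : Type} [TopologicalSpace X] [NormedAddCommGroup E] (dev : X → E) (U : Set X) :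
    Prop where
  op : IsOpen U
  cn : IsPreconnected U
  fr : IsCompact (frontier U)
  nc : ¬ IsCompact (closure U)
  bd : Bornology.IsBounded (dev '' U)

/-- UNIFORM. Write `x ~ y` if `{g | ¬ (g • x ∈ U ↔ g • y ∈ U)}` is finite: an equivalence relation. Every
`x` has an open neighbourhood `N` contained in a compact preconnected set `P` (a chart of the local
homeomorphism `dev`, preimages of balls of `E`). By `pd` for `P ∪ frontier U`, for all but finitely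
many `g` the preconnected set `g • P` is disjoint from `frontier U`, so it is contained in `U` or
disjoint from `U` (`IsPreconnected.inter_frontier_nonempty` or similar). So
`{g | ∃ y ∈ P, ¬ (g • y ∈ U ↔ g • x ∈ U)}` is finite. So the classes are open, and as `X` is connected
all points are equivalent. The compact set `K1` is covered by finitely many such `N`. -/
def S_unif : Prop := ∀ {X Γ E : Type} [TopologicalSpace X] [T2Space X] [ConnectedSpace X] [Group Γ]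
  [MulAction Γ X] [NormedAddCommGroup E] [NormedSpace ℝ E] [FiniteDimensional ℝ E] {dev : X → E}
  {hol : Γ →* (E ≃ᵃ[ℝ] E)}, CA X Γ E dev hol → ∀ U : Set X, BEnd dev U → ∀ K1 : Set X, IsCompact K1 →
  ∀ x0 : X, {g : Γ | ∃ k ∈ K1, ¬ (g • k ∈ U ↔ g • x0 ∈ U)}.Finite

/-- BOUNDED FUNCTIONALS, second version. The proof of `Pool.Agent.H817.KE.t_bd` (file
h817_KE_Bd.lean in the store) uses only these four properties of `Kl`. -/
def S_bd2 : Prop := ∀ {Γ E : Type} [Group Γ] [NormedAddCommGroup E] [NormedSpace ℝ E]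
  [FiniteDimensional ℝ E] (hol : Γ →* (E ≃ᵃ[ℝ] E)) (Ω : Set E), IsOpen Ω → Ω.Nonempty →
  (∀ g : Γ, ∀ z ∈ Ω, hol g z ∈ Ω) → (∃ K ⊆ Ω, IsCompact K ∧ ∀ z ∈ Ω, ∃ g : Γ, ∃ k ∈ K, hol g k = z) →
  ∀ ℓ : E →L[ℝ] ℝ, (∃ M : ℝ, ∀ z ∈ Ω, |ℓ z| ≤ M) → ℓ = 0

/-- NORMS, second version. Prove `S_unif → S_nrm2`. Let `P` be a compact neighbourhood of `x0`, mapped
by `dev` onto a neighbourhood of `dev x0`, so `closedBall (dev x0) ε ⊆ dev '' P`. By `S_unif` for `P`,
for all but finitely many `g` with `g • x0 ∈ U`, `g • P ⊆ U`, so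
`hol g '' closedBall (dev x0) ε ⊆ dev '' U`, which is bounded, with diameter `≤ D`; so
`‖L (hol g) v‖ = ‖hol g (dev x0 + v) - hol g (dev x0)‖ ≤ D` for `‖v‖ ≤ ε`, `‖L (hol g)‖ ≤ D / ε`. For the
finitely many other `g` take the maximum of the norms. -/
def S_nrm2 : Prop := ∀ {X Γ E : Type} [TopologicalSpace X] [T2Space X] [ConnectedSpace X] [Group Γ]
  [MulAction Γ X] [NormedAddCommGroup E] [NormedSpace ℝ E] [FiniteDimensional ℝ E] {dev : X → E}
  {hol : Γ →* (E ≃ᵃ[ℝ] E)}, CA X Γ E dev hol → ∀ U : Set X, BEnd dev U → ∀ x0 : X,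
  ∃ M : ℝ, ∀ g : Γ, g • x0 ∈ U → ‖L (hol g)‖ ≤ M

/-- SMALL NORMS, second version. Prove `S_unif → S_bd2 → S_nrm2 → S_sml2` (compare t_sml in
h817_KE_Sml.lean in the store). Suppose that the set is infinite; take an injective sequence `g n` in
it and an ultrafilter `V ≤ atTop` on `ℕ`. By `S_nrm2` `L (hol (g n)) → L0` along `V`, with `ε ≤ ‖L0‖`,
and `dev (g n • x0) → w` (bounded, as `g n • x0 ∈ U`). Let `x : X`.
`dev (g n • x) = hol (g n) (dev x) = dev (g n • x0) + L (hol (g n)) (dev x - dev x0) →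
w + L0 (dev x - dev x0)`. By `S_unif` (for `K1 = {x}`), `g n • x ∈ U` along `V` (only finitely many
exceptions, and `g` is injective), so with `dev '' U ⊆ closedBall 0 R`:
`‖w + L0 (dev x - dev x0)‖ ≤ R` for all `x`. There is `ℓ` with `ℓ ∘ L0 ≠ 0`, and `ℓ ∘ L0` is bounded on
`Set.range dev`: contradiction to `S_bd2` for `Ω = Set.range dev` (`dev` is open and continuous). -/
def S_sml2 : Prop := ∀ {X Γ E : Type} [TopologicalSpace X] [T2Space X] [ConnectedSpace X] [Group Γ]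
  [MulAction Γ X] [NormedAddCommGroup E] [NormedSpace ℝ E] [FiniteDimensional ℝ E] {dev : X → E}
  {hol : Γ →* (E ≃ᵃ[ℝ] E)}, CA X Γ E dev hol → ∀ U : Set X, BEnd dev U → ∀ x0 : X,
  ∀ ε : ℝ, 0 < ε → {g : Γ | g • x0 ∈ U ∧ ε ≤ ‖L (hol g)‖}.Finite

/-- CONTRACTION, second version. Prove `S_unif → S_sml2 → S_con2`. Let `F = frontier U`. `E` is
nontrivial.
(a) `S = {g | g • x0 ∈ U}` is infinite: otherwise by `S_unif` for `K` (as in `cc`) for all but finitely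
many `g`, `g • K ∩ U = ∅`, so `U` is contained in finitely many `g • K`, and `closure U` is compact.
(b) For all but finitely many `g ∈ S`: `g • F ⊆ U` (`S_unif` for `F`), `‖L (hol g)‖ ≤ 1 / 2` (`S_sml2`).
(c) For all but finitely many `g ∈ S`, `g⁻¹ • x0 ∉ U`: let `H` be the finite set of the `h` with
`h • x0 ∈ U`, `1 ≤ ‖L (hol h)‖` (`S_sml2`). If `g, g⁻¹ ∈ S` then `1 ≤ ‖L (hol g)‖ ‖L (hol g⁻¹)‖`
(`E` is nontrivial), so `g ∈ H` or `g⁻¹ ∈ H`: finitely many `g`.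
(d) For all but finitely many `g ∈ S`, `g • U` is disjoint from `F`: otherwise `g⁻¹ • f ∈ U` for some
`f ∈ F`, so by `S_unif` for `F` (applied to `g⁻¹`, finitely many exceptions) `g⁻¹ • x0 ∈ U`, and (c).
(e) Let `g ∈ S` be such that (b), (d) hold. `F` is nonempty (otherwise `U` is everything, as `X` is
connected and `U ≠ ∅`; then take instead (f)), `g • U` is preconnected, disjoint from `frontier U`, and
it meets `U` (the points of `g • F ⊆ U`, `U` open, are in the closure of `g • U`), so `g • U ⊆ U`. As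
`g • x0 ∈ U`, `g ^ (n + 1) • x0 ∈ U` for all `n` by induction.
(f) If `U = univ` all `g` are in `S`, then `g` and `g⁻¹` are in `S` for infinitely many `g`, in
contradiction to (c). -/
def S_con2 : Prop := ∀ {X Γ E : Type} [TopologicalSpace X] [T2Space X] [ConnectedSpace X] [Group Γ]
  [MulAction Γ X] [NormedAddCommGroup E] [NormedSpace ℝ E] [FiniteDimensional ℝ E] [Nontrivial E]
  {dev : X → E} {hol : Γ →* (E ≃ᵃ[ℝ] E)}, CA X Γ E dev hol → ∀ U : Set X, BEnd dev U → ∀ x0 : X,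
  ∃ g : Γ, ‖L (hol g)‖ ≤ 1 / 2 ∧ ∀ n : ℕ, g ^ (n + 1) • x0 ∈ U

/-- PIGEONHOLE. Adapt the proof of `Pool.Agent.H817.KE.t_fix` (file h817_KE_Fix.lean in the store; there
`S = {x | hol x k0 ∈ A}`): with `h = γ * g * γ⁻¹` it gives `1 ≤ a < a'` and `j, j'` with
`g ^ a * h⁻¹ ^ j = g ^ a' * h⁻¹ ^ j'`. So `h ^ (j' - j) = g ^ (a' - a)` (integer exponents), with
`m = a' - a > 0`. Let `l = j' - j`. If `l ≤ 0`, then for all `k : ℕ`,
`L_g ^ (m k) = L_γ * (L_g⁻¹) ^ (-l k) * L_γ⁻¹`, where the norm of the left side tends to `0` and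
`1 ≤ ‖L_g ^ (-l k)‖ ‖(L_g⁻¹) ^ (-l k)‖` with `‖L_g‖ ≤ 1`, so `‖(L_g⁻¹) ^ (-l k)‖ ≥ 1`, and
`(L_g⁻¹) ^ (-l k) = L_γ⁻¹ * L_g ^ (m k) * L_γ` tends to `0`: contradiction. So `l > 0`. -/
def S_pig : Prop := ∀ {Γ E : Type} [Group Γ] [NormedAddCommGroup E] [NormedSpace ℝ E]
  [FiniteDimensional ℝ E] [Nontrivial E] (hol : Γ →* (E ≃ᵃ[ℝ] E)) (S : Set Γ) (M : ℝ) (g : Γ),
  (∀ x ∈ S, ‖L (hol x)‖ ≤ M) → ‖L (hol g)‖ ≤ 1 / 2 → (∀ n : ℕ, g ^ (n + 1) ∈ S) →
  (∀ s : Γ, {x : Γ | ¬ (x ∈ S ↔ x * s ∈ S)}.Finite) →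
  ∀ γ : Γ, ∃ m l : ℕ, 0 < m ∧ 0 < l ∧ g ^ m = γ * g ^ l * γ⁻¹

/-- CYCLIC, second version. Prove `S_pig → S_cyc2` (compare t_cyc in h817_KE_Cyc.lean in the store). Let
`Φ` be the finite set of the last hypothesis for `s = g`, `γ : Γ`, and `m, l` from `S_pig`, so
`g ^ (m * k) * γ = γ * g ^ (l * k)`. The elements `g ^ (m * k)`, `k ≥ 1`, are in `S`, and they are
different (`‖L_g ^ i‖ ≤ 2 ^ (-i) < 1`), so by the last hypothesis for `s = γ` some `g ^ (m * k) * γ ∈ S`,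
that is `γ * g ^ (l * k) ∈ S`. For `a → -∞` the norm of `L (hol (γ * g ^ a))` tends to infinity
(`L_g ^ a = L_γ⁻¹ L (hol (γ * g ^ a))` has norm `≥ 2 ^ (-a)`), so `γ * g ^ a ∉ S` for some `a`, smaller
than `l * k`. So for some integer `a`, `γ * g ^ a ∉ S` and `γ * g ^ (a + 1) ∈ S`, so
`γ * g ^ a ∈ Φ`. -/
def S_cyc2 : Prop := ∀ {Γ E : Type} [Group Γ] [NormedAddCommGroup E] [NormedSpace ℝ E]
  [FiniteDimensional ℝ E] [Nontrivial E] (hol : Γ →* (E ≃ᵃ[ℝ] E)) (S : Set Γ) (M : ℝ) (g : Γ),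
  (∀ x ∈ S, ‖L (hol x)‖ ≤ M) → ‖L (hol g)‖ ≤ 1 / 2 → (∀ n : ℕ, g ^ (n + 1) ∈ S) →
  (∀ s : Γ, {x : Γ | ¬ (x ∈ S ↔ x * s ∈ S)}.Finite) →
  ∃ Φ : Set Γ, Φ.Finite ∧ ∀ γ : Γ, ∃ a : ℤ, γ * g ^ a ∈ Φ

end Pool.Agent.H817.KE
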