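import Pool.Agent.H817.KE.Stm2

/-! A fixed point of the holonomy is not in the developing image. -/

set_option autoImplicit false

namespace Pool.Agent.H817.KE

open Set Filter Topology Module

/-- RADIANT. Suppose `dev x0 = p`.
(1) There is `ε > 0` such that for every `k ∈ K` (`K` as in `cc`) there is a continuous local section
`σ` of `dev` on `ball (dev k) ε` with `σ (dev k) = k` (cover `K` by finitely many charts; if
`dev` is a homeomorphism from the open set `V` to the open set `W`, `k' ∈ V`, use a ball
`ball (dev k') (2 r) ⊆ W` and the neighbourhood `V ∩ dev⁻¹ (ball (dev k') r)` of `k'`). Let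
`‖dev k - p‖ ≤ C` on `K`, `δ > 0` with `δ C < ε`.
(2) For every `y : X` (`y = γ • k`) the path `s ↦ dev y + s (dev y - p)`, `s ∈ [0, δ]`, has a lift to `X`
which starts at `y`: `γ • σ (dev k + s (dev k - p))`, as `hol γ p = p`.
(3) For every `v : E` the path `t ↦ p + t v`, `t ∈ [0, 1]`, has a continuous lift `c` with `c 0 = x0`:
for small times `t0 > 0` by a local section at `x0`, and from time `t` one gets to time `t (1 + δ)` by
(2); after finitely many steps one gets to time `1`.
(4) So (with `IsLocalHomeomorph.continuous_lift` of Mathlib.Topology.Homotopy.Lifting or by hand)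
`τ (p + v) = c_v 1` is a continuous section of `dev` on `E` with `τ p = x0`. Its range is open
(`dev` is a local homeomorphism) and closed (`X` is Hausdorff: the range is the set of the `y` with
`τ (dev y) = y`), so it is `X`, and `dev` is injective. So `γ • x0 = x0` for all `γ`, and `Γ` is finite by
`pd`: contradiction. -/
def S_rad : Prop := ∀ {X Γ E : Type} [TopologicalSpace X] [T2Space X] [ConnectedSpace X] [Group Γ]
  [MulAction Γ X] [NormedAddCommGroup E] [NormedSpace ℝ E] [FiniteDimensional ℝ E] {dev : X → E}
  {hol : Γ →* (E ≃ᵃ[ℝ] E)}, CA X Γ E dev hol → Infinite Γ → ∀ p : E, (∀ γ : Γ, hol γ p = p) →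
  ∀ x : X, dev x ≠ p

end Pool.Agent.H817.KE
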