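import Pool.Agent.H817.KE.Stm

/-!
Locally constant functions near the complement of a domain (`S_T`); adapted from
`Pool.Agent.H817.PL.t_topo` (file h817_PL_Topo.lean).
-/

set_option autoImplicit false

namespace Pool.Agent.H817.KE

open Set Filter Topology Module
open scoped Manifold ContDiff

section tt
variable {E : Type} [NormedAddCommGroup E] [NormedSpace ℝ E] [FiniteDimensional ℝ E]

theorem tt_cutoff {K V : Set E} (hK : IsCompact K) (hKV : K ⊆ interior V) :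
    ∃ χ : E → ℝ, ContDiff ℝ 2 χ ∧ (∀ᶠ x in 𝓝ˢ K, χ x = 1) ∧ ∀ x ∉ V, χ x = 0 := by
  obtain ⟨f, h1, h2, -⟩ := exists_contMDiffMap_one_nhds_of_subset_interior (n := 2) 𝓘(ℝ, E)
    hK.isClosed hKV
  exact ⟨f, f.contMDiff.contDiff, h1, h2⟩

theorem tt_fderiv_zero {f : E → ℝ} {z : E} {r : ℝ} (h : ∀ᶠ z' in 𝓝 z, f z' = r) :
    ∀ᶠ z' in 𝓝 z, fderiv ℝ f z' = 0 := by
  filter_upwards [h.eventually_nhds] with z' hz'
  have h1 : f =ᶠ[𝓝 z'] fun _ => r := hz'
  rw [h1.fderiv_eq]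
  simp

theorem tt_conn (h2 : 2 ≤ finrank ℝ E) (ρ : ℝ) (hρ : 0 ≤ ρ) :
    IsPreconnected (Metric.closedBall (0 : E) ρ)ᶜ := by
  have hr : 1 < Module.rank ℝ E := by
    rw [← finrank_eq_rank]
    exact_mod_cast h2
  have hP : IsPreconnected (Metric.sphere (0 : E) 1 ×ˢ Ioi ρ) :=
    (isConnected_sphere hr 0 zero_le_one).isPreconnected.prod isPreconnected_Ioi
  have hc : Continuous fun q : E × ℝ => q.2 • q.1 := by fun_prop
  have hI := hP.image (fun q : E × ℝ => q.2 • q.1) hc.continuousOn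
  have he : (fun q : E × ℝ => q.2 • q.1) '' (Metric.sphere (0 : E) 1 ×ˢ Ioi ρ) =
      (Metric.closedBall (0 : E) ρ)ᶜ := by
    ext x
    rw [mem_compl_iff, mem_closedBall_zero_iff, not_le]
    constructor
    · rintro ⟨⟨y, r⟩, ⟨hy, hr'⟩, rfl⟩
      have hy' : ‖y‖ = 1 := mem_sphere_zero_iff_norm.1 hy
      have hr0 : ρ < r := hr'
      show ρ < ‖r • y‖
      rw [norm_smul, hy', mul_one, Real.norm_eq_abs, abs_of_pos (hρ.trans_lt hr0)]
      exact hr0
    · intro hx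
      have hx0 : 0 < ‖x‖ := hρ.trans_lt hx
      refine ⟨(‖x‖⁻¹ • x, ‖x‖), ⟨?_, hx⟩, ?_⟩
      · rw [mem_sphere_zero_iff_norm, norm_smul, norm_inv, norm_norm, inv_mul_cancel₀ hx0.ne']
      · show ‖x‖ • ‖x‖⁻¹ • x = x
        rw [smul_smul, mul_inv_cancel₀ hx0.ne', one_smul]
  rwa [he] at hI

end tt

theorem t_T : S_T := by
  classical
  intro E _ _ _ h2 Ω hΩo hΩc K hKΩ hK c hc
  obtain ⟨V, hV, hKV, hVΩ⟩ := exists_compact_between hK hΩo hKΩ
  obtain ⟨χ, hχ, hχ1, hχ0⟩ := tt_cutoff hK hKV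
  have hVc : IsClosed V := hV.isClosed
  have hd1 : ∀ z ∈ K, ∀ᶠ z' in 𝓝 z, χ z' = 1 := fun z hz =>
    hχ1.filter_mono (nhds_le_nhdsSet hz)
  have hd0 : ∀ z ∉ V, ∀ᶠ z' in 𝓝 z, χ z' = 0 := fun z hz => by
    filter_upwards [hVc.isOpen_compl.mem_nhds hz] with z' hz'
    exact hχ0 z' hz'
  obtain ⟨θ, hθ⟩ : ∃ θ : E → (E →L[ℝ] ℝ), ∀ z, θ z = if z ∈ Ω then c z • fderiv ℝ χ z else 0 :=
    ⟨_, fun _ => rfl⟩
  have hθz : ∀ z, fderiv ℝ χ z = 0 → θ z = 0 := by
    intro z hz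
    rw [hθ, hz, smul_zero, ite_self]
  have hloc : ∀ z, ∃ r : ℝ, ∀ᶠ z' in 𝓝 z, θ z' = r • fderiv ℝ χ z' := by
    intro z
    have hflat : (∀ᶠ z' in 𝓝 z, fderiv ℝ χ z' = 0) →
        ∃ r : ℝ, ∀ᶠ z' in 𝓝 z, θ z' = r • fderiv ℝ χ z' := fun h =>
      ⟨0, h.mono fun z' hz' => by rw [hθz z' hz', zero_smul]⟩
    by_cases hzV : z ∈ V
    · by_cases hzK : z ∈ K
      · exact hflat (tt_fderiv_zero (hd1 z hzK))
      · refine ⟨c z, ?_⟩
        filter_upwards [hc z ⟨hVΩ hzV, hzK⟩, hΩo.mem_nhds (hVΩ hzV)] with z' h1 h3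
        rw [hθ, if_pos h3, h1]
    · exact hflat (tt_fderiv_zero (hd0 z hzV))
  have hχ' : Differentiable ℝ (fderiv ℝ χ) :=
    (hχ.fderiv_right (m := 1) (by norm_num)).differentiable (by norm_num)
  have hθd : Differentiable ℝ θ := by
    intro z
    obtain ⟨r, hr⟩ := hloc z
    exact ((hχ' z).const_smul r).congr_of_eventuallyEq hr
  have hsym : ∀ z x y, fderiv ℝ θ z x y = fderiv ℝ θ z y x := by
    intro z x y
    obtain ⟨r, hr⟩ := hloc z
    have hr' : θ =ᶠ[𝓝 z] fun z' => r • fderiv ℝ χ z' := hr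
    rw [hr'.fderiv_eq, fderiv_fun_const_smul (hχ' z)]
    have hs : IsSymmSndFDerivAt ℝ χ z := hχ.contDiffAt.isSymmSndFDerivAt (by simp)
    simp only [ContinuousLinearMap.smul_apply]
    rw [hs x y]
  obtain ⟨h0, hh0⟩ := convex_univ.exists_forall_hasFDerivAt_of_fderiv_symmetric (𝕜 := ℝ)
    isOpen_univ hθd.differentiableOn (fun z _ x y => hsym z x y)
  have hθV : ∀ z ∉ V, θ z = 0 := fun z hz => hθz z (tt_fderiv_zero (hd0 z hz)).self_of_nhds
  obtain ⟨ρ', hρ'⟩ := hV.isBounded.subset_closedBall 0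
  obtain ⟨ρ, hρ, hρV⟩ : ∃ ρ : ℝ, 0 ≤ ρ ∧ V ⊆ Metric.closedBall (0 : E) ρ :=
    ⟨max ρ' 0, le_max_right _ _, hρ'.trans (Metric.closedBall_subset_closedBall (le_max_left _ _))⟩
  obtain ⟨κ, hκ⟩ := (Metric.isClosed_closedBall (x := (0 : E)) (ε := ρ)).isOpen_compl
    |>.exists_is_const_of_fderiv_eq_zero (𝕜 := ℝ) (f := h0) (tt_conn h2 ρ hρ)
      (fun z _ => (hh0 z (mem_univ z)).differentiableAt.differentiableWithinAt)
      (fun z hz => by
        rw [(hh0 z (mem_univ z)).fderiv, hθV z fun hzV => hz (hρV hzV)]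
        rfl)
  have hhd : ∀ z, HasFDerivAt h0 (θ z) z := fun z => hh0 z (mem_univ z)
  have hflat : ∀ w ∉ V, ∀ᶠ z in 𝓝 w, h0 z = h0 w := by
    intro w hw
    obtain ⟨ε, hε, hb⟩ := Metric.isOpen_iff.1 hVc.isOpen_compl w hw
    filter_upwards [Metric.ball_mem_nhds w hε] with z hz
    exact Metric.isOpen_ball.is_const_of_fderiv_eq_zero (𝕜 := ℝ) (f := h0)
      (convex_ball w ε).isPreconnected
      (fun y _ => (hhd y).differentiableAt.differentiableWithinAt)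
      (fun y hy => by
        rw [(hhd y).fderiv, hθV y (hb hy)]
        rfl) hz (Metric.mem_ball_self hε)
  have hβ : ∀ z ∈ Ω, HasFDerivAt (fun z => h0 z + c z * (1 - χ z)) (0 : E →L[ℝ] ℝ) z := by
    intro z hz
    by_cases hzK : z ∈ K
    · have h1 : (fun z => h0 z + c z * (1 - χ z)) =ᶠ[𝓝 z] h0 := by
        filter_upwards [hd1 z hzK] with z' hz'
        rw [hz', sub_self, mul_zero, add_zero]
      have h3 : θ z = 0 := hθz z (tt_fderiv_zero (hd1 z hzK)).self_of_nhds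
      have h4 := hhd z
      rw [h3] at h4
      exact h4.congr_of_eventuallyEq h1
    · have h1 : (fun z => h0 z + c z * (1 - χ z)) =ᶠ[𝓝 z] fun z' => h0 z' + c z * (1 - χ z') := by
        filter_upwards [hc z ⟨hz, hzK⟩] with z' hz'
        rw [hz']
      have h3 : HasFDerivAt χ (fderiv ℝ χ z) z :=
        (hχ.differentiable (by norm_num) z).hasFDerivAt
      have h4 := (hhd z).add ((h3.const_sub 1).const_mul (c z))
      have h5 : θ z + c z • -fderiv ℝ χ z = 0 := by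
        rw [hθ, if_pos hz, smul_neg, add_neg_cancel]
      rw [h5] at h4
      exact h4.congr_of_eventuallyEq h1
  obtain ⟨β0, hβ0⟩ := hΩo.exists_is_const_of_fderiv_eq_zero (𝕜 := ℝ)
    (f := fun z => h0 z + c z * (1 - χ z)) hΩc.isPreconnected
    (fun z hz => (hβ z hz).differentiableAt.differentiableWithinAt)
    (fun z hz => (hβ z hz).fderiv)
  refine ⟨V, hVΩ, hV, fun z => β0 - h0 z, ?_, ?_, β0 - κ, ρ, ?_⟩
  · intro z hz
    filter_upwards [hflat z fun hzV => hz (hVΩ hzV)] with z' hz'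
    rw [hz']
  · rintro z ⟨hz, hzV⟩
    have h3 := hβ0 z hz
    simp only [hχ0 z hzV, sub_zero, mul_one] at h3
    show β0 - h0 z = c z
    linarith
  · intro z hz
    show β0 - h0 z = β0 - κ
    rw [hκ z (by
      rw [mem_compl_iff, mem_closedBall_zero_iff, not_le]
      exact hz)]

end Pool.Agent.H817.KE
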