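import Pool.Agent.H817.KE.Stm2

/-!
UNIFORM: for all but finitely many `g`, the points `g • k`, `k ∈ K1`, are on the same side as `g • x0`.
-/

set_option autoImplicit false

namespace Pool.Agent.H817.KE

open Set Filter Topology Module

/-- every point has an open neighbourhood in a compact preconnected set -/
theorem unif_nbhd {X E : Type} [TopologicalSpace X] [NormedAddCommGroup E] [NormedSpace ℝ E]
    [FiniteDimensional ℝ E] {dev : X → E} (hl : IsLocalHomeomorph dev) (x : X) :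
    ∃ N P : Set X, IsOpen N ∧ x ∈ N ∧ N ⊆ P ∧ IsCompact P ∧ IsPreconnected P := by
  obtain ⟨e, hx, -⟩ := hl x
  have hT : e.target ∈ 𝓝 (e x) := e.open_target.mem_nhds (e.map_source hx)
  obtain ⟨r, hr, hrT⟩ := Metric.nhds_basis_closedBall.mem_iff.1 hT
  have hproper : ProperSpace E := FiniteDimensional.proper ℝ E
  have hcont : ContinuousOn e.symm (Metric.closedBall (e x) r) := e.continuousOn_symm.mono hrT
  refine ⟨e.symm '' Metric.ball (e x) r, e.symm '' Metric.closedBall (e x) r, ?_, ?_, ?_, ?_, ?_⟩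
  · exact e.isOpen_image_symm_of_subset_target Metric.isOpen_ball
      (Metric.ball_subset_closedBall.trans hrT)
  · exact ⟨e x, Metric.mem_ball_self hr, e.left_inv hx⟩
  · exact image_mono Metric.ball_subset_closedBall
  · exact (isCompact_closedBall (e x) r).image_of_continuousOn hcont
  · exact (convex_closedBall (e x) r).isPreconnected.image _ hcont

/-- a preconnected set which does not meet the frontier of the open set `U` -/
theorem unif_side {X : Type} [TopologicalSpace X] {U P : Set X} (hU : IsOpen U)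
    (hP : IsPreconnected P) (h : ∀ z ∈ P, z ∉ frontier U) {a b : X} (ha : a ∈ P) (hb : b ∈ P) :
    a ∈ U ↔ b ∈ U := by
  have hsub : P ⊆ U ∪ (closure U)ᶜ := by
    intro z hz
    by_cases hzU : z ∈ U
    · exact Or.inl hzU
    · refine Or.inr fun hzc => h z hz ?_
      rw [hU.frontier_eq]
      exact ⟨hzc, hzU⟩
  have hdisj : Disjoint U (closure U)ᶜ :=
    disjoint_left.2 fun z hz hz' => hz' (subset_closure hz)
  rcases IsPreconnected.subset_or_subset hU isClosed_closure.isOpen_compl hdisj hsub hP with h1 | h1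
  · exact ⟨fun _ => h1 hb, fun _ => h1 ha⟩
  · exact ⟨fun h2 => absurd (subset_closure h2) (h1 ha),
      fun h2 => absurd (subset_closure h2) (h1 hb)⟩

/-- the statement for a compact preconnected set -/
theorem unif_loc {X Γ E : Type} [TopologicalSpace X] [Group Γ]
    [MulAction Γ X] [NormedAddCommGroup E] [NormedSpace ℝ E] {dev : X → E}
    {hol : Γ →* (E ≃ᵃ[ℝ] E)} (hc : CA X Γ E dev hol) {U : Set X} (hU : BEnd dev U) {P : Set X}
    (hPc : IsCompact P) (hP : IsPreconnected P) {x : X} (hx : x ∈ P) :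
    {g : Γ | ∃ y ∈ P, ¬ (g • y ∈ U ↔ g • x ∈ U)}.Finite := by
  refine (hc.pd (P ∪ frontier U) (hPc.union hU.fr)).subset ?_
  rintro g ⟨y, hy, hn⟩
  by_contra hg
  refine hn (unif_side (P := (fun x : X => g • x) '' P) hU.op
    (hP.image _ (hc.cont g).continuousOn) ?_ ⟨y, hy, rfl⟩ ⟨x, hx, rfl⟩)
  rintro _ ⟨z, hz, rfl⟩ hzf
  exact hg ⟨z, Or.inl hz, Or.inr hzf⟩

/-- the equivalence of all points -/
theorem unif_all {X Γ E : Type} [TopologicalSpace X] [ConnectedSpace X] [Group Γ]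
    [MulAction Γ X] [NormedAddCommGroup E] [NormedSpace ℝ E] [FiniteDimensional ℝ E] {dev : X → E}
    {hol : Γ →* (E ≃ᵃ[ℝ] E)} (hc : CA X Γ E dev hol) {U : Set X} (hU : BEnd dev U) (x0 x : X) :
    {g : Γ | ¬ (g • x ∈ U ↔ g • x0 ∈ U)}.Finite := by
  -- local constancy
  have hloc : ∀ x : X, ∃ N : Set X, IsOpen N ∧ x ∈ N ∧
      ∀ y ∈ N, {g : Γ | ¬ (g • y ∈ U ↔ g • x ∈ U)}.Finite := by
    intro x
    obtain ⟨N, P, hNo, hxN, hNP, hPc, hP⟩ := unif_nbhd hc.loc x
    refine ⟨N, hNo, hxN, fun y hy => ?_⟩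
    exact (unif_loc hc hU hPc hP (hNP hxN)).subset fun g hg => ⟨y, hNP hy, hg⟩
  let A : Set X := {x | {g : Γ | ¬ (g • x ∈ U ↔ g • x0 ∈ U)}.Finite}
  have htrans : ∀ y z : X, {g : Γ | ¬ (g • y ∈ U ↔ g • z ∈ U)}.Finite → (y ∈ A ↔ z ∈ A) := by
    intro y z hyz
    constructor
    · intro hy
      refine (hyz.union hy).subset fun g hg => ?_
      by_contra hn
      simp only [mem_union, mem_ofPred_eq, not_or, not_not] at hn
      exact hg (hn.1.symm.trans hn.2)
    · intro hz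
      refine (hyz.union hz).subset fun g hg => ?_
      by_contra hn
      simp only [mem_union, mem_ofPred_eq, not_or, not_not] at hn
      exact hg (hn.1.trans hn.2)
  have hAo : IsOpen A := by
    rw [isOpen_iff_forall_mem_open]
    intro x hx
    obtain ⟨N, hNo, hxN, hN⟩ := hloc x
    exact ⟨N, fun y hy => (htrans y x (hN y hy)).2 hx, hNo, hxN⟩
  have hAc : IsOpen Aᶜ := by
    rw [isOpen_iff_forall_mem_open]
    intro x hx
    obtain ⟨N, hNo, hxN, hN⟩ := hloc x
    exact ⟨N, fun y hy hyA => hx ((htrans y x (hN y hy)).1 hyA), hNo, hxN⟩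
  have hx0 : x0 ∈ A := by
    have : {g : Γ | ¬ (g • x0 ∈ U ↔ g • x0 ∈ U)} = ∅ := by
      ext g; simp
    change {g : Γ | ¬ (g • x0 ∈ U ↔ g • x0 ∈ U)}.Finite
    rw [this]
    exact finite_empty
  have hA : A = univ := IsClopen.eq_univ ⟨⟨hAc⟩, hAo⟩ ⟨x0, hx0⟩
  have hx : x ∈ A := hA ▸ mem_univ x
  exact hx

theorem t_unif : S_unif := by
  intro X Γ E _ _ _ _ _ _ _ _ dev hol hc U hU K1 hK1 x0
  choose N P hNo hxN hNP hPc hP using fun x : X => unif_nbhd (x := x) hc.loc
  obtain ⟨t, -, ht⟩ := hK1.elim_nhds_subcover N fun x _ => (hNo x).mem_nhds (hxN x)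
  have hfin : (⋃ x ∈ t, ({g : Γ | ∃ y ∈ P x, ¬ (g • y ∈ U ↔ g • x ∈ U)} ∪
      {g : Γ | ¬ (g • x ∈ U ↔ g • x0 ∈ U)})).Finite := by
    refine t.finite_toSet.biUnion fun x _ => ?_
    exact (unif_loc hc hU (hPc x) (hP x) (hNP x (hxN x))).union (unif_all hc hU x0 x)
  refine hfin.subset ?_
  rintro g ⟨k, hk, hn⟩
  obtain ⟨x, hxt, hkx⟩ := mem_iUnion₂.1 (ht hk)
  refine mem_iUnion₂.2 ⟨x, hxt, ?_⟩
  by_cases h : (g • x ∈ U ↔ g • x0 ∈ U)
  · exact Or.inl ⟨k, hNP x hkx, fun h' => hn (h'.trans h)⟩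
  · exact Or.inr h

end Pool.Agent.H817.KE
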